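import Mathlib

/-!
# FO+MOD transductions versus FO transductions of classes of finite graphs: definitions
-/

set_option autoImplicit false

namespace Pool.Agent.N636.FM

/-- Formulas of first-order logic with modulo counting quantifiers over one binary relation and
`m` unary predicates, with free variables in `Fin k`. The quantifiers bind the variable `0` of the
formula they are applied to; `md a b` is the quantifier `∃^{a mod b}`. -/
inductive Fm (m : ℕ) : ℕ → Type
  | eq {k : ℕ} : Fin k → Fin k → Fm m k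
  | adj {k : ℕ} : Fin k → Fin k → Fm m k
  | col {k : ℕ} : Fin m → Fin k → Fm m k
  | neg {k : ℕ} : Fm m k → Fm m k
  | and {k : ℕ} : Fm m k → Fm m k → Fm m k
  | ex {k : ℕ} : Fm m (k + 1) → Fm m k
  | md {k : ℕ} (a b : ℕ) (h : a < b) : Fm m (k + 1) → Fm m k

/-- truth of a formula in the graph `G` with the vertex sets `U c` as unary predicates; `x` is the
assignment of the free variables -/
def Sat {V : Type} (G : SimpleGraph V) {m : ℕ} (U : Fin m → V → Prop) :
    {k : ℕ} → Fm m k → (Fin k → V) → Prop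
  | _, .eq i j, x => x i = x j
  | _, .adj i j, x => G.Adj (x i) (x j)
  | _, .col c i, x => U c (x i)
  | _, .neg φ, x => ¬ Sat G U φ x
  | _, .and φ ψ, x => Sat G U φ x ∧ Sat G U ψ x
  | _, .ex φ, x => ∃ v : V, Sat G U φ (Matrix.vecCons v x)
  | _, .md a b _ φ, x => {v : V | Sat G U φ (Matrix.vecCons v x)}.ncard % b = a

/-- formulas of first-order logic: no modulo counting quantifiers -/
def Fm.IsFO {m : ℕ} : {k : ℕ} → Fm m k → Prop
  | _, .eq _ _ => True
  | _, .adj _ _ => True
  | _, .col _ _ => True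
  | _, .neg φ => φ.IsFO
  | _, .and φ ψ => φ.IsFO ∧ ψ.IsFO
  | _, .ex φ => φ.IsFO
  | _, .md _ _ _ _ => False

/-- quantifier rank -/
def Fm.qr {m : ℕ} : {k : ℕ} → Fm m k → ℕ
  | _, .eq _ _ => 0
  | _, .adj _ _ => 0
  | _, .col _ _ => 0
  | _, .neg φ => φ.qr
  | _, .and φ ψ => max φ.qr ψ.qr
  | _, .ex φ => φ.qr + 1
  | _, .md _ _ _ φ => φ.qr + 1

/-- an FO+MOD transduction: the number of unary predicates, the domain formula and the edge
formula -/
structure Trans where
  /-- number of unary predicates -/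
  m : ℕ
  /-- domain formula -/
  nu : Fm m 1
  /-- edge formula -/
  eta : Fm m 2

/-- the FO transductions -/
def Trans.IsFO (T : Trans) : Prop := T.nu.IsFO ∧ T.eta.IsFO

/-- `H` is (isomorphic to) one of the output graphs of the transduction `T` on `G` -/
def Out (T : Trans) {V W : Type} (G : SimpleGraph V) (H : SimpleGraph W) : Prop :=
  ∃ (U : Fin T.m → V → Prop) (f : W → V), Function.Injective f ∧
    (∀ v : V, v ∈ Set.range f ↔ Sat G U T.nu ![v]) ∧
    ∀ a b : W, H.Adj a b ↔ a ≠ b ∧ Sat G U T.eta ![f a, f b] ∧ Sat G U T.eta ![f b, f a]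

/-- a finite graph -/
abbrev FGraph : Type := Σ n : ℕ, SimpleGraph (Fin n)

/-- the class `D` consists of outputs of `T` on members of the class `C` -/
def Transduces (T : Trans) (C D : Set FGraph) : Prop :=
  ∀ H ∈ D, ∃ G ∈ C, Out T G.2 H.2

/-! ### Block graphs -/

/-- incidence graph of a family of blocks -/
def inc {V E : Type} (blk : E → Finset V) : SimpleGraph (V ⊕ E) where
  Adj x y := (∃ v e, x = .inl v ∧ y = .inr e ∧ v ∈ blk e) ∨
    (∃ v e, x = .inr e ∧ y = .inl v ∧ v ∈ blk e)
  symm := ⟨fun x y h => by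
    rcases h with ⟨v, e, hx, hy, h⟩ | ⟨v, e, hx, hy, h⟩
    · exact Or.inr ⟨v, e, hy, hx, h⟩
    · exact Or.inl ⟨v, e, hy, hx, h⟩⟩
  loopless := ⟨fun x h => by
    rcases h with ⟨v, e, hx, hy, h⟩ | ⟨v, e, hx, hy, h⟩
    · rw [hx] at hy; exact absurd hy (by simp)
    · rw [hx] at hy; exact absurd hy (by simp)⟩

/-- the union of the cliques on the blocks -/
def clq {V E : Type} (blk : E → Finset V) : SimpleGraph V where
  Adj u v := u ≠ v ∧ ∃ e, u ∈ blk e ∧ v ∈ blk e
  symm := ⟨fun _ _ h => ⟨h.1.symm, h.2.imp fun _ he => ⟨he.2, he.1⟩⟩⟩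
  loopless := ⟨fun _ h => h.1 rfl⟩

/-- every cycle is longer than `g` -/
def HG {W : Type} (g : ℕ) (I : SimpleGraph W) : Prop :=
  ∀ (v : W) (c : I.Walk v v), c.IsCycle → g < c.length

/-- colours along a path of length at most `R` from `a` to `b`, `none` if there is no such path -/
noncomputable def ptype {W Γ : Type} (I : SimpleGraph W) (κ : W → Γ) (R : ℕ) (a b : W) :
    Option (Fin (R + 1) → Option Γ) :=
  open Classical in
  if h : ∃ p : I.Walk a b, p.IsPath ∧ p.length ≤ R then
    some (fun i => if (i : ℕ) ≤ h.choose.length then some (κ (h.choose.getVert i)) else none)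
  else none

/-- colours of the nodes of the incidence graph: a vertex has its colour, a block has, for each
colour, the number of its vertices with this colour, counted up to `T` -/
def kap {V E : Type} (T : ℕ) {K : ℕ} (τ : V → Fin K) (blk : E → Finset V) :
    V ⊕ E → Fin K ⊕ (Fin K → Fin (T + 1))
  | .inl v => .inl (τ v)
  | .inr e => .inr fun k =>
      ⟨min T ((blk e).filter fun v => τ v = k).card, Nat.lt_succ_of_le (min_le_left _ _)⟩

/-- number of neighbours of `u` with colour `c` -/
noncomputable def cnt {W : Type} (I : SimpleGraph W) (f : W → ℕ) (u : W) (c : ℕ) : ℕ :=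
  {y : W | I.Adj u y ∧ f y = c}.ncard

/-- canonical threshold colour refinement up to level `J`, starting from `χ` -/
def Chn {W C : Type} (I : SimpleGraph W) (T J : ℕ) (τ : ℕ → W → ℕ) (χ : W → C) : Prop :=
  (∀ u v, τ 0 u = τ 0 v ↔ χ u = χ v) ∧
  ∀ j < J, ∀ u v, τ (j + 1) u = τ (j + 1) v ↔
    (τ j u = τ j v ∧ ∀ c, min T (cnt I (τ j) u c) = min T (cnt I (τ j) v c))

/-- base colours: the unary predicates on vertices, one colour for all blocks -/
def bc {V E : Type} {m : ℕ} (U : Fin m → V → Prop) : V ⊕ E → Option (Fin m → Prop)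
  | .inl v => some fun c => U c v
  | .inr _ => none

/-- paths of length at most `R` between points of `S` stay in `S` -/
def Conv {W : Type} (I : SimpleGraph W) (R : ℕ) (S : Finset W) : Prop :=
  ∀ u ∈ S, ∀ v ∈ S, ∀ p : I.Walk u v, p.IsPath → p.length ≤ R → ∀ w ∈ p.support, w ∈ S

/-- `π` maps `S` isomorphically onto its image, preserving the colours of level `j`, and both `S`
and its image are `R`-convex -/
structure PI {W : Type} [DecidableEq W] (I : SimpleGraph W) (τ : ℕ → W → ℕ) (j R : ℕ)
    (S : Finset W) (π : W → W) : Prop where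
  inj : Set.InjOn π S
  adj : ∀ u ∈ S, ∀ v ∈ S, (I.Adj u v ↔ I.Adj (π u) (π v))
  col : ∀ u ∈ S, τ j u = τ j (π u)
  cS : Conv I R S
  cI : Conv I R (S.image π)

end Pool.Agent.N636.FM
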