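import Mathlib
import Pool.Agent.N636.FM.Defs

/-!
# FO+MOD transductions versus FO transductions: statements of the parts of the proof
-/

set_option autoImplicit false

namespace Pool.Agent.N636.FM

/-- TAU: existence of the threshold colour refinement, with a bounded number of colours -/
def S_TAU : Prop := ∀ (C : Type) [Fintype C] (T J : ℕ), ∃ K : ℕ, ∀ (W : Type) [Fintype W]
  (I : SimpleGraph W) (χ : W → C), ∃ τ : ℕ → W → ℕ, (∀ j u, τ j u < K) ∧ Chn I T J τ χ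

/-- CV: adding a neighbour to a convex set -/
def S_CV : Prop := ∀ (W : Type) [DecidableEq W] (I : SimpleGraph W) (R : ℕ) (S : Finset W)
  (u₀ u₁ : W), HG (R + 1) I → Conv I (R + 1) S → u₀ ∈ S → I.Adj u₀ u₁ → u₁ ∉ S →
  Conv I R (insert u₁ S)

/-- ST: one step of the local move -/
def S_ST : Prop := ∀ (W : Type) [Fintype W] [DecidableEq W] (I : SimpleGraph W) (C : Type)
  (χ : W → C) (T J : ℕ) (τ : ℕ → W → ℕ) (j R : ℕ) (S : Finset W) (π : W → W) (u₀ u₁ : W),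
  Chn I T J τ χ → j + 1 ≤ J → 1 ≤ R → HG (R + 1) I → PI I τ (j + 1) (R + 1) S π →
  S.card < T → u₀ ∈ S → I.Adj u₀ u₁ → u₁ ∉ S →
  ∃ π' : W → W, (∀ x ∈ S, π' x = π x) ∧ PI I τ j R (insert u₁ S) π'

/-- LM: the local move -/
def S_LM : Prop := ∀ (W : Type) [Fintype W] [DecidableEq W] (I : SimpleGraph W) (C : Type)
  (χ : W → C) (T J : ℕ) (τ : ℕ → W → ℕ) (j R r : ℕ) (S : Finset W) (π : W → W) (u y : W),
  Chn I T J τ χ → j + r ≤ J → 1 ≤ R → HG (R + r) I → PI I τ (j + r) (R + r) S π →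
  S.card + r ≤ T → u ∈ S → ∀ p : I.Walk u y, p.length ≤ r →
  ∃ (S' : Finset W) (π' : W → W), S ⊆ S' ∧ y ∈ S' ∧ (∀ x ∈ S, π' x = π x) ∧
    PI I τ j R S' π' ∧ S'.card ≤ S.card + r

/-- CL: small convex subsets -/
def S_CL : Prop := ∀ (W : Type) [DecidableEq W] (I : SimpleGraph W) (n R : ℕ) (A S : Finset W),
  HG (2 * ((n + 1) * (R + 1))) I → A ⊆ S → A.card ≤ n → Conv I R S →
  ∃ S₀ : Finset W, A ⊆ S₀ ∧ S₀ ⊆ S ∧ Conv I R S₀ ∧ S₀.card ≤ n * (R + 1)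

/-- FM: the full move -/
def S_FM : Prop := ∀ k r j : ℕ, 1 ≤ r → ∃ J₀ R₀ T₀ g₀ : ℕ, r ≤ R₀ ∧
  ∀ (W : Type) [Fintype W] [DecidableEq W] (I : SimpleGraph W) (C : Type)
    (χ : W → C) (T J : ℕ) (τ : ℕ → W → ℕ), Chn I T J τ χ → J₀ ≤ J → T₀ ≤ T → HG g₀ I →
  ∀ (A S : Finset W) (π : W → W), A ⊆ S → A.card ≤ k → S.card ≤ k * (R₀ + 1) →
    PI I τ J₀ R₀ S π → ∀ y : W,
  ∃ (S' : Finset W) (π' : W → W), A ⊆ S' ∧ y ∈ S' ∧ (∀ x ∈ A, π' x = π x) ∧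
    PI I τ j r S' π' ∧ S'.card ≤ (k + 1) * (r + 1)

/-- FI: partial isomorphisms preserve FO formulas -/
def S_FI : Prop := ∀ m a k : ℕ, ∃ J₀ R₀ T₀ g₀ : ℕ, 2 ≤ R₀ ∧
  ∀ (s N : ℕ) (blk : Fin N → Finset (Fin s)) (U : Fin m → Fin s → Prop) (T J : ℕ)
    (τ : ℕ → (Fin s ⊕ Fin N) → ℕ), Chn (inc blk) T J τ (bc U) → J₀ ≤ J → T₀ ≤ T →
    HG g₀ (inc blk) →
  ∀ (S : Finset (Fin s ⊕ Fin N)) (π : (Fin s ⊕ Fin N) → (Fin s ⊕ Fin N)),
    S.card ≤ k * (R₀ + 1) → PI (inc blk) τ J₀ R₀ S π →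
  ∀ x x' : Fin k → Fin s, (∀ i, Sum.inl (x i) ∈ S ∧ π (Sum.inl (x i)) = Sum.inl (x' i)) →
  ∀ φ : Fm m k, φ.IsFO → φ.qr ≤ a → (Sat (clq blk) U φ x ↔ Sat (clq blk) U φ x')

/-- START: pairs of the same type are matched by a partial isomorphism -/
def S_START : Prop := ∀ (m T J K R s N : ℕ) (blk : Fin N → Finset (Fin s))
  (U : Fin m → Fin s → Prop) (τ : ℕ → (Fin s ⊕ Fin N) → ℕ) (hK : ∀ j u, τ j u < K),
  1 ≤ R → Chn (inc blk) T J τ (bc U) → HG (2 * R + 2) (inc blk) →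
  ∀ a b a' b' : Fin s, τ J (Sum.inl a) = τ J (Sum.inl a') → τ J (Sum.inl b) = τ J (Sum.inl b') →
  ptype (inc blk) (kap T (fun v => (⟨τ J (Sum.inl v), hK _ _⟩ : Fin K)) blk) R
      (Sum.inl a) (Sum.inl b) =
    ptype (inc blk) (kap T (fun v => (⟨τ J (Sum.inl v), hK _ _⟩ : Fin K)) blk) R
      (Sum.inl a') (Sum.inl b') →
  ∃ (S : Finset (Fin s ⊕ Fin N)) (π : (Fin s ⊕ Fin N) → (Fin s ⊕ Fin N)),
    PI (inc blk) τ J R S π ∧ S.card ≤ 2 * (R + 1) ∧ Sum.inl a ∈ S ∧ Sum.inl b ∈ S ∧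
    π (Sum.inl a) = Sum.inl a' ∧ π (Sum.inl b) = Sum.inl b'

/-- LOC: locality of FO formulas on block graphs of high girth -/
def S_LOC : Prop := ∀ m q : ℕ, ∃ K T R g : ℕ, ∀ (s N : ℕ) (blk : Fin N → Finset (Fin s)),
  HG g (inc blk) → ∀ U : Fin m → Fin s → Prop, ∃ τ : Fin s → Fin K,
  ∀ a b a' b' : Fin s, τ a = τ a' → τ b = τ b' →
    ptype (inc blk) (kap T τ blk) R (Sum.inl a) (Sum.inl b) =
      ptype (inc blk) (kap T τ blk) R (Sum.inl a') (Sum.inl b') →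
  ∀ φ : Fm m 2, φ.IsFO → φ.qr ≤ q →
    ((Sat (clq blk) U φ ![a, b] ↔ Sat (clq blk) U φ ![a', b']) ∧
     (Sat (clq blk) U φ ![b, a] ↔ Sat (clq blk) U φ ![b', a']))

/-- delete the vertex `w e` from the block `e` when `b e` is true -/
def blkb {s N : ℕ} (blk : Fin N → Finset (Fin s)) (w : Fin N → Fin s) (b : Fin N → Bool) :
    Fin N → Finset (Fin s) := fun e => if b e then (blk e).erase (w e) else blk e

/-- the deletion at the block `e` may be visible for the pairs `(x e', y e')`: the colour of `w e`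
is rare in the block, or the incidence `(w e, e)` lies on a short path between `x e'`, `y e'` -/
def Vis {s N K : ℕ} (blk : Fin N → Finset (Fin s)) (T R : ℕ) (τ : Fin s → Fin K)
    (x y : Fin N → Fin s) (w : Fin N → Fin s) (e : Fin N) : Prop :=
  ((blk e).filter fun v => τ v = τ (w e)).card ≤ T ∨
  ∃ (e' : Fin N) (p : (inc blk).Walk (Sum.inl (x e')) (Sum.inl (y e'))),
    p.IsPath ∧ p.length ≤ R ∧ s(Sum.inl (w e), Sum.inr e) ∈ p.edges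

/-- finite set of colours of nodes -/
abbrev Gam (K T : ℕ) : Type := Fin K ⊕ (Fin K → Fin (T + 1))

/-- decoding functions -/
abbrev Dec (K T R : ℕ) : Type :=
  Fin K → Fin K → Option (Fin (R + 1) → Option (Gam K T)) → Bool

/-- DET: invisible deletions do not change the types -/
def S_DET : Prop := ∀ (s N K T R : ℕ) (blk : Fin N → Finset (Fin s)) (x y w : Fin N → Fin s)
  (τ : Fin s → Fin K) (b b' : Fin N → Bool), HG (2 * R) (inc blk) →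
  (∀ e, Vis blk T R τ x y w e → b e = b' e) →
  ∀ e, ptype (inc (blkb blk w b)) (kap T τ (blkb blk w b)) R (Sum.inl (x e)) (Sum.inl (y e)) =
    ptype (inc (blkb blk w b')) (kap T τ (blkb blk w b')) R (Sum.inl (x e)) (Sum.inl (y e))

/-- WST: deletions which are mostly invisible for all colourings and all maps -/
def S_WST : Prop := ∀ K T R : ℕ, ∃ t₀ : ℕ, ∀ t ≥ t₀, ∀ (s N : ℕ)
  (blk : Fin N → Finset (Fin s)) (x y : Fin N → Fin s), (∀ e, (blk e).card = t) →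
  HG (2 * R) (inc blk) → (∀ e, x e ∈ blk e ∧ y e ∈ blk e ∧ x e ≠ y e) →
  s ^ s * K ^ s < 2 ^ N →
  ∃ w : Fin N → Fin s, (∀ e, w e ∈ blk e ∧ w e ≠ x e ∧ w e ≠ y e) ∧
    ∀ (τ : Fin s → Fin K) (f : Fin s → Fin s),
      2 * {e : Fin N | Vis blk T R τ (f ∘ x) (f ∘ y) w e}.ncard ≤ N

/-- CNT: counting -/
def S_CNT : Prop := ∀ K T R : ℕ, ∃ t₀ : ℕ, ∀ t ≥ t₀, ∀ (s N : ℕ)
  (blk : Fin N → Finset (Fin s)) (x y : Fin N → Fin s), (∀ e, (blk e).card = t) →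
  HG (2 * R) (inc blk) → (∀ e, x e ∈ blk e ∧ y e ∈ blk e ∧ x e ≠ y e) →
  s ^ s * K ^ s < 2 ^ N →
  16 * (s ^ s * K ^ s * Nat.card (Dec K T R)) ^ 2 ≤ 2 ^ N →
  ∀ F : Finset (Fin N → Bool), 4 * F.card ≤ 2 ^ N →
  ∃ (w : Fin N → Fin s) (b : Fin N → Bool), (∀ e, w e ∈ blk e ∧ w e ≠ x e ∧ w e ≠ y e) ∧
    b ∉ F ∧ ∀ (f : Fin s → Fin s) (τ : Fin s → Fin K) (Ψ : Dec K T R),
      ¬ ∀ e, b e = Ψ (τ (f (x e))) (τ (f (y e)))
        (ptype (inc (blkb blk w b)) (kap T τ (blkb blk w b)) R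
          (Sum.inl (f (x e))) (Sum.inl (f (y e))))

/-- FOR: small sets of points in a graph of very high girth -/
def S_FOR : Prop := ∀ K T R s : ℕ, ∃ F : Finset (Fin s → Fin s → Bool),
  F.card ≤ (s * (R + 1) + 1) ^ (s * (R + 1)) * Nat.card (Gam K T) ^ (s * (R + 1)) *
    Nat.card (Dec K T R) ∧
  ∀ (s' N' : ℕ) (blk : Fin N' → Finset (Fin s')), HG (s * s * (R + 1) + 2 * R + 2) (inc blk) →
  ∀ (a : Fin s → Fin s') (τ : Fin s' → Fin K) (Ψ : Dec K T R),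
    (fun i j => Ψ (τ (a i)) (τ (a j))
      (ptype (inc blk) (kap T τ blk) R (Sum.inl (a i)) (Sum.inl (a j)))) ∈ F

/-- BASE: hypergraphs of high girth with many blocks -/
def S_BASE : Prop := ∀ t g C s₀ : ℕ, 2 ≤ t → ∃ (s N : ℕ) (blk : Fin N → Finset (Fin s)),
  s₀ < s ∧ (∀ e, (blk e).card = t) ∧ HG g (inc blk) ∧ C * (s * (Nat.log 2 s + 1)) ≤ N

/-- the edges with an odd number of common neighbours -/
def modG {V : Type} (G : SimpleGraph V) : SimpleGraph V where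
  Adj u v := G.Adj u v ∧ Odd {z | G.Adj u z ∧ G.Adj v z}.ncard
  symm := ⟨fun u v h => ⟨h.1.symm, by
    have : {z | G.Adj v z ∧ G.Adj u z} = {z | G.Adj u z ∧ G.Adj v z} := by
      ext z; exact and_comm
    rw [this]; exact h.2⟩⟩
  loopless := ⟨fun _ h => G.irrefl h.1⟩

/-- MODX: parity of the blocks -/
def S_MODX : Prop := ∀ (s N t : ℕ) (blk : Fin N → Finset (Fin s)) (x y w : Fin N → Fin s)
  (b : Fin N → Bool), Even t → (∀ e, (blk e).card = t) → HG 6 (inc blk) →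
  (∀ e, x e ∈ blk e ∧ y e ∈ blk e ∧ x e ≠ y e) →
  (∀ e, w e ∈ blk e ∧ w e ≠ x e ∧ w e ≠ y e) →
  ∀ e, ((modG (clq (blkb blk w b))).Adj (x e) (y e) ↔ b e = true)

/-- ARI: arithmetic -/
def S_ARI : Prop := ∀ K L R G : ℕ, ∃ C : ℕ, ∀ s N : ℕ, 1 ≤ s →
  C * (s * (Nat.log 2 s + 1)) ≤ N →
  s ^ s * K ^ s < 2 ^ N ∧ 16 * (s ^ s * K ^ s * L) ^ 2 ≤ 2 ^ N ∧
  4 * ((s * (R + 1) + 1) ^ (s * (R + 1)) * G ^ (s * (R + 1)) * L) ≤ 2 ^ N

/-- block graph of girth more than `γ` -/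
def BG (γ : ℕ) {s : ℕ} (G : SimpleGraph (Fin s)) : Prop :=
  ∃ (N : ℕ) (blk : Fin N → Finset (Fin s)), HG γ (inc blk) ∧ G = clq blk

/-- STAGE: one stage of the construction -/
def S_STAGE : Prop := ∀ m q s₀ γ₀ : ℕ, ∃ (s : ℕ) (G : SimpleGraph (Fin s)) (γ₁ : ℕ),
  s₀ < s ∧ BG γ₀ G ∧
  (∀ T : Trans, T.IsFO → T.m = m → T.eta.qr ≤ q → ¬ Out T G (modG G)) ∧
  ∀ (s' : ℕ) (G' : SimpleGraph (Fin s')), BG γ₁ G' →
    ∀ T : Trans, T.IsFO → T.m = m → T.eta.qr ≤ q → ¬ Out T G' (modG G)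

end Pool.Agent.N636.FM
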