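import Mathlib
import Pool.Agent.N636.FM.Defs

/-!
# Uniqueness of short paths in graphs of high girth (helper128, for project FM of helper636)
-/

set_option autoImplicit false

namespace Pool.Agent.N636.FM

namespace P_UNQ

theorem unq {W : Type} {I : SimpleGraph W} {g : ℕ} (h : HG g I) {a b : W}
    (p q : I.Walk a b) (hp : p.IsPath) (hq : q.IsPath) (hl : p.length + q.length ≤ g) : p = q := by
  classical
  let H : SimpleGraph W := SimpleGraph.fromEdgeSet {e | e ∈ p.edges ∨ e ∈ q.edges}
  have hHI : H ≤ I := by
    intro x y hxy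
    rw [SimpleGraph.fromEdgeSet_adj] at hxy
    rcases hxy.1 with h1 | h1
    · exact p.adj_of_mem_edges h1
    · exact q.adj_of_mem_edges h1
  have hpe : ∀ e ∈ p.edges, e ∈ H.edgeSet := by
    intro e he
    rw [SimpleGraph.edgeSet_fromEdgeSet]
    exact ⟨Or.inl he, I.not_isDiag_of_mem_edgeSet (p.edges_subset_edgeSet he)⟩
  have hqe : ∀ e ∈ q.edges, e ∈ H.edgeSet := by
    intro e he
    rw [SimpleGraph.edgeSet_fromEdgeSet]
    exact ⟨Or.inr he, I.not_isDiag_of_mem_edgeSet (q.edges_subset_edgeSet he)⟩
  have hac : H.IsAcyclic := by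
    intro v c hc
    have h1 := h v (c.mapLe hHI) (hc.mapLe hHI)
    rw [SimpleGraph.Walk.length_map] at h1
    have h2 : c.edges.toFinset ⊆ p.edges.toFinset ∪ q.edges.toFinset := by
      intro e he
      rw [List.mem_toFinset] at he
      have h3 := c.edges_subset_edgeSet he
      rw [SimpleGraph.edgeSet_fromEdgeSet] at h3
      rw [Finset.mem_union, List.mem_toFinset, List.mem_toFinset]
      exact h3.1
    have h3 : c.length = c.edges.toFinset.card := by
      rw [List.toFinset_card_of_nodup hc.edges_nodup, SimpleGraph.Walk.length_edges]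
    have h4 := (Finset.card_le_card h2).trans (Finset.card_union_le _ _)
    have h5 := List.toFinset_card_le p.edges
    have h6 := List.toFinset_card_le q.edges
    rw [SimpleGraph.Walk.length_edges] at h5 h6
    omega
  have h1 : (⟨p.transfer H hpe, hp.transfer hpe⟩ : H.Path a b) =
      ⟨q.transfer H hqe, hq.transfer hqe⟩ := hac.path_unique _ _
  have h2 : p.transfer H hpe = q.transfer H hqe := congrArg Subtype.val h1
  have h3 : (p.transfer H hpe).support = (q.transfer H hqe).support := by rw [h2]
  rw [SimpleGraph.Walk.support_transfer, SimpleGraph.Walk.support_transfer] at h3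
  exact SimpleGraph.Walk.ext_support h3

end P_UNQ

end Pool.Agent.N636.FM
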