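import Mathlib
import Pool.Agent.N636.FM.Defs
import Pool.Agent.N636.FM.Stm
import Pool.Agent.N636.FM.P_UNQ

/-!
# Small convex subsets (helper128, for project FM of helper636)
-/

set_option autoImplicit false

namespace Pool.Agent.N636.FM

namespace P_CL

variable {W : Type} [DecidableEq W] {I : SimpleGraph W}

/-- joined inside `S` -/
def Jn (I : SimpleGraph W) (S : Finset W) (x y : W) : Prop :=
  ∃ q : I.Walk x y, ∀ z ∈ q.support, z ∈ S

theorem Jn.symm {S : Finset W} {x y : W} (h : Jn I S x y) : Jn I S y x := by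
  obtain ⟨q, hq⟩ := h
  exact ⟨q.reverse, fun z hz => hq z (by rwa [SimpleGraph.Walk.support_reverse, List.mem_reverse] at hz)⟩

theorem Jn.trans {S : Finset W} {x y z : W} (h : Jn I S x y) (h' : Jn I S y z) : Jn I S x z := by
  obtain ⟨q, hq⟩ := h
  obtain ⟨r, hr⟩ := h'
  refine ⟨q.append r, fun t ht => ?_⟩
  rw [SimpleGraph.Walk.mem_support_append_iff] at ht
  exact ht.elim (hq t) (hr t)

theorem Jn.mono {S T : Finset W} (hST : S ⊆ T) {x y : W} (h : Jn I S x y) : Jn I T x y := by
  obtain ⟨q, hq⟩ := h
  exact ⟨q, fun z hz => hST (hq z hz)⟩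

theorem Jn.path {S : Finset W} {x y : W} (h : Jn I S x y) :
    ∃ q : I.Walk x y, q.IsPath ∧ ∀ z ∈ q.support, z ∈ S := by
  obtain ⟨q, hq⟩ := h
  exact ⟨q.bypass, q.bypass_isPath, fun z hz => hq z (q.support_bypass_subset hz)⟩

theorem core {n R : ℕ} {A S : Finset W} (hG : HG (2 * ((n + 1) * (R + 1))) I)
    (hS : Conv I R S) : ∀ (c : ℕ) (S₀ : Finset W) (l : W → W), A ⊆ S₀ → S₀ ⊆ S →
    (S₀.image l).card ≤ c → (∀ x ∈ S₀, ∀ y ∈ S₀, l x = l y → Jn I S₀ x y) →
    S₀.card + R * c ≤ n * (R + 1) →
    ∃ S₁ : Finset W, A ⊆ S₁ ∧ S₁ ⊆ S ∧ Conv I R S₁ ∧ S₁.card ≤ n * (R + 1) := by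
  intro c
  induction c with
  | zero =>
    intro S₀ l hA hSS hc _ hn
    have h0 : S₀ = ∅ := by
      rw [Nat.le_zero, Finset.card_eq_zero, Finset.image_eq_empty] at hc
      exact hc
    refine ⟨S₀, hA, hSS, ?_, by omega⟩
    intro u hu
    rw [h0] at hu
    exact absurd hu (Finset.notMem_empty u)
  | succ c ih =>
    intro S₀ l hA hSS hc hl hn
    by_cases hconv : Conv I R S₀
    · exact ⟨S₀, hA, hSS, hconv, by omega⟩
    unfold Conv at hconv
    push Not at hconv
    obtain ⟨u, hu, v, hv, p, hp, hpR, w, hw, hwS⟩ := hconv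
    have hcard : S₀.card ≤ n * (R + 1) := by omega
    -- the labels are different
    have hluv : l u ≠ l v := by
      intro h
      obtain ⟨q, hq, hqS⟩ := (hl u hu v hv h).path
      have h1 : q.length + 1 ≤ S₀.card := by
        rw [← SimpleGraph.Walk.length_support, ← List.toFinset_card_of_nodup hq.support_nodup]
        apply Finset.card_le_card
        intro z hz
        exact hqS z (List.mem_toFinset.mp hz)
      have h2 : p.length + q.length ≤ 2 * ((n + 1) * (R + 1)) := by nlinarith
      have h3 := P_UNQ.unq hG p q hp hq h2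
      rw [h3] at hw
      exact hwS (hqS w hw)
    have huv : u ≠ v := fun h => hluv (by rw [h])
    obtain ⟨S₁, hS₁⟩ : ∃ S₁, S₁ = S₀ ∪ p.support.toFinset := ⟨_, rfl⟩
    have hpS₁ : ∀ z ∈ p.support, z ∈ S₁ := by
      intro z hz
      rw [hS₁, Finset.mem_union, List.mem_toFinset]
      exact Or.inr hz
    have h01 : S₀ ⊆ S₁ := by rw [hS₁]; exact Finset.subset_union_left
    have hcard1 : S₁.card + 2 ≤ S₀.card + (R + 1) := by
      have h1 := Finset.card_union_add_card_inter S₀ p.support.toFinset
      have h2 : p.support.toFinset.card ≤ R + 1 := by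
        refine (List.toFinset_card_le _).trans ?_
        rw [SimpleGraph.Walk.length_support]
        omega
      have h3 : 2 ≤ (S₀ ∩ p.support.toFinset).card := by
        rw [← Finset.card_pair huv]
        apply Finset.card_le_card
        intro z hz
        rw [Finset.mem_insert, Finset.mem_singleton] at hz
        rw [Finset.mem_inter, List.mem_toFinset]
        rcases hz with rfl | rfl
        · exact ⟨hu, p.start_mem_support⟩
        · exact ⟨hv, p.end_mem_support⟩
      rw [hS₁]
      omega
    -- the new labels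
    obtain ⟨l', hl'⟩ : ∃ l' : W → W, ∀ x, l' x = if x ∈ S₀ then (if l x = l v then l u else l x) else l u :=
      ⟨_, fun _ => rfl⟩
    have himg : S₁.image l' ⊆ (S₀.image l).erase (l v) := by
      intro t ht
      rw [Finset.mem_image] at ht
      obtain ⟨x, -, rfl⟩ := ht
      rw [Finset.mem_erase, hl']
      have h4 : l u ∈ S₀.image l := Finset.mem_image_of_mem _ hu
      split_ifs with h1 h2
      · exact ⟨hluv, h4⟩
      · exact ⟨h2, Finset.mem_image_of_mem _ h1⟩
      · exact ⟨hluv, h4⟩
    have hcard2 : (S₁.image l').card ≤ c := by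
      have h1 := Finset.card_le_card himg
      rw [Finset.card_erase_of_mem (Finset.mem_image_of_mem _ hv)] at h1
      omega
    -- joined to `u`
    have hpu : ∀ z ∈ p.support, Jn I S₁ u z := by
      intro z hz
      refine ⟨p.takeUntil z hz, fun t ht => hpS₁ t ?_⟩
      exact p.support_takeUntil_subset hz ht
    have hju : ∀ x ∈ S₁, l' x = l u → Jn I S₁ u x := by
      intro x hx hlx
      rw [hl'] at hlx
      by_cases h1 : x ∈ S₀
      · rw [if_pos h1] at hlx
        by_cases h2 : l x = l v
        · exact (hpu v p.end_mem_support).trans ((hl v hv x h1 h2.symm).mono h01)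
        · rw [if_neg h2] at hlx
          exact (hl u hu x h1 hlx.symm).mono h01
      · rw [hS₁, Finset.mem_union, List.mem_toFinset] at hx
        exact hpu x (hx.resolve_left h1)
    refine ih S₁ l' (hA.trans h01) ?_ hcard2 ?_ ?_
    · intro z hz
      rw [hS₁, Finset.mem_union, List.mem_toFinset] at hz
      rcases hz with hz | hz
      · exact hSS hz
      · exact hS u (hSS hu) v (hSS hv) p hp hpR z hz
    · intro x hx y hy hxy
      by_cases h1 : l' x = l u
      · exact (hju x hx h1).symm.trans (hju y hy (hxy ▸ h1))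
      · have h2 : l' y ≠ l u := fun h => h1 (hxy.trans h)
        have h3 : ∀ z, l' z ≠ l u → z ∈ S₀ ∧ l' z = l z := by
          intro z hz
          rw [hl'] at hz
          by_cases h4 : z ∈ S₀
          · rw [if_pos h4] at hz
            by_cases h5 : l z = l v
            · rw [if_pos h5] at hz
              exact absurd rfl hz
            · refine ⟨h4, ?_⟩
              rw [hl', if_pos h4, if_neg h5]
          · rw [if_neg h4] at hz
            exact absurd rfl hz
        obtain ⟨h4, h5⟩ := h3 x h1
        obtain ⟨h6, h7⟩ := h3 y h2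
        rw [h5, h7] at hxy
        exact (hl x h4 y h6 hxy).mono h01
    · have h1 : R * (c + 1) = R * c + R := by ring
      omega

end P_CL

theorem t_cl : S_CL := by
  intro W _ I n R A S hG hAS hA hS
  refine P_CL.core hG hS A.card A id (Finset.Subset.refl A) hAS ?_ ?_ ?_
  · rw [Finset.image_id]
  · intro x hx y _ hxy
    have h1 : x = y := hxy
    subst h1
    refine ⟨SimpleGraph.Walk.nil, fun z hz => ?_⟩
    rw [SimpleGraph.Walk.support_nil, List.mem_singleton] at hz
    rw [hz]
    exact hx
  · calc A.card + R * A.card = A.card * (R + 1) := by ring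
      _ ≤ n * (R + 1) := Nat.mul_le_mul_right _ hA

end Pool.Agent.N636.FM
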