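import Mathlib
import Pool.Agent.N636.FM.Defs
import Pool.Agent.N636.FM.Stm

/-!
# Project FM, part CV: convexity is preserved when a neighbour is added
-/

set_option autoImplicit false

namespace Pool.Agent.N636.FM

namespace P_CV

variable {W : Type}

/-- a path that goes back to a neighbour is an edge -/
lemma short {I : SimpleGraph W} {R : ℕ} {u₀ u₁ : W} (hg : HG (R + 1) I) (h : I.Adj u₀ u₁)
    (q : I.Walk u₁ u₀) (hq : q.IsPath) (hl : q.length ≤ R) : ∀ w ∈ q.support, w = u₁ ∨ w = u₀ := by
  cases q with
  | nil => exact absurd h (I.irrefl)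
  | @cons _ x _ h' p' =>
    rw [SimpleGraph.Walk.cons_isPath_iff] at hq
    obtain ⟨hp, hu⟩ := hq
    by_cases hx : x = u₀
    · subst hx
      have h1 := SimpleGraph.Walk.isPath_iff_eq_nil.1 hp
      subst h1
      intro w hw
      rw [SimpleGraph.Walk.support_cons, SimpleGraph.Walk.support_nil] at hw
      simpa using hw
    · exfalso
      have hc : (SimpleGraph.Walk.cons h (SimpleGraph.Walk.cons h' p')).IsCycle := by
        rw [SimpleGraph.Walk.cons_isCycle_iff]
        refine ⟨(SimpleGraph.Walk.cons_isPath_iff h' p').2 ⟨hp, hu⟩, ?_⟩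
        rw [SimpleGraph.Walk.edges_cons, List.mem_cons, not_or]
        constructor
        · intro h2
          rw [Sym2.eq_iff] at h2
          rcases h2 with ⟨h2, h3⟩ | ⟨h2, h3⟩
          · exact h.ne h2
          · exact hx h2.symm
        · intro h2
          exact hu (SimpleGraph.Walk.snd_mem_support_of_mem_edges p' h2)
      have h3 := hg u₀ _ hc
      rw [SimpleGraph.Walk.length_cons] at h3
      omega

lemma key [DecidableEq W] {I : SimpleGraph W} {R : ℕ} {S : Finset W} {u₀ u₁ : W}
    (hg : HG (R + 1) I) (hS : Conv I (R + 1) S) (h0 : u₀ ∈ S) (h : I.Adj u₀ u₁) (h1 : u₁ ∉ S)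
    {v : W} (hv : v ∈ S) (q : I.Walk u₁ v) (hq : q.IsPath) (hl : q.length ≤ R) :
    ∀ w ∈ q.support, w ∈ insert u₁ S := by
  by_cases hu : u₀ ∈ q.support
  · have e := q.take_spec hu
    have a1 := short hg h (q.takeUntil u₀ hu) (hq.takeUntil hu)
      ((q.length_takeUntil_le_length hu).trans hl)
    have a2 := hS u₀ h0 v hv (q.dropUntil u₀ hu) (hq.dropUntil hu)
      (((q.length_dropUntil_le_length hu).trans hl).trans (Nat.le_succ R))
    intro w hw
    rw [← e, SimpleGraph.Walk.mem_support_append_iff] at hw
    rw [Finset.mem_insert]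
    rcases hw with hw | hw
    · rcases a1 w hw with rfl | rfl
      · exact Or.inl rfl
      · exact Or.inr h0
    · exact Or.inr (a2 w hw)
  · exfalso
    apply h1
    have hp : (SimpleGraph.Walk.cons h q).IsPath := (SimpleGraph.Walk.cons_isPath_iff h q).2 ⟨hq, hu⟩
    refine hS u₀ h0 v hv (SimpleGraph.Walk.cons h q) hp ?_ u₁ ?_
    · rw [SimpleGraph.Walk.length_cons]
      omega
    · rw [SimpleGraph.Walk.support_cons]
      exact List.mem_cons_of_mem _ q.start_mem_support

end P_CV

/-- CV: adding a neighbour to a convex set -/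
theorem t_cv : S_CV := by
  intro W _ I R S u₀ u₁ hg hS h0 h h1 u hu v hv p hp hl w hw
  rw [Finset.mem_insert] at hu hv
  rcases hu with rfl | hu
  · rcases hv with rfl | hv
    · have h2 := SimpleGraph.Walk.isPath_iff_eq_nil.1 hp
      subst h2
      rw [SimpleGraph.Walk.support_nil, List.mem_singleton] at hw
      rw [hw]
      exact Finset.mem_insert_self _ _
    · exact P_CV.key hg hS h0 h h1 hv p hp hl w hw
  · rcases hv with rfl | hv
    · refine P_CV.key hg hS h0 h h1 hu p.reverse hp.reverse (by rwa [SimpleGraph.Walk.length_reverse])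
        w ?_
      rw [SimpleGraph.Walk.support_reverse]
      exact List.mem_reverse.2 hw
    · exact Finset.mem_insert_of_mem (hS u hu v hv p hp (hl.trans (Nat.le_succ R)) w hw)

end Pool.Agent.N636.FM
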