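import Mathlib
import Pool.Agent.N636.FM.Defs
import Pool.Agent.N636.FM.Stm

/-!
# Partial isomorphisms preserve first-order formulas
-/

set_option autoImplicit false

namespace Pool.Agent.N636.FM

namespace P_FI

theorem chn_mono {W C : Type} {I : SimpleGraph W} {T J : ℕ} {τ : ℕ → W → ℕ} {χ : W → C}
    (h : Chn I T J τ χ) {u v : W} :
    ∀ {j i : ℕ}, i ≤ j → j ≤ J → τ j u = τ j v → τ i u = τ i v := by
  intro j
  induction j with
  | zero =>
    intro i hi _ he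
    obtain rfl : i = 0 := by omega
    exact he
  | succ j ih =>
    intro i hi hj he
    rcases Nat.lt_or_ge i (j + 1) with h1 | h1
    · exact ih (by omega) (by omega) ((h.2 j (by omega) u v).1 he).1
    · obtain rfl : i = j + 1 := by omega
      exact he

theorem pi_mono {W C : Type} [DecidableEq W] {I : SimpleGraph W} {T J : ℕ} {τ : ℕ → W → ℕ}
    {χ : W → C} (h : Chn I T J τ χ) {j i R : ℕ} (hi : i ≤ j) (hj : j ≤ J) {S : Finset W}
    {π : W → W} (hp : PI I τ j R S π) : PI I τ i R S π :=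
  ⟨hp.inj, hp.adj, fun u hu => chn_mono h hi hj (hp.col u hu), hp.cS, hp.cI⟩

theorem pi_inv {W : Type} [DecidableEq W] {I : SimpleGraph W} {τ : ℕ → W → ℕ} {j R : ℕ}
    {S : Finset W} {π : W → W} (hp : PI I τ j R S π) :
    ∃ ρ : W → W, (∀ u ∈ S, ρ (π u) = u) ∧ PI I τ j R (S.image π) ρ := by
  have h1 : ∀ w : W, ∃ u : W, ∀ v ∈ S, π v = w → u = v := by
    intro w
    by_cases h : ∃ v ∈ S, π v = w
    · obtain ⟨v, hv, rfl⟩ := h
      exact ⟨v, fun v' hv' he => hp.inj hv hv' he.symm⟩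
    · exact ⟨w, fun v hv he => absurd ⟨v, hv, he⟩ h⟩
  choose ρ hρ using h1
  have hρ' : ∀ u ∈ S, ρ (π u) = u := fun u hu => hρ _ u hu rfl
  refine ⟨ρ, hρ', ?_, ?_, ?_, hp.cI, ?_⟩
  · intro a ha b hb hab
    rw [Finset.mem_coe, Finset.mem_image] at ha hb
    obtain ⟨u, hu, rfl⟩ := ha
    obtain ⟨v, hv, rfl⟩ := hb
    rw [hρ' u hu, hρ' v hv] at hab
    rw [hab]
  · intro a ha b hb
    rw [Finset.mem_image] at ha hb
    obtain ⟨u, hu, rfl⟩ := ha
    obtain ⟨v, hv, rfl⟩ := hb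
    rw [hρ' u hu, hρ' v hv]
    exact (hp.adj u hu v hv).symm
  · intro a ha
    rw [Finset.mem_image] at ha
    obtain ⟨u, hu, rfl⟩ := ha
    rw [hρ' u hu]
    exact (hp.col u hu).symm
  · have e : (S.image π).image ρ = S := by
      ext w
      simp only [Finset.mem_image]
      constructor
      · rintro ⟨_, ⟨u, hu, rfl⟩, rfl⟩
        rw [hρ' u hu]
        exact hu
      · intro hw
        exact ⟨π w, ⟨w, hw, rfl⟩, hρ' w hw⟩
    rw [e]
    exact hp.cS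

theorem hg_mono {W : Type} {g g' : ℕ} {I : SimpleGraph W} (h : g ≤ g') (hg : HG g' I) : HG g I :=
  fun v c hc => lt_of_le_of_lt h (hg v c hc)

/-- the truth of `φ` is preserved by the partial isomorphisms -/
def Fwd (m k J₀ R₀ T₀ g₀ : ℕ) (φ : Fm m k) : Prop :=
  ∀ (s N : ℕ) (blk : Fin N → Finset (Fin s)) (U : Fin m → Fin s → Prop) (T J : ℕ)
    (τ : ℕ → (Fin s ⊕ Fin N) → ℕ), Chn (inc blk) T J τ (bc U) → J₀ ≤ J → T₀ ≤ T →
    HG g₀ (inc blk) →
  ∀ (S : Finset (Fin s ⊕ Fin N)) (π : (Fin s ⊕ Fin N) → (Fin s ⊕ Fin N)),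
    S.card ≤ k * (R₀ + 1) → PI (inc blk) τ J₀ R₀ S π →
  ∀ x x' : Fin k → Fin s, (∀ i, Sum.inl (x i) ∈ S ∧ π (Sum.inl (x i)) = Sum.inl (x' i)) →
    Sat (clq blk) U φ x → Sat (clq blk) U φ x'

/-- the truth of `φ` is preserved and reflected by the partial isomorphisms -/
def Bk (m k J₀ R₀ T₀ g₀ : ℕ) (φ : Fm m k) : Prop :=
  ∀ (s N : ℕ) (blk : Fin N → Finset (Fin s)) (U : Fin m → Fin s → Prop) (T J : ℕ)
    (τ : ℕ → (Fin s ⊕ Fin N) → ℕ), Chn (inc blk) T J τ (bc U) → J₀ ≤ J → T₀ ≤ T →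
    HG g₀ (inc blk) →
  ∀ (S : Finset (Fin s ⊕ Fin N)) (π : (Fin s ⊕ Fin N) → (Fin s ⊕ Fin N)),
    S.card ≤ k * (R₀ + 1) → PI (inc blk) τ J₀ R₀ S π →
  ∀ x x' : Fin k → Fin s, (∀ i, Sum.inl (x i) ∈ S ∧ π (Sum.inl (x i)) = Sum.inl (x' i)) →
    (Sat (clq blk) U φ x ↔ Sat (clq blk) U φ x')

theorem bk_of_fwd {m k J₀ R₀ T₀ g₀ : ℕ} {φ : Fm m k} (h : Fwd m k J₀ R₀ T₀ g₀ φ) :
    Bk m k J₀ R₀ T₀ g₀ φ := by
  intro s N blk U T J τ hc hJ hT hg S π hS hp x x' hx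
  refine ⟨h s N blk U T J τ hc hJ hT hg S π hS hp x x' hx, ?_⟩
  obtain ⟨ρ, hρ, hp'⟩ := pi_inv hp
  refine h s N blk U T J τ hc hJ hT hg (S.image π) ρ (Finset.card_image_le.trans hS) hp' x' x ?_
  intro i
  have e := (hx i).2
  refine ⟨?_, ?_⟩
  · rw [← e]
    exact Finset.mem_image_of_mem _ (hx i).1
  · rw [← e]
    exact hρ _ (hx i).1

theorem inc_lr {s N : ℕ} {blk : Fin N → Finset (Fin s)} {v : Fin s} {w : Fin s ⊕ Fin N}
    (h : (inc blk).Adj (Sum.inl v) w) : ∃ e, w = Sum.inr e ∧ v ∈ blk e := by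
  rcases h with ⟨v', e, hx, hy, h⟩ | ⟨v', e, hx, hy, h⟩
  · rw [Sum.inl.injEq] at hx
    subst hx
    exact ⟨e, hy, h⟩
  · exact absurd hx (by simp)

theorem inc_mk {s N : ℕ} {blk : Fin N → Finset (Fin s)} {v : Fin s} {e : Fin N} (h : v ∈ blk e) :
    (inc blk).Adj (Sum.inl v) (Sum.inr e) := Or.inl ⟨v, e, rfl, rfl, h⟩

theorem fwd_eq {m k J₀ R₀ T₀ g₀ : ℕ} (i j : Fin k) : Fwd m k J₀ R₀ T₀ g₀ (Fm.eq i j) := by
  intro s N blk U T J τ hc hJ hT hg S π hS hp x x' hx h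
  have h1 : x i = x j := h
  show x' i = x' j
  have h2 := (hx i).2
  rw [h1, (hx j).2] at h2
  exact (Sum.inl.inj h2).symm

theorem fwd_col {m k J₀ R₀ T₀ g₀ : ℕ} (c : Fin m) (i : Fin k) :
    Fwd m k J₀ R₀ T₀ g₀ (Fm.col c i) := by
  intro s N blk U T J τ hc hJ hT hg S π hS hp x x' hx h
  have h1 : U c (x i) := h
  show U c (x' i)
  have h3 := hp.col _ (hx i).1
  rw [(hx i).2] at h3
  have h4 := chn_mono hc (Nat.zero_le _) hJ h3
  have h5 : (some fun c => U c (x i)) = (some fun c => U c (x' i)) := (hc.1 _ _).1 h4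
  have h6 := congrFun (Option.some.inj h5) c
  exact h6.mp h1

theorem fwd_adj {m k J₀ R₀ T₀ g₀ : ℕ} (hR : 2 ≤ R₀) (i j : Fin k) :
    Fwd m k J₀ R₀ T₀ g₀ (Fm.adj i j) := by
  intro s N blk U T J τ hc hJ hT hg S π hS hp x x' hx h
  obtain ⟨hne, e, hi, hj⟩ : x i ≠ x j ∧ ∃ e, x i ∈ blk e ∧ x j ∈ blk e := h
  show x' i ≠ x' j ∧ ∃ e, x' i ∈ blk e ∧ x' j ∈ blk e
  refine ⟨?_, ?_⟩
  · intro h1
    apply hne
    have h2 : π (Sum.inl (x i)) = π (Sum.inl (x j)) := by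
      rw [(hx i).2, (hx j).2, h1]
    exact Sum.inl.inj (hp.inj (hx i).1 (hx j).1 h2)
  · have he : Sum.inr e ∈ S := by
      let p : (inc blk).Walk (Sum.inl (x i)) (Sum.inl (x j)) :=
        SimpleGraph.Walk.cons (inc_mk hi) (SimpleGraph.Walk.cons (inc_mk hj).symm
          SimpleGraph.Walk.nil)
      refine hp.cS _ (hx i).1 _ (hx j).1 p ?_ ?_ (Sum.inr e) ?_
      · rw [SimpleGraph.Walk.isPath_def]
        simp [p, hne]
      · exact hR
      · simp [p]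
    have h1 := (hp.adj _ (hx i).1 _ he).1 (inc_mk hi)
    rw [(hx i).2] at h1
    obtain ⟨e', he', h2⟩ := inc_lr h1
    have h3 := (hp.adj _ (hx j).1 _ he).1 (inc_mk hj)
    rw [(hx j).2] at h3
    obtain ⟨e'', he'', h4⟩ := inc_lr h3
    rw [he'] at he''
    obtain rfl := Sum.inr.inj he''
    exact ⟨e', h2, h4⟩

theorem bk_ind {m : ℕ} (J R T g : ℕ → ℕ) (hR : ∀ k, 2 ≤ R k) (a : ℕ)
    (hex : ∀ k (ψ : Fm m (k + 1)), ψ.IsFO → ψ.qr + 1 ≤ a →
      Fwd m k (J k) (R k) (T k) (g k) (Fm.ex ψ)) :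
    ∀ (k : ℕ) (φ : Fm m k), φ.IsFO → φ.qr ≤ a → Bk m k (J k) (R k) (T k) (g k) φ := by
  intro k φ
  induction φ with
  | eq i j => exact fun _ _ => bk_of_fwd (fwd_eq i j)
  | adj i j => exact fun _ _ => bk_of_fwd (fwd_adj (hR _) i j)
  | col c i => exact fun _ _ => bk_of_fwd (fwd_col c i)
  | neg φ ih =>
    intro h1 h2 s N blk U T' J' τ hc hJ hT hg S π hS hp x x' hx
    exact not_congr (ih h1 h2 s N blk U T' J' τ hc hJ hT hg S π hS hp x x' hx)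
  | and φ ψ ih1 ih2 =>
    intro h1 h2 s N blk U T' J' τ hc hJ hT hg S π hS hp x x' hx
    exact and_congr
      (ih1 h1.1 (le_trans (le_max_left _ _) h2) s N blk U T' J' τ hc hJ hT hg S π hS hp x x' hx)
      (ih2 h1.2 (le_trans (le_max_right _ _) h2) s N blk U T' J' τ hc hJ hT hg S π hS hp x x' hx)
  | ex ψ ih => exact fun h1 h2 => bk_of_fwd (hex _ ψ h1 h2)
  | md a b h φ ih => exact fun h1 _ => h1.elim

theorem main_ind (hFM : S_FM) (m a : ℕ) : ∃ J R T g : ℕ → ℕ, (∀ k, 2 ≤ R k) ∧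
    ∀ (k : ℕ) (φ : Fm m k), φ.IsFO → φ.qr ≤ a → Bk m k (J k) (R k) (T k) (g k) φ := by
  induction a with
  | zero =>
    refine ⟨fun _ => 0, fun _ => 2, fun _ => 0, fun _ => 0, fun _ => le_rfl, ?_⟩
    exact bk_ind (fun _ => 0) (fun _ => 2) (fun _ => 0) (fun _ => 0) (fun _ => le_rfl) 0
      (fun k ψ _ h => absurd h (by omega))
  | succ a ih =>
    obtain ⟨J1, R1, T1, g1, hR1, h1⟩ := ih
    have h0 := fun k => hFM k (R1 (k + 1)) (J1 (k + 1)) (by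
      have := hR1 (k + 1)
      omega)
    choose J2 R2 T2 g2 hR2 h2 using h0
    have hR : ∀ k, 2 ≤ R2 k := fun k => (hR1 (k + 1)).trans (hR2 k)
    refine ⟨fun k => max (J2 k) (J1 (k + 1)), R2, fun k => max (T2 k) (T1 (k + 1)),
      fun k => max (g2 k) (g1 (k + 1)), hR, ?_⟩
    refine bk_ind (fun k => max (J2 k) (J1 (k + 1))) R2 (fun k => max (T2 k) (T1 (k + 1)))
      (fun k => max (g2 k) (g1 (k + 1))) hR (a + 1) ?_
    rintro k ψ hψ1 hψ2 s N blk U T J τ hc hJ hT hg S π hS hp x x' hx ⟨v, hv⟩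
    have hJ1 : J1 (k + 1) ≤ J := le_trans (le_max_right _ _) hJ
    have hA : (Finset.univ.image fun i => (Sum.inl (x i) : Fin s ⊕ Fin N)) ⊆ S := by
      intro w hw
      rw [Finset.mem_image] at hw
      obtain ⟨i, _, rfl⟩ := hw
      exact (hx i).1
    have hAc : (Finset.univ.image fun i => (Sum.inl (x i) : Fin s ⊕ Fin N)).card ≤ k :=
      Finset.card_image_le.trans (by rw [Finset.card_univ, Fintype.card_fin])
    obtain ⟨S', π', hAS, hy, hA', hp', hS'⟩ := h2 k (Fin s ⊕ Fin N) (inc blk) _ (bc U) T J τ hc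
      (le_trans (le_max_left _ _) hJ) (le_trans (le_max_left _ _) hT)
      (hg_mono (le_max_left _ _) hg) _ S π hA hAc hS (pi_mono hc (le_max_left _ _) hJ hp)
      (Sum.inl v)
    obtain ⟨v', hv'⟩ : ∃ v', π' (Sum.inl v) = Sum.inl v' := by
      have h3 := hp'.col _ hy
      have h4 := chn_mono hc (Nat.zero_le _) hJ1 h3
      have h5 := (hc.1 _ _).1 h4
      rcases h6 : π' (Sum.inl v) with v' | e
      · exact ⟨v', rfl⟩
      · rw [h6] at h5
        have h7 : (some fun c => U c v) = none := h5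
        exact absurd h7 (by simp)
    refine ⟨v', (h1 (k + 1) ψ hψ1 (by omega) s N blk U T J τ hc hJ1
      (le_trans (le_max_right _ _) hT) (hg_mono (le_max_right _ _) hg) S' π' hS' hp'
      (Matrix.vecCons v x) (Matrix.vecCons v' x') ?_).1 hv⟩
    intro i
    refine Fin.cases ?_ (fun i => ?_) i
    · exact ⟨hy, hv'⟩
    · have hi : (Sum.inl (x i) : Fin s ⊕ Fin N) ∈
          (Finset.univ.image fun i => (Sum.inl (x i) : Fin s ⊕ Fin N)) :=
        Finset.mem_image_of_mem _ (Finset.mem_univ i)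
      refine ⟨hAS hi, ?_⟩
      show π' (Sum.inl (x i)) = Sum.inl (x' i)
      rw [hA' _ hi]
      exact (hx i).2

end P_FI

theorem t_fi : S_FM → S_FI := by
  intro hFM m a k
  obtain ⟨J, R, T, g, hR, h⟩ := P_FI.main_ind hFM m a
  refine ⟨J k, R k, T k, g k, hR k, ?_⟩
  intro s N blk U T' J' τ hc hJ hT hg S π hS hp x x' hx φ h1 h2
  exact h k φ h1 h2 s N blk U T' J' τ hc hJ hT hg S π hS hp x x' hx

end Pool.Agent.N636.FM
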