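import Mathlib
import Pool.Agent.N636.FM.Defs
import Pool.Agent.N636.FM.Stm

/-!
# Project FM (helper636), FM (helper771): the full back-and-forth move
-/

set_option autoImplicit false

namespace Pool.Agent.N636.FM

namespace P_FM

variable {W : Type} [DecidableEq W] {I : SimpleGraph W} {τ : ℕ → W → ℕ}

/-- joined by a walk of length at most `n` -/
def Near (I : SimpleGraph W) (n : ℕ) (a b : W) : Prop := ∃ p : I.Walk a b, p.length ≤ n

omit [DecidableEq W] in
theorem Near.symm {n : ℕ} {a b : W} (h : Near I n a b) : Near I n b a := by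
  obtain ⟨p, hp⟩ := h
  exact ⟨p.reverse, by rw [SimpleGraph.Walk.length_reverse]; exact hp⟩

omit [DecidableEq W] in
theorem Near.trans {n m : ℕ} {a b c : W} (h : Near I n a b) (h' : Near I m b c) :
    Near I (n + m) a c := by
  obtain ⟨p, hp⟩ := h
  obtain ⟨q, hq⟩ := h'
  exact ⟨p.append q, by rw [SimpleGraph.Walk.length_append]; omega⟩

omit [DecidableEq W] in
theorem near_refl (n : ℕ) (a : W) : Near I n a a := ⟨SimpleGraph.Walk.nil, Nat.zero_le _⟩

omit [DecidableEq W] in
theorem HG.mono {g g' : ℕ} (h : HG g I) (hg : g' ≤ g) : HG g' I :=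
  fun v c hc => lt_of_le_of_lt hg (h v c hc)

theorem Conv.mono {R R' : ℕ} {S : Finset W} (h : Conv I R S) (hR : R' ≤ R) : Conv I R' S :=
  fun u hu v hv p hp hl => h u hu v hv p hp (hl.trans hR)

omit [DecidableEq W] in
theorem chn_mono {C : Type} {χ : W → C} {T J : ℕ} (h : Chn I T J τ χ) {u v : W} :
    ∀ {j j' : ℕ}, j ≤ j' → j' ≤ J → τ j' u = τ j' v → τ j u = τ j v := by
  intro j j' hjj'
  induction hjj' with
  | refl => exact fun _ h => h
  | step hle ih =>
    intro hJ he
    exact ih (by omega) ((h.2 _ (by omega) u v).1 he).1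

theorem mon {C : Type} {χ : W → C} {T J : ℕ} (hC : Chn I T J τ χ) {j j' R R' : ℕ} {S : Finset W}
    {π : W → W} (hj : j' ≤ j) (hJ : j ≤ J) (hR : R' ≤ R) (h : PI I τ j R S π) :
    PI I τ j' R' S π :=
  ⟨h.inj, h.adj, fun u hu => chn_mono hC hj hJ (h.col u hu), Conv.mono h.cS hR, Conv.mono h.cI hR⟩

/-- pulling back walks -/
theorem pull {j R : ℕ} {S : Finset W} {π : W → W} (h : PI I τ j R S π) {a' b' : W}
    (p : I.Walk a' b') : (∀ w ∈ p.support, w ∈ S.image π) → ∀ a ∈ S, π a = a' →
    ∃ b ∈ S, π b = b' ∧ ∃ q : I.Walk a b, q.length = p.length ∧ q.support.map π = p.support ∧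
      ∀ w ∈ q.support, w ∈ S := by
  induction p with
  | nil =>
    intro _ a ha hpa
    refine ⟨a, ha, hpa, SimpleGraph.Walk.nil, rfl, ?_, ?_⟩
    · simp [hpa]
    · intro w hw
      rw [SimpleGraph.Walk.support_nil, List.mem_singleton] at hw
      rw [hw]
      exact ha
  | cons hadj p ih =>
    intro hsup a ha hpa
    have hc := hsup _ (by
      rw [SimpleGraph.Walk.support_cons]
      exact List.mem_cons_of_mem _ p.start_mem_support)
    obtain ⟨c, hcS, hcc⟩ := Finset.mem_image.1 hc
    obtain ⟨b, hb, hpb, q, hq1, hq2, hq3⟩ := ih (fun w hw => hsup w (by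
      rw [SimpleGraph.Walk.support_cons]
      exact List.mem_cons_of_mem _ hw)) c hcS hcc
    have hac : I.Adj a c := by
      rw [h.adj a ha c hcS, hpa, hcc]
      exact hadj
    refine ⟨b, hb, hpb, SimpleGraph.Walk.cons hac q, ?_, ?_, ?_⟩
    · rw [SimpleGraph.Walk.length_cons, SimpleGraph.Walk.length_cons, hq1]
    · rw [SimpleGraph.Walk.support_cons, SimpleGraph.Walk.support_cons, List.map_cons, hq2, hpa]
    · intro w hw
      rw [SimpleGraph.Walk.support_cons, List.mem_cons] at hw
      rcases hw with rfl | hw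
      · exact ha
      · exact hq3 w hw

/-- restriction to convex subsets -/
theorem res {j R R' : ℕ} {S S₀ : Finset W} {π : W → W} (h : PI I τ j R S π) (h0 : S₀ ⊆ S)
    (hR : R' ≤ R) (hc : Conv I R' S₀) : PI I τ j R' S₀ π := by
  refine ⟨h.inj.mono (by exact_mod_cast h0), fun u hu v hv => h.adj u (h0 hu) v (h0 hv),
    fun u hu => h.col u (h0 hu), hc, ?_⟩
  intro u' hu' v' hv' p hp hl w hw
  obtain ⟨u, hu, rfl⟩ := Finset.mem_image.1 hu'
  obtain ⟨v, hv, rfl⟩ := Finset.mem_image.1 hv'
  have hsup := h.cI (π u) (Finset.mem_image_of_mem π (h0 hu)) (π v)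
    (Finset.mem_image_of_mem π (h0 hv)) p hp (hl.trans hR)
  obtain ⟨b, hb, hpb, q, hq1, hq2, hq3⟩ := pull h p hsup u (h0 hu) rfl
  have hbv : b = v := h.inj (Finset.mem_coe.2 hb) (Finset.mem_coe.2 (h0 hv)) hpb
  subst hbv
  have hqp : q.IsPath := by
    rw [SimpleGraph.Walk.isPath_def]
    refine List.Nodup.of_map π ?_
    rw [hq2]
    exact (SimpleGraph.Walk.isPath_def p).1 hp
  have h1 := hc u hu b hv q hqp (by rw [hq1]; exact hl)
  rw [← hq2, List.mem_map] at hw
  obtain ⟨x, hx, rfl⟩ := hw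
  exact Finset.mem_image_of_mem π (h1 x hx)

/-- short walks between points of the image are reflected -/
theorem near_pull {j R n : ℕ} {S : Finset W} {π : W → W} (h : PI I τ j R S π) (hn : n ≤ R)
    {a b : W} (ha : a ∈ S) (hb : b ∈ S) (hab : Near I n (π a) (π b)) : Near I n a b := by
  obtain ⟨p, hp⟩ := hab
  have hl : p.bypass.length ≤ n := (SimpleGraph.Walk.length_bypass_le_length p).trans hp
  have hsup := h.cI (π a) (Finset.mem_image_of_mem π ha) (π b) (Finset.mem_image_of_mem π hb)
    p.bypass p.bypass_isPath (hl.trans hn)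
  obtain ⟨c, hc, hpc, q, hq1, -, -⟩ := pull h p.bypass hsup a ha rfl
  have hcb : c = b := h.inj (Finset.mem_coe.2 hc) (Finset.mem_coe.2 hb) hpc
  subst hcb
  exact ⟨q, by rw [hq1]; exact hl⟩

/-- the inverse map -/
theorem inv {j R : ℕ} {S : Finset W} {π : W → W} (h : PI I τ j R S π) :
    ∃ ρ : W → W, PI I τ j R (S.image π) ρ ∧ (∀ x ∈ S, ρ (π x) = x) ∧
      (S.image π).image ρ = S := by
  rcases S.eq_empty_or_nonempty with hS | ⟨x0, hx0⟩
  · refine ⟨id, ?_, ?_, ?_⟩
    · rw [hS]
      refine ⟨?_, ?_, ?_, ?_, ?_⟩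
      · simp
      · simp
      · simp
      · intro u hu; simp at hu
      · intro u hu; simp at hu
    · rw [hS]; simp
    · rw [hS]; simp
  · haveI : Nonempty W := ⟨x0⟩
    have hl : ∀ x ∈ S, Function.invFunOn π (S : Set W) (π x) = x := fun x hx =>
      h.inj.leftInvOn_invFunOn (Finset.mem_coe.2 hx)
    have him : (S.image π).image (Function.invFunOn π (S : Set W)) = S := by
      ext w
      simp only [Finset.mem_image]
      constructor
      · rintro ⟨_, ⟨x, hx, rfl⟩, rfl⟩
        rw [hl x hx]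
        exact hx
      · intro hw
        exact ⟨π w, ⟨w, hw, rfl⟩, hl w hw⟩
    refine ⟨Function.invFunOn π (S : Set W), ⟨?_, ?_, ?_, h.cI, ?_⟩, hl, him⟩
    · intro a ha b hb hab
      obtain ⟨x, hx, rfl⟩ := Finset.mem_image.1 (Finset.mem_coe.1 ha)
      obtain ⟨y, hy, rfl⟩ := Finset.mem_image.1 (Finset.mem_coe.1 hb)
      rw [hl x hx, hl y hy] at hab
      rw [hab]
    · intro a ha b hb
      obtain ⟨x, hx, rfl⟩ := Finset.mem_image.1 ha
      obtain ⟨y, hy, rfl⟩ := Finset.mem_image.1 hb
      rw [hl x hx, hl y hy]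
      exact (h.adj x hx y hy).symm
    · intro a ha
      obtain ⟨x, hx, rfl⟩ := Finset.mem_image.1 ha
      rw [hl x hx]
      exact (h.col x hx).symm
    · rw [him]
      exact h.cS

/-- successive local moves -/
theorem transfer [Fintype W] (hLM : S_LM) {C : Type} {χ : W → C} {T J : ℕ}
    (hC : Chn I T J τ χ) (r : ℕ) (Q : Finset W) :
    ∀ (j R : ℕ) (S : Finset W) (π : W → W), 1 ≤ R → j + Q.card * r ≤ J →
      HG (R + Q.card * r) I → PI I τ (j + Q.card * r) (R + Q.card * r) S π →
      S.card + Q.card * r ≤ T → (∀ z ∈ Q, ∃ u ∈ S, Near I r u z) →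
      ∃ (S' : Finset W) (π' : W → W), S ⊆ S' ∧ Q ⊆ S' ∧ (∀ x ∈ S, π' x = π x) ∧
        PI I τ j R S' π' ∧ S'.card ≤ S.card + Q.card * r := by
  induction Q using Finset.induction_on with
  | empty =>
    intro j R S π _ _ _ hPI _ _
    refine ⟨S, π, subset_rfl, by simp, fun _ _ => rfl, ?_, by simp⟩
    simpa using hPI
  | insert z Q hz ih =>
    intro j R S π hR hJ hH hPI hT hnear
    rw [Finset.card_insert_of_notMem hz] at hJ hH hPI hT ⊢
    obtain ⟨u, hu, p, hp⟩ := hnear z (Finset.mem_insert_self z Q)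
    have e1 : j + (Q.card + 1) * r = (j + Q.card * r) + r := by ring
    have e2 : R + (Q.card + 1) * r = (R + Q.card * r) + r := by ring
    rw [e1] at hJ hPI
    rw [e2] at hH hPI
    obtain ⟨S1, π1, h1, h2, h3, h4, h5⟩ := hLM W I C χ T J τ (j + Q.card * r) (R + Q.card * r) r
      S π u z hC hJ (by omega) hH hPI (by
        have : r ≤ (Q.card + 1) * r := Nat.le_mul_of_pos_left r (by omega)
        omega) hu p hp
    have e3 : (Q.card + 1) * r = Q.card * r + r := by ring
    obtain ⟨S2, π2, g1, g2, g3, g4, g5⟩ := ih j R S1 π1 hR (by omega)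
      (HG.mono hH (by omega)) h4 (by omega) (fun w hw => by
        obtain ⟨u', hu', hn⟩ := hnear w (Finset.mem_insert_of_mem hw)
        exact ⟨u', h1 hu', hn⟩)
    refine ⟨S2, π2, h1.trans g1, ?_, fun x hx => (g3 x (h1 hx)).trans (h3 x hx), g4, by omega⟩
    intro w hw
    rcases Finset.mem_insert.1 hw with rfl | hw
    · exact g1 h2
    · exact g2 hw

/-- the conclusion from a large partial isomorphism -/
theorem conclude (hCL : S_CL) {k r j : ℕ} (hg : HG (2 * ((k + 2) * (r + 1))) I)
    {A S S' : Finset W} {π π' : W → W} {y : W} (hAS : A ⊆ S) (hA : A.card ≤ k) (hSS : S ⊆ S')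
    (hy : y ∈ S') (hag : ∀ x ∈ S, π' x = π x) (h : PI I τ j r S' π') :
    ∃ (S' : Finset W) (π' : W → W), A ⊆ S' ∧ y ∈ S' ∧ (∀ x ∈ A, π' x = π x) ∧
      PI I τ j r S' π' ∧ S'.card ≤ (k + 1) * (r + 1) := by
  obtain ⟨S₀, h1, h2, h3, h4⟩ := hCL W I (k + 1) r (insert y A) S' hg
    (Finset.insert_subset hy (hAS.trans hSS)) ((Finset.card_insert_le y A).trans (by omega)) h.cS
  exact ⟨S₀, π', (Finset.subset_insert y A).trans h1, h1 (Finset.mem_insert_self y A),
    fun x hx => hag x (hAS hx), res h h2 le_rfl h3, h4⟩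

/-- adding a remote point -/
theorem remote {r j : ℕ} (hr : 1 ≤ r) {S : Finset W} {π : W → W} (h : PI I τ j r S π) {y y' : W}
    (hy : ∀ u ∈ S, ¬ Near I r u y) (hy' : ∀ u ∈ S.image π, ¬ Near I r u y')
    (hcol : τ j y = τ j y') :
    PI I τ j r (insert y S) (Function.update π y y') := by
  have hyS : y ∉ S := fun h1 => hy y h1 (near_refl r y)
  have hyS' : y' ∉ S.image π := fun h1 => hy' y' h1 (near_refl r y')
  have hup : ∀ x ∈ S, Function.update π y y' x = π x := fun x hx =>
    Function.update_of_ne (by rintro rfl; exact hyS hx) _ _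
  have him : (insert y S).image (Function.update π y y') = insert y' (S.image π) := by
    rw [Finset.image_insert, Function.update_self]
    congr 1
    exact Finset.image_congr fun x hx => hup x (Finset.mem_coe.1 hx)
  have hconv : ∀ (z : W) (Q : Finset W), Conv I r Q → (∀ u ∈ Q, ¬ Near I r u z) →
      Conv I r (insert z Q) := by
    intro z Q hQ hz u hu v hv p hp hl w hw
    rcases Finset.mem_insert.1 hu with hu1 | hu1
    · rcases Finset.mem_insert.1 hv with hv1 | hv1
      · subst hu1
        subst hv1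
        have h1 := SimpleGraph.Walk.isPath_iff_eq_nil.1 hp
        rw [h1, SimpleGraph.Walk.support_nil, List.mem_singleton] at hw
        rw [hw]
        exact Finset.mem_insert_self _ _
      · subst hu1
        exact absurd (Near.symm ⟨p, hl⟩) (hz v hv1)
    · rcases Finset.mem_insert.1 hv with hv1 | hv1
      · subst hv1
        exact absurd ⟨p, hl⟩ (hz u hu1)
      · exact Finset.mem_insert_of_mem (hQ u hu1 v hv1 p hp hl w hw)
  have hadj : ∀ {a b : W}, I.Adj a b → Near I r a b := fun {a b} hab =>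
    ⟨hab.toWalk, by simpa using hr⟩
  refine ⟨?_, ?_, ?_, hconv y S h.cS hy, ?_⟩
  · intro a ha b hb hab
    rcases Finset.mem_insert.1 (Finset.mem_coe.1 ha) with rfl | ha'
    · rcases Finset.mem_insert.1 (Finset.mem_coe.1 hb) with rfl | hb'
      · rfl
      · rw [Function.update_self, hup b hb'] at hab
        exact absurd (hab ▸ Finset.mem_image_of_mem π hb') hyS'
    · rcases Finset.mem_insert.1 (Finset.mem_coe.1 hb) with rfl | hb'
      · rw [Function.update_self, hup a ha'] at hab
        exact absurd (hab ▸ Finset.mem_image_of_mem π ha') hyS'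
      · rw [hup a ha', hup b hb'] at hab
        exact h.inj (Finset.mem_coe.2 ha') (Finset.mem_coe.2 hb') hab
  · intro a ha b hb
    rcases Finset.mem_insert.1 ha with rfl | ha'
    · rcases Finset.mem_insert.1 hb with rfl | hb'
      · exact ⟨fun h1 => absurd h1 (I.irrefl), fun h1 => absurd h1 (I.irrefl)⟩
      · rw [Function.update_self, hup b hb']
        exact ⟨fun h1 => absurd (hadj h1).symm (hy b hb'),
          fun h1 => absurd (hadj h1).symm (hy' _ (Finset.mem_image_of_mem π hb'))⟩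
    · rcases Finset.mem_insert.1 hb with rfl | hb'
      · rw [Function.update_self, hup a ha']
        exact ⟨fun h1 => absurd (hadj h1) (hy a ha'),
          fun h1 => absurd (hadj h1) (hy' _ (Finset.mem_image_of_mem π ha'))⟩
      · rw [hup a ha', hup b hb']
        exact h.adj a ha' b hb'
  · intro a ha
    rcases Finset.mem_insert.1 ha with rfl | ha'
    · rw [Function.update_self]
      exact hcol
    · rw [hup a ha']
      exact h.col a ha'
  · rw [him]
    exact hconv y' _ h.cI hy'

end P_FM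

open P_FM in
/-- **FM** -/
theorem t_fm : S_LM → S_CL → S_FM := by
  classical
  intro hLM hCL k r j hr
  obtain ⟨κ, hκ⟩ : ∃ κ : ℕ, κ = k * (r + 1) := ⟨_, rfl⟩
  refine ⟨j + 2 * r + κ * r, 3 * r + κ * r, k * (3 * r + κ * r + 1) + κ * r + 2 * r,
    3 * r + κ * r + 2 * ((k + 2) * (r + 1)), by omega, ?_⟩
  intro W _ _ I C χ T J τ hC hJ hT hg A S π hAS hA hScard hPI y
  have hgk : HG (2 * ((k + 2) * (r + 1))) I := HG.mono hg (by omega)
  have hgk1 : HG (2 * ((k + 1) * (r + 1))) I := HG.mono hgk (by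
    have : (k + 1) * (r + 1) ≤ (k + 2) * (r + 1) := Nat.mul_le_mul_right _ (by omega)
    omega)
  obtain ⟨S₁, hA1, h1S, hc1, hcard1⟩ := hCL W I k r A S hgk1 hAS hA
    (Conv.mono hPI.cS (by omega))
  rw [← hκ] at hcard1
  -- the near case
  by_cases hnear : ∃ u ∈ S, Near I r u y
  · obtain ⟨u, hu, p, hp⟩ := hnear
    obtain ⟨S', π', g1, g2, g3, g4, -⟩ := hLM W I C χ T J τ j r r S π u y hC (by omega) hr
      (HG.mono hg (by omega)) (mon hC (by omega) hJ (by omega) hPI) (by omega) hu p hp
    exact conclude hCL hgk hAS hA g1 g2 g3 g4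
  have hfar : ∀ u ∈ S₁, ¬ Near I r u y := fun u hu h => hnear ⟨u, h1S hu, h⟩
  have hP1 : PI I τ j r S₁ π :=
    res (mon hC (by omega) hJ (le_refl _) hPI) h1S (by omega) hc1
  -- a remote point of the same colour
  by_cases hex : ∃ y', τ j y = τ j y' ∧ ∀ u ∈ S₁.image π, ¬ Near I r u y'
  · obtain ⟨y', hy1, hy2⟩ := hex
    refine ⟨insert y S₁, Function.update π y y', hA1.trans (Finset.subset_insert _ _),
      Finset.mem_insert_self _ _, ?_, remote hr hP1 hfar hy2 hy1, ?_⟩
    · intro x hx
      refine Function.update_of_ne ?_ _ _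
      rintro rfl
      exact hfar x (hA1 hx) (near_refl r x)
    · refine (Finset.card_insert_le _ _).trans ?_
      have e : (k + 1) * (r + 1) = κ + (r + 1) := by rw [hκ]; ring
      omega
  -- otherwise all the points of this colour are near
  have hall : ∀ z, τ j y = τ j z → ∃ u ∈ S₁.image π, Near I r u z := by
    intro z hz
    by_contra hcon
    push Not at hcon
    exact hex ⟨z, hz, hcon⟩
  obtain ⟨Sep, hSep⟩ : ∃ Sep : Finset W → Prop, Sep = fun P => (∀ z ∈ P, τ j y = τ j z) ∧
    ∀ z ∈ P, ∀ z' ∈ P, Near I (2 * r) z z' → z = z' := ⟨_, rfl⟩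
  obtain ⟨P', hP', hmax⟩ := Finset.exists_max_image (Finset.univ.filter Sep) Finset.card
    ⟨∅, by rw [Finset.mem_filter, hSep]; simp⟩
  rw [Finset.mem_filter] at hP'
  have hP'2 := hP'.2
  rw [hSep] at hP'2
  obtain ⟨hPc, hPs⟩ := hP'2
  choose! c hcS hcN using fun z (hz : z ∈ P') => hall z (hPc z hz)
  have hcardP : P'.card ≤ κ := by
    have h1 : P'.card ≤ (S₁.image π).card := by
      refine Finset.card_le_card_of_injOn c (fun z hz => hcS z hz) ?_
      intro z hz z' hz' he
      have h2 := hcN z hz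
      have h3 := hcN z' hz'
      rw [he] at h2
      have h4 := h2.symm.trans h3
      rw [← two_mul] at h4
      exact hPs z hz z' hz' h4
    exact h1.trans (Finset.card_image_le.trans hcard1)
  have hmul : P'.card * r ≤ κ * r := Nat.mul_le_mul_right r hcardP
  -- transfer to the side of `S`
  obtain ⟨ρ, hρ, hρπ, hρim⟩ := inv hPI
  have hcardim : (S.image π).card ≤ S.card := Finset.card_image_le
  obtain ⟨S2, ρ2, g1, g2, g3, g4, g5⟩ := transfer hLM hC r P' (j + 2 * r) (3 * r)
    (S.image π) ρ (by omega) (by omega) (HG.mono hg (by omega))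
    (mon hC (by omega) hJ (by omega) hρ) (by omega)
    (fun z hz => ⟨c z, Finset.image_subset_image h1S (hcS z hz), hcN z hz⟩)
  have hρ2 : ∀ x ∈ S, ρ2 (π x) = x := fun x hx => by
    rw [g3 _ (Finset.mem_image_of_mem π hx), hρπ x hx]
  -- the points
  by_cases hA' : ∃ z ∈ P', Near I (2 * r) (ρ2 z) y
  · obtain ⟨z, hz, p, hp⟩ := hA'
    obtain ⟨π2, f1, f2, f3⟩ := inv g4
    have e : 3 * r = r + 2 * r := by ring
    rw [e] at f1
    obtain ⟨S', π', k1, k2, k3, k4, -⟩ := hLM W I C χ T J τ j r (2 * r) (S2.image ρ2) π2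
      (ρ2 z) y hC (by omega) hr (HG.mono hg (by omega)) f1 (by
        have : (S2.image ρ2).card ≤ S2.card := Finset.card_image_le
        omega) (Finset.mem_image_of_mem ρ2 (g2 hz)) p hp
    have hSS : S ⊆ S2.image ρ2 := fun x hx =>
      Finset.mem_image.2 ⟨π x, g1 (Finset.mem_image_of_mem π hx), hρ2 x hx⟩
    refine conclude hCL hgk hAS hA (hSS.trans k1) k2 (fun x hx => ?_) k4
    rw [k3 x (hSS hx)]
    have h1 := f2 (π x) (g1 (Finset.mem_image_of_mem π hx))
    rw [hρ2 x hx] at h1
    exact h1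
  · exfalso
    push Not at hA'
    have hcolP : ∀ z ∈ P', τ j y = τ j (ρ2 z) := fun z hz => by
      rw [hPc z hz]
      exact chn_mono hC (by omega : j ≤ j + 2 * r) (by omega) (g4.col z (g2 hz))
    have hynot : y ∉ P'.image ρ2 := by
      intro h1
      obtain ⟨z, hz, hzy⟩ := Finset.mem_image.1 h1
      exact hA' z hz (hzy ▸ near_refl _ _)
    have hsep : Sep (insert y (P'.image ρ2)) := by
      rw [hSep]
      refine ⟨?_, ?_⟩
      · intro z hz
        rcases Finset.mem_insert.1 hz with rfl | hz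
        · rfl
        · obtain ⟨x, hx, rfl⟩ := Finset.mem_image.1 hz
          exact hcolP x hx
      · intro z hz z' hz' hn
        rcases Finset.mem_insert.1 hz with rfl | hz
        · rcases Finset.mem_insert.1 hz' with rfl | hz'
          · rfl
          · obtain ⟨x, hx, rfl⟩ := Finset.mem_image.1 hz'
            exact absurd hn.symm (hA' x hx)
        · obtain ⟨x, hx, rfl⟩ := Finset.mem_image.1 hz
          rcases Finset.mem_insert.1 hz' with rfl | hz'
          · exact absurd hn (hA' x hx)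
          · obtain ⟨x', hx', rfl⟩ := Finset.mem_image.1 hz'
            rw [hPs x hx x' hx' (near_pull g4 (by omega) (g2 hx) (g2 hx') hn)]
    have h1 := hmax _ (Finset.mem_filter.2 ⟨Finset.mem_univ _, hsep⟩)
    rw [Finset.card_insert_of_notMem hynot, Finset.card_image_of_injOn] at h1
    · omega
    · exact g4.inj.mono (by exact_mod_cast g2)

end Pool.Agent.N636.FM
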