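import Mathlib
import Pool.Agent.N636.FM.Defs
import Pool.Agent.N636.FM.Stm

/-!
# Project FM (helper636), part LM (helper572): the local move
-/

set_option autoImplicit false

namespace Pool.Agent.N636.FM

namespace P_LM

theorem HG_anti {W : Type} {I : SimpleGraph W} {g g' : ℕ} (h : HG g I) (hg : g' ≤ g) : HG g' I :=
  fun v c hc => lt_of_le_of_lt hg (h v c hc)

theorem Conv_anti {W : Type} {I : SimpleGraph W} {R R' : ℕ} {S : Finset W} (h : Conv I R S)
    (hR : R' ≤ R) : Conv I R' S :=
  fun u hu v hv p hp hl w hw => h u hu v hv p hp (hl.trans hR) w hw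

theorem PI_step {W C : Type} [DecidableEq W] {I : SimpleGraph W} {χ : W → C} {T J : ℕ}
    {τ : ℕ → W → ℕ} (hC : Chn I T J τ χ) {j R : ℕ} (hj : j + 1 ≤ J) {S : Finset W} {π : W → W}
    (h : PI I τ (j + 1) (R + 1) S π) : PI I τ j R S π where
  inj := h.inj
  adj := h.adj
  col u hu := ((hC.2 j (by omega) u (π u)).1 (h.col u hu)).1
  cS := Conv_anti h.cS (Nat.le_succ R)
  cI := Conv_anti h.cI (Nat.le_succ R)

theorem PI_mono {W C : Type} [DecidableEq W] {I : SimpleGraph W} {χ : W → C} {T J : ℕ}
    {τ : ℕ → W → ℕ} (hC : Chn I T J τ χ) {j R : ℕ} {S : Finset W} {π : W → W} (r : ℕ)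
    (hj : j + r ≤ J) (h : PI I τ (j + r) (R + r) S π) : PI I τ j R S π := by
  induction r with
  | zero => exact h
  | succ r ih => exact ih (by omega) (PI_step hC (by omega) h)

end P_LM

open P_LM

theorem t_lm : S_ST → S_LM := by
  intro hST W _ _ I C χ T J τ j R r
  induction r with
  | zero =>
    intro S π u y hC hJ hR hHG hPI hcard hu p hp
    have h0 : p.length = 0 := by omega
    have huy : u = y := SimpleGraph.Walk.eq_of_length_eq_zero h0
    exact ⟨S, π, Finset.Subset.refl S, huy ▸ hu, fun _ _ => rfl, hPI, by omega⟩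
  | succ r ih =>
    intro S π u y hC hJ hR hHG hPI hcard hu p hp
    cases p with
    | nil =>
      exact ⟨S, π, Finset.Subset.refl S, hu, fun _ _ => rfl, PI_mono hC (r + 1) hJ hPI, by omega⟩
    | @cons _ u₁ _ hadj q =>
      rw [SimpleGraph.Walk.length_cons] at hp
      by_cases h1 : u₁ ∈ S
      · obtain ⟨S', π', a1, a2, a3, a4, a5⟩ := ih S π u₁ y hC (by omega) hR
          (HG_anti hHG (by omega)) (PI_step hC (by omega) hPI) (by omega) h1 q (by omega)
        exact ⟨S', π', a1, a2, a3, a4, by omega⟩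
      · obtain ⟨π₁, b1, b2⟩ := hST W I C χ T J τ (j + r) (R + r) S π u u₁ hC (by omega) (by omega)
          hHG hPI (by omega) hu hadj h1
        have hc : (insert u₁ S).card = S.card + 1 := Finset.card_insert_of_notMem h1
        obtain ⟨S', π', a1, a2, a3, a4, a5⟩ := ih (insert u₁ S) π₁ u₁ y hC (by omega) hR
          (HG_anti hHG (by omega)) b2 (by omega) (Finset.mem_insert_self _ _) q (by omega)
        refine ⟨S', π', (Finset.subset_insert _ _).trans a1, a2, fun x hx => ?_, a4, by omega⟩
        rw [a3 x (Finset.mem_insert_of_mem hx), b1 x hx]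

end Pool.Agent.N636.FM
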