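import Mathlib
import Pool.Agent.N636.FM.Defs
import Pool.Agent.N636.FM.Stm

/-!
# One step of the local move (helper499 for helper636)
-/

set_option autoImplicit false

namespace Pool.Agent.N636.FM

namespace P_ST

theorem uniq {W : Type} (I : SimpleGraph W) (R : ℕ) (S : Finset W) (u₀ u₁ v : W) (hR : 1 ≤ R)
    (hC : Conv I (R + 1) S) (h0 : u₀ ∈ S) (h1 : u₁ ∉ S) (hv : v ∈ S) (h01 : I.Adj u₀ u₁)
    (h1v : I.Adj u₁ v) : v = u₀ := by
  by_contra hne
  apply h1
  refine hC u₀ h0 v hv (SimpleGraph.Walk.cons h01 (SimpleGraph.Walk.cons h1v SimpleGraph.Walk.nil))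
    ?_ ?_ u₁ ?_
  · simp only [SimpleGraph.Walk.cons_isPath_iff, SimpleGraph.Walk.isPath_iff_nil,
      SimpleGraph.Walk.nil_nil, SimpleGraph.Walk.support_cons, SimpleGraph.Walk.support_nil,
      List.mem_cons, List.not_mem_nil, or_false, true_and, not_or]
    exact ⟨h1v.ne, h01.ne, fun h => hne h.symm⟩
  · simp only [SimpleGraph.Walk.length_cons, SimpleGraph.Walk.length_nil]
    omega
  · simp only [SimpleGraph.Walk.support_cons, SimpleGraph.Walk.support_nil, List.mem_cons]
    tauto

end P_ST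

open P_ST in
theorem t_st : S_CV → S_ST := by
  classical
  intro hCV W _ _ I C χ T J τ j R S π u₀ u₁ hCh hj hR hG hPI hS h0 h01 h1
  have hT := hCh.2 j (by omega)
  obtain ⟨u', hu'1, hu'2, hu'3⟩ : ∃ u', I.Adj (π u₀) u' ∧ τ j u' = τ j u₁ ∧ u' ∉ S.image π := by
    by_contra hcon
    push Not at hcon
    have hA : {y : W | I.Adj (π u₀) y ∧ τ j y = τ j u₁} ⊆
        ((S.filter fun y => I.Adj u₀ y ∧ τ j y = τ j u₁).image π : Finset W) := by
      rintro y ⟨hy1, hy2⟩
      obtain ⟨x, hx, rfl⟩ := Finset.mem_image.1 (hcon y hy1 hy2)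
      refine Finset.mem_coe.2 (Finset.mem_image.2 ⟨x, Finset.mem_filter.2 ⟨hx, ?_, ?_⟩, rfl⟩)
      · exact (hPI.adj u₀ h0 x hx).2 hy1
      · rw [← hy2]
        exact ((hT x (π x)).1 (hPI.col x hx)).1
    have hA1 : cnt I (τ j) (π u₀) (τ j u₁) ≤
        (S.filter fun y => I.Adj u₀ y ∧ τ j y = τ j u₁).card := by
      unfold cnt
      refine (Set.ncard_le_ncard hA (Set.toFinite _)).trans ?_
      rw [Set.ncard_coe_finset]
      exact Finset.card_image_le
    have hB : (insert u₁ (S.filter fun y => I.Adj u₀ y ∧ τ j y = τ j u₁) : Finset W) ≤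
        ({y : W | I.Adj u₀ y ∧ τ j y = τ j u₁} : Set W) := by
      intro y hy
      rcases Finset.mem_insert.1 (Finset.mem_coe.1 hy) with rfl | hy
      · exact ⟨h01, rfl⟩
      · exact (Finset.mem_filter.1 hy).2
    have hB1 : (S.filter fun y => I.Adj u₀ y ∧ τ j y = τ j u₁).card + 1 ≤
        cnt I (τ j) u₀ (τ j u₁) := by
      unfold cnt
      refine le_trans (le_of_eq ?_) (Set.ncard_le_ncard hB (Set.toFinite _))
      rw [Set.ncard_coe_finset, Finset.card_insert_of_notMem]
      intro h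
      exact h1 (Finset.mem_filter.1 h).1
    have hC1 := ((hT u₀ (π u₀)).1 (hPI.col u₀ h0)).2 (τ j u₁)
    have hD : (S.filter fun y => I.Adj u₀ y ∧ τ j y = τ j u₁).card ≤ S.card :=
      Finset.card_filter_le _ _
    have hE : min T (cnt I (τ j) (π u₀) (τ j u₁)) ≤ cnt I (τ j) (π u₀) (τ j u₁) := min_le_right _ _
    have hF : min T (cnt I (τ j) u₀ (τ j u₁)) = T ∨ min T (cnt I (τ j) u₀ (τ j u₁)) =
        cnt I (τ j) u₀ (τ j u₁) := min_choice _ _
    omega
  have hπ0 : π u₀ ∈ S.image π := Finset.mem_image_of_mem π h0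
  have hup : ∀ x ∈ S, Function.update π u₁ u' x = π x := by
    intro x hx
    rw [Function.update_of_ne]
    rintro rfl
    exact h1 hx
  have hup1 : Function.update π u₁ u' u₁ = u' := Function.update_self ..
  -- adjacency to the new points
  have hadj : ∀ v ∈ S, (I.Adj u₁ v ↔ I.Adj u' (π v)) := by
    intro v hv
    constructor
    · intro h
      have h2 := uniq I R S u₀ u₁ v hR hPI.cS h0 h1 hv h01 h
      rw [h2]
      exact hu'1.symm
    · intro h
      have h2 := uniq I R (S.image π) (π u₀) u' (π v) hR hPI.cI hπ0 hu'3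
        (Finset.mem_image_of_mem π hv) hu'1 h
      have h3 := hPI.inj hv h0 h2
      rw [h3]
      exact h01.symm
  have himg : (insert u₁ S).image (Function.update π u₁ u') = insert u' (S.image π) := by
    rw [Finset.image_insert, hup1]
    congr 1
    exact Finset.image_congr fun x hx => hup x hx
  refine ⟨Function.update π u₁ u', hup, ?_, ?_, ?_, ?_, ?_⟩
  · intro x hx y hy hxy
    rw [Finset.coe_insert] at hx hy
    rcases hx with rfl | hx
    · rcases hy with rfl | hy
      · rfl
      · rw [hup1, hup y hy] at hxy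
        exact absurd (Finset.mem_image.2 ⟨y, hy, hxy.symm⟩) hu'3
    · rcases hy with rfl | hy
      · rw [hup1, hup x hx] at hxy
        exact absurd (Finset.mem_image.2 ⟨x, hx, hxy⟩) hu'3
      · rw [hup x hx, hup y hy] at hxy
        exact hPI.inj hx hy hxy
  · intro x hx y hy
    rcases Finset.mem_insert.1 hx with hx1 | hx1
    · rcases Finset.mem_insert.1 hy with hy1 | hy1
      · rw [hx1, hy1, hup1]
        exact iff_of_false (I.irrefl) (I.irrefl)
      · rw [hx1, hup1, hup y hy1]
        exact hadj y hy1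
    · rcases Finset.mem_insert.1 hy with hy1 | hy1
      · rw [hy1, hup1, hup x hx1, SimpleGraph.adj_comm, I.adj_comm (π x)]
        exact hadj x hx1
      · rw [hup x hx1, hup y hy1]
        exact hPI.adj x hx1 y hy1
  · intro x hx
    rcases Finset.mem_insert.1 hx with hx1 | hx1
    · rw [hx1, hup1]
      exact hu'2.symm
    · rw [hup x hx1]
      exact ((hT x (π x)).1 (hPI.col x hx1)).1
  · exact hCV W I R S u₀ u₁ hG hPI.cS h0 h01 h1
  · rw [himg]
    exact hCV W I R (S.image π) (π u₀) u' hG hPI.cI hπ0 hu'1 hu'3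

end Pool.Agent.N636.FM
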