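import Mathlib
import Pool.Agent.N636.FM.Defs
import Pool.Agent.N636.FM.Stm
import Pool.Agent.N636.FM.P_UNQ

/-!
START: pairs of the same type are matched by a partial isomorphism.
-/

set_option autoImplicit false

namespace Pool.Agent.N636.FM

namespace P_START

open SimpleGraph

/-! ### Colours -/

theorem down {W C : Type} {I : SimpleGraph W} {T J : ℕ} {τ : ℕ → W → ℕ} {χ : W → C}
    (h : Chn I T J τ χ) {u v : W} (huv : τ J u = τ J v) :
    ∀ d i : ℕ, i + d = J → τ i u = τ i v := by
  intro d
  induction d with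
  | zero => intro i hi; rw [show i = J by omega]; exact huv
  | succ d ih =>
    intro i hi
    exact ((h.2 i (by omega) u v).1 (ih (i + 1) (by omega))).1

theorem down' {W C : Type} {I : SimpleGraph W} {T J : ℕ} {τ : ℕ → W → ℕ} {χ : W → C}
    (h : Chn I T J τ χ) {u v : W} (huv : τ J u = τ J v) {i : ℕ} (hi : i ≤ J) :
    τ i u = τ i v := down h huv (J - i) i (by omega)

theorem min_sum {ι : Type} (T : ℕ) (s : Finset ι) (f g : ι → ℕ)
    (h : ∀ k ∈ s, min T (f k) = min T (g k)) :
    min T (∑ k ∈ s, f k) = min T (∑ k ∈ s, g k) := by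
  classical
  induction s using Finset.induction_on with
  | empty => simp
  | insert a s ha ih =>
    rw [Finset.sum_insert ha, Finset.sum_insert ha]
    have h1 := h a (Finset.mem_insert_self _ _)
    have h2 := ih (fun k hk => h k (Finset.mem_insert_of_mem hk))
    omega

theorem cnt_blk {s N : ℕ} (blk : Fin N → Finset (Fin s)) (f : (Fin s ⊕ Fin N) → ℕ) (e : Fin N)
    (c : ℕ) : cnt (inc blk) f (Sum.inr e) c = ((blk e).filter fun v => f (Sum.inl v) = c).card := by
  classical
  unfold cnt
  have : {y : Fin s ⊕ Fin N | (inc blk).Adj (Sum.inr e) y ∧ f y = c} =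
      Sum.inl '' (((blk e).filter fun v => f (Sum.inl v) = c : Finset (Fin s)) : Set (Fin s)) := by
    ext y
    constructor
    · rintro ⟨h1, h2⟩
      rcases h1 with ⟨v, e', hx, hy, h⟩ | ⟨v, e', hx, hy, h⟩
      · cases hx
      · cases hx
        subst hy
        exact ⟨v, by simp [h, h2], rfl⟩
    · rintro ⟨v, hv, rfl⟩
      have hv' := Finset.mem_filter.1 (Finset.mem_coe.1 hv)
      exact ⟨Or.inr ⟨v, e, rfl, rfl, hv'.1⟩, hv'.2⟩
  rw [this, Set.ncard_image_of_injective _ Sum.inl_injective, Set.ncard_coe_finset]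

theorem blk_col {m T J K s N : ℕ} {blk : Fin N → Finset (Fin s)}
    {U : Fin m → Fin s → Prop} {τ : ℕ → (Fin s ⊕ Fin N) → ℕ} (hK : ∀ j u, τ j u < K)
    (h : Chn (inc blk) T J τ (bc U)) {e e' : Fin N}
    (he : ∀ k : Fin K,
      min T ((blk e).filter fun v => (⟨τ J (Sum.inl v), hK _ _⟩ : Fin K) = k).card =
      min T ((blk e').filter fun v => (⟨τ J (Sum.inl v), hK _ _⟩ : Fin K) = k).card) :
    ∀ i : ℕ, i ≤ J → τ i (Sum.inr e) = τ i (Sum.inr e') := by
  classical
  intro i
  induction i with
  | zero => intro _; exact (h.1 _ _).2 rfl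
  | succ i ih =>
    intro hi
    refine (h.2 i (by omega) _ _).2 ⟨ih (by omega), fun c => ?_⟩
    rw [cnt_blk, cnt_blk]
    have key : ∀ e : Fin N, ((blk e).filter fun v => τ i (Sum.inl v) = c).card =
        ∑ k ∈ Finset.univ.filter
          (fun k : Fin K => ∃ v : Fin s, (⟨τ J (Sum.inl v), hK _ _⟩ : Fin K) = k ∧
            τ i (Sum.inl v) = c),
          ((blk e).filter fun v => (⟨τ J (Sum.inl v), hK _ _⟩ : Fin K) = k).card := by
      intro e
      rw [Finset.card_eq_sum_card_fiberwise
        (f := fun v : Fin s => (⟨τ J (Sum.inl v), hK _ _⟩ : Fin K))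
        (t := Finset.univ.filter
          (fun k : Fin K => ∃ v : Fin s, (⟨τ J (Sum.inl v), hK _ _⟩ : Fin K) = k ∧
            τ i (Sum.inl v) = c))]
      · refine Finset.sum_congr rfl fun k hk => ?_
        congr 1
        ext v
        simp only [Finset.mem_filter]
        constructor
        · rintro ⟨⟨h1, _⟩, h3⟩
          exact ⟨h1, h3⟩
        · rintro ⟨h1, h3⟩
          refine ⟨⟨h1, ?_⟩, h3⟩
          obtain ⟨v', hv', hv''⟩ := (Finset.mem_filter.1 hk).2
          rw [← hv'']
          refine down' h ?_ (by omega)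
          rw [← hv'] at h3
          exact congrArg Fin.val h3
      · intro v hv
        have hv' := Finset.mem_filter.1 (Finset.mem_coe.1 hv)
        exact Finset.mem_coe.2 (Finset.mem_filter.2 ⟨Finset.mem_univ _, v, rfl, hv'.2⟩)
    rw [key e, key e']
    exact min_sum T _ _ _ fun k _ => he k

/-- equal `kap` colours imply equal colours of level `J` -/
theorem kap_col {m T J K s N : ℕ} {blk : Fin N → Finset (Fin s)}
    {U : Fin m → Fin s → Prop} {τ : ℕ → (Fin s ⊕ Fin N) → ℕ} (hK : ∀ j u, τ j u < K)
    (h : Chn (inc blk) T J τ (bc U)) {x y : Fin s ⊕ Fin N}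
    (hxy : kap T (fun v => (⟨τ J (Sum.inl v), hK _ _⟩ : Fin K)) blk x =
      kap T (fun v => (⟨τ J (Sum.inl v), hK _ _⟩ : Fin K)) blk y) :
    τ J x = τ J y := by
  rcases x with v | e <;> rcases y with v' | e'
  · have := Sum.inl_injective hxy
    exact congrArg Fin.val this
  · cases hxy
  · cases hxy
  · have := Sum.inr_injective hxy
    refine blk_col hK h (fun k => ?_) J le_rfl
    have h2 := congrFun this k
    exact congrArg Fin.val h2

/-! ### Types -/

theorem ptype_cases {W Γ : Type} {I : SimpleGraph W} {κ : W → Γ} {R : ℕ} {a b a' b' : W}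
    (h : ptype I κ R a b = ptype I κ R a' b') :
    ((¬ ∃ p : I.Walk a b, p.IsPath ∧ p.length ≤ R) ∧
      ¬ ∃ p : I.Walk a' b', p.IsPath ∧ p.length ≤ R) ∨
    ∃ (p : I.Walk a b) (p' : I.Walk a' b'), p.IsPath ∧ p'.IsPath ∧ p.length ≤ R ∧
      p'.length = p.length ∧ ∀ i ≤ p.length, κ (p.getVert i) = κ (p'.getVert i) := by
  classical
  unfold ptype at h
  by_cases h1 : ∃ p : I.Walk a b, p.IsPath ∧ p.length ≤ R
  · by_cases h2 : ∃ p : I.Walk a' b', p.IsPath ∧ p.length ≤ R
    · right
      rw [dif_pos h1, dif_pos h2] at h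
      have h' := Option.some_injective _ h
      refine ⟨h1.choose, h2.choose, h1.choose_spec.1, h2.choose_spec.1, h1.choose_spec.2, ?_, ?_⟩
      · have l1 := h1.choose_spec.2
        have l2 := h2.choose_spec.2
        rcases lt_trichotomy h1.choose.length h2.choose.length with hl | hl | hl
        · have := congrFun h' ⟨h2.choose.length, by omega⟩
          simp only at this
          rw [if_neg (by omega), if_pos le_rfl] at this
          cases this
        · exact hl.symm
        · have := congrFun h' ⟨h1.choose.length, by omega⟩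
          simp only at this
          rw [if_pos le_rfl, if_neg (by omega)] at this
          cases this
      · intro i hi
        have l1 := h1.choose_spec.2
        have l2 := h2.choose_spec.2
        have := congrFun h' ⟨i, by omega⟩
        simp only at this
        rw [if_pos hi] at this
        split_ifs at this with h3
        exact Option.some_injective _ this
    · rw [dif_pos h1, dif_neg h2] at h
      cases h
  · by_cases h2 : ∃ p : I.Walk a' b', p.IsPath ∧ p.length ≤ R
    · rw [dif_neg h1, dif_pos h2] at h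
      cases h
    · exact Or.inl ⟨h1, h2⟩

/-! ### Subpaths -/

theorem sub_path {W : Type} {I : SimpleGraph W} {a b : W} (p : I.Walk a b) (hp : p.IsPath)
    {i i' : ℕ} (h : i ≤ i') (h' : i' ≤ p.length) :
    ∃ q : I.Walk (p.getVert i) (p.getVert i'), q.IsPath ∧ q.length = i' - i ∧
      ∀ w ∈ q.support, w ∈ p.support := by
  have e : (p.take i').getVert i = p.getVert i := by
    rw [Walk.take_getVert, min_eq_right h]
  refine ⟨((p.take i').drop i).copy e rfl, ?_, ?_, ?_⟩
  · rw [Walk.isPath_copy]
    exact (hp.take i').drop i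
  · rw [Walk.length_copy, Walk.drop_length, Walk.take_length, min_eq_left h']
  · intro w hw
    rw [Walk.support_copy] at hw
    rw [Walk.mem_support_iff_exists_getVert] at hw ⊢
    obtain ⟨n, hn, hn'⟩ := hw
    rw [Walk.drop_getVert, Walk.take_getVert] at hn
    rw [Walk.drop_length, Walk.take_length, min_eq_left h'] at hn'
    exact ⟨_, hn, by omega⟩

theorem conv_path {W : Type} [DecidableEq W] {I : SimpleGraph W} {R : ℕ} (hg : HG (2 * R + 2) I)
    {a b : W} (p : I.Walk a b) (hp : p.IsPath) (hl : p.length ≤ R) :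
    Conv I R p.support.toFinset := by
  intro u hu v hv r hr hrl w hw
  rw [List.mem_toFinset] at hu hv ⊢
  obtain ⟨i, hi, hi'⟩ := Walk.mem_support_iff_exists_getVert.1 hu
  obtain ⟨j, hj, hj'⟩ := Walk.mem_support_iff_exists_getVert.1 hv
  rcases le_total i j with h | h
  · obtain ⟨q, hq, hql, hqs⟩ := sub_path p hp h hj'
    subst hi hj
    have := P_UNQ.unq hg r q hr hq (by omega)
    rw [this] at hw
    exact hqs w hw
  · obtain ⟨q, hq, hql, hqs⟩ := sub_path p hp h hi'
    subst hi hj
    have := P_UNQ.unq hg r q.reverse hr hq.reverse (by rw [Walk.length_reverse]; omega)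
    rw [this, Walk.support_reverse, List.mem_reverse] at hw
    exact hqs w hw

theorem adj_path {W : Type} {I : SimpleGraph W} {R : ℕ} (hg : HG (2 * R + 2) I)
    {a b : W} (p : I.Walk a b) (hp : p.IsPath) (hl : p.length ≤ R) {i j : ℕ}
    (hi : i ≤ p.length) (hj : j ≤ p.length) :
    I.Adj (p.getVert i) (p.getVert j) ↔ (j = i + 1 ∨ i = j + 1) := by
  have key : ∀ i j : ℕ, i ≤ j → j ≤ p.length → I.Adj (p.getVert i) (p.getVert j) → j = i + 1 := by
    intro i j hij hj hadj
    obtain ⟨q, hq, hql, -⟩ := sub_path p hp hij hj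
    have := P_UNQ.unq hg hadj.toWalk q (by
      simp [Walk.isPath_def, hadj.ne]) hq (by simp; omega)
    have h2 := congrArg Walk.length this
    rw [hql] at h2
    simp at h2
    omega
  constructor
  · intro h
    rcases le_total i j with hij | hij
    · exact Or.inl (key i j hij hj h)
    · exact Or.inr (key j i hij hi h.symm)
  · rintro (h | h)
    · subst h
      exact p.adj_getVert_succ (by omega)
    · subst h
      exact (p.adj_getVert_succ (by omega)).symm

/-! ### The two cases -/

theorem case_path {W : Type} [DecidableEq W] {I : SimpleGraph W} {R J : ℕ}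
    {τ : ℕ → W → ℕ} (hg : HG (2 * R + 2) I)
    {a b a' b' : W} (p : I.Walk a b) (p' : I.Walk a' b') (hp : p.IsPath) (hp' : p'.IsPath)
    (hl : p.length ≤ R) (hll : p'.length = p.length)
    (hc : ∀ i ≤ p.length, τ J (p.getVert i) = τ J (p'.getVert i)) :
    ∃ (S : Finset W) (π : W → W), PI I τ J R S π ∧ S.card ≤ 2 * (R + 1) ∧ a ∈ S ∧ b ∈ S ∧
      π a = a' ∧ π b = b' := by
  classical
  let π : W → W := fun w =>
    if h : ∃ i, i ≤ p.length ∧ p.getVert i = w then p'.getVert h.choose else w
  have hπ : ∀ i ≤ p.length, π (p.getVert i) = p'.getVert i := by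
    intro i hi
    have h : ∃ j, j ≤ p.length ∧ p.getVert j = p.getVert i := ⟨i, hi, rfl⟩
    have h1 : π (p.getVert i) = p'.getVert h.choose := dif_pos h
    rw [h1]
    congr 1
    exact hp.getVert_injOn h.choose_spec.1 hi h.choose_spec.2
  have hmem : ∀ u ∈ p.support.toFinset, ∃ i ≤ p.length, p.getVert i = u := by
    intro u hu
    rw [List.mem_toFinset] at hu
    obtain ⟨i, hi, hi'⟩ := Walk.mem_support_iff_exists_getVert.1 hu
    exact ⟨i, hi', hi⟩
  have himg : p.support.toFinset.image π = p'.support.toFinset := by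
    ext w
    rw [Finset.mem_image, List.mem_toFinset, Walk.mem_support_iff_exists_getVert]
    constructor
    · rintro ⟨u, hu, rfl⟩
      obtain ⟨i, hi, rfl⟩ := hmem u hu
      exact ⟨i, (hπ i hi).symm, by omega⟩
    · rintro ⟨i, rfl, hi⟩
      exact ⟨p.getVert i, by rw [List.mem_toFinset]; exact p.getVert_mem_support i,
        hπ i (by omega)⟩
  refine ⟨p.support.toFinset, π, ⟨?_, ?_, ?_, ?_, ?_⟩, ?_, ?_, ?_, ?_, ?_⟩
  · intro u hu v hv huv
    obtain ⟨i, hi, rfl⟩ := hmem u (Finset.mem_coe.1 hu)
    obtain ⟨j, hj, rfl⟩ := hmem v (Finset.mem_coe.1 hv)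
    rw [hπ i hi, hπ j hj] at huv
    have : i = j := hp'.getVert_injOn (show i ≤ p'.length by omega) (show j ≤ p'.length by omega) huv
    rw [this]
  · intro u hu v hv
    obtain ⟨i, hi, rfl⟩ := hmem u hu
    obtain ⟨j, hj, rfl⟩ := hmem v hv
    rw [hπ i hi, hπ j hj, adj_path hg p hp hl hi hj,
      adj_path hg p' hp' (by omega) (by omega) (by omega)]
  · intro u hu
    obtain ⟨i, hi, rfl⟩ := hmem u hu
    rw [hπ i hi]
    exact hc i hi
  · exact conv_path hg p hp hl
  · rw [himg]
    exact conv_path hg p' hp' (by omega)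
  · refine (List.toFinset_card_le _).trans ?_
    rw [Walk.length_support]
    omega
  · rw [List.mem_toFinset]; exact p.start_mem_support
  · rw [List.mem_toFinset]; exact p.end_mem_support
  · have := hπ 0 (by omega)
    rwa [Walk.getVert_zero, Walk.getVert_zero] at this
  · have := hπ p.length le_rfl
    rw [Walk.getVert_length, ← hll, Walk.getVert_length] at this
    exact this

theorem case_none {W : Type} [DecidableEq W] {I : SimpleGraph W} {R J : ℕ}
    {τ : ℕ → W → ℕ} (hR : 1 ≤ R) {a b a' b' : W}
    (h1 : ¬ ∃ p : I.Walk a b, p.IsPath ∧ p.length ≤ R)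
    (h2 : ¬ ∃ p : I.Walk a' b', p.IsPath ∧ p.length ≤ R)
    (ha : τ J a = τ J a') (hb : τ J b = τ J b') :
    ∃ (S : Finset W) (π : W → W), PI I τ J R S π ∧ S.card ≤ 2 * (R + 1) ∧ a ∈ S ∧ b ∈ S ∧
      π a = a' ∧ π b = b' := by
  classical
  have hne : ∀ {a b : W}, (¬ ∃ p : I.Walk a b, p.IsPath ∧ p.length ≤ R) → a ≠ b := by
    intro a b h hab
    subst hab
    exact h ⟨Walk.nil, Walk.IsPath.nil, by simp⟩
  have hna : ∀ {a b : W}, (¬ ∃ p : I.Walk a b, p.IsPath ∧ p.length ≤ R) → ¬ I.Adj a b := by
    intro a b h hab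
    exact h ⟨hab.toWalk, by simp [Walk.isPath_def, hab.ne], by simpa using hR⟩
  have hconv : ∀ {a b : W}, (¬ ∃ p : I.Walk a b, p.IsPath ∧ p.length ≤ R) →
      Conv I R {a, b} := by
    intro a b h u hu v hv p hp hpl w hw
    rw [Finset.mem_insert, Finset.mem_singleton] at hu hv
    have hnil : u = v → w ∈ ({a, b} : Finset W) := by
      intro huv
      subst huv
      rw [Walk.isPath_iff_eq_nil] at hp
      rw [hp, Walk.support_nil, List.mem_singleton] at hw
      rw [hw, Finset.mem_insert, Finset.mem_singleton]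
      exact hu
    rcases hu with rfl | rfl <;> rcases hv with rfl | rfl
    · exact hnil rfl
    · exact absurd ⟨p, hp, hpl⟩ h
    · exact absurd ⟨p.reverse, hp.reverse, by rw [Walk.length_reverse]; exact hpl⟩ h
    · exact hnil rfl
  have hab := hne h1
  have hab' := hne h2
  have pa : (fun w : W => if w = a then a' else b') a = a' := if_pos rfl
  have pb : (fun w : W => if w = a then a' else b') b = b' := if_neg hab.symm
  generalize (fun w : W => if w = a then a' else b') = π at pa pb
  have himg : ({a, b} : Finset W).image π = {a', b'} := by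
    rw [Finset.image_insert, Finset.image_singleton, pa, pb]
  have hm : ∀ u ∈ ({a, b} : Finset W), u = a ∨ u = b := by
    intro u hu
    rwa [Finset.mem_insert, Finset.mem_singleton] at hu
  refine ⟨{a, b}, π, ⟨?_, ?_, ?_, hconv h1, ?_⟩, ?_, by simp, by simp, pa, pb⟩
  · intro u hu v hv huv
    rcases hm u (Finset.mem_coe.1 hu) with rfl | rfl <;>
      rcases hm v (Finset.mem_coe.1 hv) with rfl | rfl
    · rfl
    · rw [pa, pb] at huv; exact absurd huv hab'
    · rw [pa, pb] at huv; exact absurd huv.symm hab'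
    · rfl
  · intro u hu v hv
    rcases hm u hu with rfl | rfl <;> rcases hm v hv with rfl | rfl
    · exact iff_of_false (I.irrefl) (I.irrefl)
    · rw [pa, pb]
      exact iff_of_false (hna h1) (hna h2)
    · rw [pa, pb]
      exact iff_of_false (fun h => hna h1 h.symm) (fun h => hna h2 h.symm)
    · exact iff_of_false (I.irrefl) (I.irrefl)
  · intro u hu
    rcases hm u hu with rfl | rfl
    · rw [pa]; exact ha
    · rw [pb]; exact hb
  · rw [himg]; exact hconv h2
  · refine (Finset.card_insert_le _ _).trans ?_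
    rw [Finset.card_singleton]
    omega

end P_START

theorem t_start : S_START := by
  intro m T J K R s N blk U τ hK hR hch hg a b a' b' ha hb hpt
  rcases P_START.ptype_cases hpt with ⟨h1, h2⟩ | ⟨p, p', hp, hp', hl, hll, hc⟩
  · exact P_START.case_none hR h1 h2 ha hb
  · exact P_START.case_path hg p p' hp hp' hl hll
      (fun i hi => P_START.kap_col hK hch (hc i hi))

end Pool.Agent.N636.FM
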