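import Mathlib
import Pool.Agent.N636.FM.Defs
import Pool.Agent.N636.FM.Stm

/-!
# FO+MOD transductions versus FO transductions: the threshold colour refinement
-/

set_option autoImplicit false

namespace Pool.Agent.N636.FM

namespace P_TAU

theorem step (K T : ℕ) : ∃ K' : ℕ, ∀ (W : Type) [Fintype W] (I : SimpleGraph W) (f : W → ℕ),
    (∀ u, f u < K) → ∃ f' : W → ℕ, (∀ u, f' u < K') ∧
      ∀ u v, f' u = f' v ↔ (f u = f v ∧ ∀ c, min T (cnt I f u c) = min T (cnt I f v c)) := by
  refine ⟨Fintype.card (Fin K × (Fin K → Fin (T + 1))), fun W _ I f hf => ?_⟩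
  let F : W → Fin K × (Fin K → Fin (T + 1)) := fun u =>
    (⟨f u, hf u⟩, fun c => ⟨min T (cnt I f u c), Nat.lt_succ_of_le (min_le_left _ _)⟩)
  have hbig : ∀ u c, K ≤ c → cnt I f u c = 0 := by
    intro u c hc
    unfold cnt
    have : {y : W | I.Adj u y ∧ f y = c} = ∅ := by
      ext y
      constructor
      · rintro ⟨_, h⟩
        have := hf y
        omega
      · intro h
        exact absurd h (Set.notMem_empty y)
    rw [this, Set.ncard_empty]
  refine ⟨fun u => (Fintype.equivFin _ (F u) : Fin _), fun u => Fin.is_lt _, fun u v => ?_⟩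
  constructor
  · intro h
    have h1 : F u = F v := (Fintype.equivFin _).injective (Fin.ext h)
    have h2 := congrArg Prod.fst h1
    have h3 := congrArg Prod.snd h1
    refine ⟨congrArg Fin.val h2, fun c => ?_⟩
    by_cases hc : c < K
    · exact congrArg Fin.val (congrFun h3 ⟨c, hc⟩)
    · rw [hbig u c (by omega), hbig v c (by omega)]
  · rintro ⟨h1, h2⟩
    have h3 : F u = F v := by
      refine Prod.ext (Fin.ext h1) (funext fun c => Fin.ext (h2 c))
    show ((Fintype.equivFin _ (F u) : Fin _) : ℕ) = (Fintype.equivFin _ (F v) : Fin _)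
    rw [h3]

end P_TAU

theorem t_tau : S_TAU := by
  intro C _ T J
  induction J with
  | zero =>
    refine ⟨Fintype.card C, fun W _ I χ => ⟨fun _ u => (Fintype.equivFin C (χ u) : Fin _),
      fun _ u => Fin.is_lt _, fun u v => ?_, fun j hj => absurd hj (Nat.not_lt_zero j)⟩⟩
    constructor
    · intro h
      exact (Fintype.equivFin C).injective (Fin.ext h)
    · intro h
      show ((Fintype.equivFin C (χ u) : Fin _) : ℕ) = (Fintype.equivFin C (χ v) : Fin _)
      rw [h]
  | succ J ih =>
    obtain ⟨K, hK⟩ := ih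
    obtain ⟨K', hK'⟩ := P_TAU.step K T
    refine ⟨K + K', fun W _ I χ => ?_⟩
    obtain ⟨τ, hτ, h0, hs⟩ := hK W I χ
    obtain ⟨f', hf', hff⟩ := hK' W I (τ J) (hτ J)
    refine ⟨fun j => if j ≤ J then τ j else f', ?_, ?_, ?_⟩
    · intro j u
      by_cases hj : j ≤ J
      · simp only [if_pos hj]
        have := hτ j u
        omega
      · simp only [if_neg hj]
        have := hf' u
        omega
    · intro u v
      simp only [if_pos (Nat.zero_le J)]
      exact h0 u v
    · intro j hj u v
      by_cases hj' : j < J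
      · simp only [if_pos (show j + 1 ≤ J from hj'), if_pos (le_of_lt hj')]
        exact hs j hj' u v
      · have hjJ : j = J := by omega
        subst hjJ
        simp only [if_neg (show ¬ j + 1 ≤ j by omega), if_pos le_rfl]
        exact hff u v

end Pool.Agent.N636.FM
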