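import Mathlib
import Pool.Agent.N636.FM.Defs
import Pool.Agent.N636.FM.Stm

/-!
# Part MODX: parity of the common neighbours in block graphs (helper954)
-/

set_option autoImplicit false

namespace Pool.Agent.N636.FM

namespace P_MODX

variable {s N : ℕ} {blk : Fin N → Finset (Fin s)}

lemma adj1 {u : Fin s} {e : Fin N} (h : u ∈ blk e) : (inc blk).Adj (Sum.inl u) (Sum.inr e) :=
  Or.inl ⟨u, e, rfl, rfl, h⟩

lemma adj2 {u : Fin s} {e : Fin N} (h : u ∈ blk e) : (inc blk).Adj (Sum.inr e) (Sum.inl u) :=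
  Or.inr ⟨u, e, rfl, rfl, h⟩

/-- two blocks share at most one vertex -/
lemma no4 (hg : HG 6 (inc blk)) {u v : Fin s} {e e' : Fin N} (huv : u ≠ v)
    (h1 : u ∈ blk e) (h2 : v ∈ blk e) (h3 : u ∈ blk e') (h4 : v ∈ blk e') : e = e' := by
  by_contra hee
  let c : (inc blk).Walk (Sum.inl u) (Sum.inl u) :=
    .cons (adj1 h1) (.cons (adj2 h2) (.cons (adj1 h4) (.cons (adj2 h3) .nil)))
  have hc : c.IsCycle := by
    rw [SimpleGraph.Walk.cons_isCycle_iff]
    constructor
    · simp only [SimpleGraph.Walk.cons_isPath_iff, SimpleGraph.Walk.IsPath.nil,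
        SimpleGraph.Walk.support_cons, SimpleGraph.Walk.support_nil, List.mem_cons, List.mem_nil_iff,
        Sum.inl.injEq, Sum.inr.injEq, reduceCtorEq, or_false, false_or, true_and]
      tauto
    · simp only [SimpleGraph.Walk.edges_cons, SimpleGraph.Walk.edges_nil, List.mem_cons, List.mem_nil_iff,
        Sym2.eq_iff, Sum.inl.injEq, Sum.inr.injEq, reduceCtorEq, or_false, false_or, and_false,
        and_true, true_and]
      tauto
  have := hg _ c hc
  simp [c] at this

/-- no triangles of blocks -/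
lemma no6 (hg : HG 6 (inc blk)) {u v z : Fin s} {e e1 e2 : Fin N} (huv : u ≠ v) (huz : u ≠ z)
    (hvz : v ≠ z) (h1 : u ∈ blk e) (h2 : v ∈ blk e) (h3 : u ∈ blk e1) (h4 : z ∈ blk e1)
    (h5 : v ∈ blk e2) (h6 : z ∈ blk e2) (ha : e ≠ e1) (hb : e ≠ e2) (hc' : e1 ≠ e2) : False := by
  let c : (inc blk).Walk (Sum.inl u) (Sum.inl u) :=
    .cons (adj1 h1) (.cons (adj2 h2) (.cons (adj1 h5) (.cons (adj2 h6) (.cons (adj1 h4) (.cons (adj2 h3) .nil)))))
  have hc : c.IsCycle := by
    rw [SimpleGraph.Walk.cons_isCycle_iff]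
    constructor
    · simp only [SimpleGraph.Walk.cons_isPath_iff, SimpleGraph.Walk.IsPath.nil,
        SimpleGraph.Walk.support_cons, SimpleGraph.Walk.support_nil, List.mem_cons, List.mem_nil_iff,
        Sum.inl.injEq, Sum.inr.injEq, reduceCtorEq, or_false, false_or, true_and]
      tauto
    · simp only [SimpleGraph.Walk.edges_cons, SimpleGraph.Walk.edges_nil, List.mem_cons, List.mem_nil_iff,
        Sym2.eq_iff, Sum.inl.injEq, Sum.inr.injEq, reduceCtorEq, or_false, false_or, and_false,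
        and_true, true_and]
      tauto
  have := hg _ c hc
  simp [c] at this

end P_MODX

open P_MODX

theorem t_modx : S_MODX := by
  intro s N t blk x y w b ht hcard hg hxy hw e
  obtain ⟨hx, hy, hne⟩ := hxy e
  obtain ⟨hwe, hwx, hwy⟩ := hw e
  have hsub : ∀ e', blkb blk w b e' ⊆ blk e' := by
    intro e'
    unfold blkb
    split_ifs
    · exact Finset.erase_subset _ _
    · exact Finset.Subset.refl _
  have hxB : x e ∈ blkb blk w b e := by
    unfold blkb
    split_ifs
    · exact Finset.mem_erase.2 ⟨Ne.symm hwx, hx⟩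
    · exact hx
  have hyB : y e ∈ blkb blk w b e := by
    unfold blkb
    split_ifs
    · exact Finset.mem_erase.2 ⟨Ne.symm hwy, hy⟩
    · exact hy
  have hset : {z | (clq (blkb blk w b)).Adj (x e) z ∧ (clq (blkb blk w b)).Adj (y e) z} =
      ((((blkb blk w b e).erase (x e)).erase (y e) : Finset (Fin s)) : Set (Fin s)) := by
    ext z
    simp only [Set.mem_ofPred_eq, Finset.coe_erase, Set.mem_sdiff, Finset.mem_coe,
      Set.mem_singleton_iff]
    constructor
    · rintro ⟨⟨h1, e1, h2, h3⟩, ⟨h4, e2, h5, h6⟩⟩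
      refine ⟨⟨?_, Ne.symm h1⟩, Ne.symm h4⟩
      by_cases ha : e = e1
      · rw [ha]; exact h3
      by_cases hb : e = e2
      · rw [hb]; exact h6
      exfalso
      by_cases hc : e1 = e2
      · subst hc
        exact ha (no4 hg hne hx hy (hsub _ h2) (hsub _ h5))
      · exact no6 hg hne h1 h4 hx hy (hsub _ h2) (hsub _ h3) (hsub _ h5) (hsub _ h6) ha hb hc
    · rintro ⟨⟨h1, h2⟩, h3⟩
      exact ⟨⟨Ne.symm h2, e, hxB, h1⟩, ⟨Ne.symm h3, e, hyB, h1⟩⟩
  have hc1 : (((blkb blk w b e).erase (x e)).erase (y e)).card = (blkb blk w b e).card - 2 := by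
    rw [Finset.card_erase_of_mem (Finset.mem_erase.2 ⟨Ne.symm hne, hyB⟩), Finset.card_erase_of_mem hxB]
    omega
  have hadj : (clq (blkb blk w b)).Adj (x e) (y e) := ⟨hne, e, hxB, hyB⟩
  show ((clq (blkb blk w b)).Adj (x e) (y e) ∧
    Odd {z | (clq (blkb blk w b)).Adj (x e) z ∧ (clq (blkb blk w b)).Adj (y e) z}.ncard) ↔ _
  rw [hset, Set.ncard_coe_finset, hc1]
  have ht' : t % 2 = 0 := Nat.even_iff.1 ht
  by_cases hb : b e = true
  · have hcb : (blkb blk w b e).card = t - 1 := by
      unfold blkb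
      rw [if_pos hb, Finset.card_erase_of_mem hwe, hcard]
    have h3 : 3 ≤ t := by
      have h4 : ({x e, y e, w e} : Finset (Fin s)) ⊆ blk e := by
        intro z hz
        simp only [Finset.mem_insert, Finset.mem_singleton] at hz
        rcases hz with rfl | rfl | rfl
        · exact hx
        · exact hy
        · exact hwe
      have h5 := Finset.card_le_card h4
      rw [hcard, Finset.card_eq_three.2 ⟨x e, y e, w e, hne, Ne.symm hwx, Ne.symm hwy, rfl⟩] at h5
      exact h5
    rw [hcb]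
    refine iff_of_true ⟨hadj, ?_⟩ hb
    rw [Nat.odd_iff]; omega
  · have hcb : (blkb blk w b e).card = t := by
      unfold blkb
      rw [if_neg hb, hcard]
    rw [hcb]
    refine iff_of_false ?_ hb
    rintro ⟨-, h⟩
    rw [Nat.odd_iff] at h; omega

end Pool.Agent.N636.FM
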