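import Mathlib
import Pool.Agent.N636.FM.Defs
import Pool.Agent.N636.FM.Stm

set_option autoImplicit false

namespace Pool.Agent.N636.FM

namespace P_STAGE

lemma HG_mono {W : Type} {I : SimpleGraph W} {g g' : ℕ} (h : HG g I) (hg : g' ≤ g) : HG g' I :=
  fun v c hc => lt_of_le_of_lt hg (h v c hc)

lemma HG_le {W : Type} {I I' : SimpleGraph W} {g : ℕ} (h : HG g I) (hI : I' ≤ I) : HG g I' := by
  intro v c hc
  have h1 := h v (c.mapLe hI) ((SimpleGraph.Walk.isCycle_mapLe hI).2 hc)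
  simpa using h1

lemma inc_blkb_le {s N : ℕ} (blk : Fin N → Finset (Fin s)) (w : Fin N → Fin s)
    (b : Fin N → Bool) : inc (blkb blk w b) ≤ inc blk := by
  have hsub : ∀ e v, v ∈ blkb blk w b e → v ∈ blk e := by
    intro e v hv
    unfold blkb at hv
    split at hv
    · exact Finset.mem_of_mem_erase hv
    · exact hv
  intro u v h
  rcases h with ⟨z, e, hx, hy, h⟩ | ⟨z, e, hx, hy, h⟩
  · exact Or.inl ⟨z, e, hx, hy, hsub _ _ h⟩
  · exact Or.inr ⟨z, e, hx, hy, hsub _ _ h⟩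

/-- decoding function of a formula -/
lemma exists_dec (hLOC : S_LOC) (m q : ℕ) : ∃ K T R g : ℕ, ∀ (s N : ℕ)
    (blk : Fin N → Finset (Fin s)), HG g (inc blk) → ∀ U : Fin m → Fin s → Prop,
    ∀ φ : Fm m 2, φ.IsFO → φ.qr ≤ q → ∃ (τ : Fin s → Fin K) (Ψ : Dec K T R), ∀ a b : Fin s,
      (Ψ (τ a) (τ b) (ptype (inc blk) (kap T τ blk) R (Sum.inl a) (Sum.inl b)) = true ↔
        (Sat (clq blk) U φ ![a, b] ∧ Sat (clq blk) U φ ![b, a])) := by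
  classical
  obtain ⟨K, T, R, g, h⟩ := hLOC m q
  refine ⟨K, T, R, g, fun s N blk hHG U φ hφ hq => ?_⟩
  obtain ⟨τ, hτ⟩ := h s N blk hHG U
  refine ⟨τ, fun α β o => decide (∃ a b : Fin s, τ a = α ∧ τ b = β ∧
    ptype (inc blk) (kap T τ blk) R (Sum.inl a) (Sum.inl b) = o ∧
    Sat (clq blk) U φ ![a, b] ∧ Sat (clq blk) U φ ![b, a]), fun a b => ?_⟩
  rw [decide_eq_true_iff]
  constructor
  · rintro ⟨a', b', ha, hb, ho, h1, h2⟩
    obtain ⟨h3, h4⟩ := hτ a' b' a b ha hb ho φ hφ hq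
    exact ⟨h3.1 h1, h4.1 h2⟩
  · intro h1
    exact ⟨a, b, rfl, rfl, rfl, h1.1, h1.2⟩

end P_STAGE

open P_STAGE in
theorem t_stage : S_LOC → S_CNT → S_FOR → S_BASE → S_MODX → S_ARI → S_STAGE := by
  classical
  intro hLOC hCNT hFOR hBASE hMODX hARI m q s₀ γ₀
  obtain ⟨K, T, R, g, hD⟩ := exists_dec hLOC m q
  obtain ⟨t₀, ht₀⟩ := hCNT K T R
  obtain ⟨C, hC⟩ := hARI K (Nat.card (Dec K T R)) R (Nat.card (Gam K T))
  obtain ⟨s, N, blk, hs, hcard, hHG, hN⟩ :=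
    hBASE (2 * (t₀ + 2)) (γ₀ + g + 2 * R + 6) C s₀ (by omega)
  have hx : ∀ e, ∃ x ∈ blk e, ∃ y ∈ blk e, x ≠ y := by
    intro e
    exact Finset.one_lt_card.1 (by rw [hcard]; omega)
  choose x hxm y hym hxy using hx
  obtain ⟨F₀, hF₀, hFm⟩ := hFOR K T R s
  obtain ⟨hA1, hA2, hA3⟩ := hC s N (by omega) hN
  set F : Finset (Fin N → Bool) := F₀.image (fun f e => f (x e) (y e)) with hF
  have hFcard : 4 * F.card ≤ 2 ^ N :=
    le_trans (Nat.mul_le_mul_left 4 (le_trans Finset.card_image_le hF₀)) hA3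
  obtain ⟨w, b, hw, hbF, hb⟩ := ht₀ (2 * (t₀ + 2)) (by omega) s N blk x y hcard
    (HG_mono hHG (by omega)) (fun e => ⟨hxm e, hym e, hxy e⟩) hA1 hA2 F hFcard
  have hmod := hMODX s N (2 * (t₀ + 2)) blk x y w b (even_two_mul _) hcard
    (HG_mono hHG (by omega)) (fun e => ⟨hxm e, hym e, hxy e⟩) hw
  have hle := inc_blkb_le blk w b
  refine ⟨s, clq (blkb blk w b), g + (s * s * (R + 1) + 2 * R + 2), hs,
    ⟨N, blkb blk w b, HG_le (HG_mono hHG (by omega)) hle, rfl⟩, ?_, ?_⟩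
  · rintro ⟨m', nu, eta⟩ hFO rfl hqr ⟨U, f, -, -, hadj⟩
    obtain ⟨τ, Ψ, hΨ⟩ := hD s N (blkb blk w b) (HG_le (HG_mono hHG (by omega)) hle) U eta
      hFO.2 hqr
    apply hb f τ Ψ
    intro e
    rw [Bool.eq_iff_iff, hΨ, ← hmod e, hadj]
    simp [hxy e]
  · rintro s' G' ⟨N', blk', hHG', rfl⟩ ⟨m', nu, eta⟩ hFO rfl hqr ⟨U, f, -, -, hadj⟩
    obtain ⟨τ, Ψ, hΨ⟩ := hD s' N' blk' (HG_mono hHG' (by omega)) U eta hFO.2 hqr
    apply hbF
    rw [hF, Finset.mem_image]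
    refine ⟨_, hFm s' N' blk' (HG_mono hHG' (by omega)) f τ Ψ, ?_⟩
    funext e
    rw [Bool.eq_iff_iff, hΨ, ← hmod e, hadj]
    simp [hxy e]

end Pool.Agent.N636.FM
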