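import Mathlib
import Pool.Agent.N636.FM.Defs
import Pool.Agent.N636.FM.Stm

/-!
# FO+MOD transductions versus FO transductions: invisible deletions do not change the types
-/

set_option autoImplicit false

namespace Pool.Agent.N636.FM

namespace P_DET

theorem blkb_sub {s N : ℕ} (blk : Fin N → Finset (Fin s)) (w : Fin N → Fin s)
    (b : Fin N → Bool) (e : Fin N) : blkb blk w b e ⊆ blk e := by
  unfold blkb
  split_ifs
  · exact Finset.erase_subset _ _
  · exact subset_rfl

theorem erase_sub {s N : ℕ} (blk : Fin N → Finset (Fin s)) (w : Fin N → Fin s)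
    (b : Fin N → Bool) (e : Fin N) : (blk e).erase (w e) ⊆ blkb blk w b e := by
  unfold blkb
  split_ifs
  · exact subset_rfl
  · exact Finset.erase_subset _ _

theorem inc_mono {V E : Type} {blk blk' : E → Finset V} (h : ∀ e, blk e ⊆ blk' e) :
    inc blk ≤ inc blk' := by
  intro x y hxy
  rcases hxy with ⟨v, e, hx, hy, hv⟩ | ⟨v, e, hx, hy, hv⟩
  · exact Or.inl ⟨v, e, hx, hy, h e hv⟩
  · exact Or.inr ⟨v, e, hx, hy, h e hv⟩

theorem HG_mono {W : Type} {g : ℕ} {I J : SimpleGraph W} (h : I ≤ J) (hJ : HG g J) : HG g I := by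
  intro v c hc
  have := hJ v (c.mapLe h) (hc.mapLe h)
  rwa [SimpleGraph.Walk.length_mapLe] at this

theorem getVert_transfer {W : Type} {I J : SimpleGraph W} {a b : W} (p : I.Walk a b)
    (hp : ∀ e ∈ p.edges, e ∈ J.edgeSet) (i : ℕ) : (p.transfer J hp).getVert i = p.getVert i := by
  induction p generalizing i with
  | nil => rfl
  | cons h p ih =>
    cases i with
    | zero => simp
    | succ i => exact ih _ i

/-- uniqueness of short paths -/
theorem unq' {W : Type} {I : SimpleGraph W} {g : ℕ} (h : HG g I) {a b : W} (p q : I.Walk a b)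
    (hp : p.IsPath) (hq : q.IsPath) (hl : p.length + q.length ≤ g) : p = q := by
  classical
  let J : SimpleGraph W := SimpleGraph.fromEdgeSet {e | e ∈ p.edges ∨ e ∈ q.edges}
  have hpe : ∀ e ∈ p.edges, e ∈ J.edgeSet := by
    intro e he
    rw [SimpleGraph.edgeSet_fromEdgeSet]
    exact ⟨Or.inl he, fun hd => I.not_isDiag_of_mem_edgeSet (p.edges_subset_edgeSet he) hd⟩
  have hqe : ∀ e ∈ q.edges, e ∈ J.edgeSet := by
    intro e he
    rw [SimpleGraph.edgeSet_fromEdgeSet]
    exact ⟨Or.inr he, fun hd => I.not_isDiag_of_mem_edgeSet (q.edges_subset_edgeSet he) hd⟩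
  have hJe : ∀ e ∈ J.edgeSet, e ∈ p.edges ∨ e ∈ q.edges := by
    intro e he
    rw [SimpleGraph.edgeSet_fromEdgeSet] at he
    exact he.1
  have hJI : J ≤ I := by
    intro x y hxy
    rcases hJe s(x, y) hxy with h1 | h1
    · exact p.edges_subset_edgeSet h1
    · exact q.edges_subset_edgeSet h1
  have hac : J.IsAcyclic := by
    intro v c hc
    have h1 := h v (c.mapLe hJI) (hc.mapLe hJI)
    rw [SimpleGraph.Walk.length_mapLe] at h1
    have h2 : c.edges.toFinset ⊆ p.edges.toFinset ∪ q.edges.toFinset := by
      intro e he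
      rw [List.mem_toFinset] at he
      rw [Finset.mem_union, List.mem_toFinset, List.mem_toFinset]
      exact hJe e (c.edges_subset_edgeSet he)
    have h3 := Finset.card_le_card h2
    rw [List.toFinset_card_of_nodup hc.edges_nodup, SimpleGraph.Walk.length_edges] at h3
    have h4 := Finset.card_union_le p.edges.toFinset q.edges.toFinset
    have h5 := List.toFinset_card_le p.edges
    have h6 := List.toFinset_card_le q.edges
    rw [SimpleGraph.Walk.length_edges] at h5 h6
    omega
  have h1 := (hac.subsingleton_path a b).elim (⟨p.transfer J hpe, hp.transfer hpe⟩ : J.Path a b)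
    ⟨q.transfer J hqe, hq.transfer hqe⟩
  have h2 := congrArg (fun r : J.Path a b => r.1.support) h1
  simp only [SimpleGraph.Walk.support_transfer] at h2
  exact SimpleGraph.Walk.ext_support h2

theorem ptype_eq {W Γ : Type} {I : SimpleGraph W} {R : ℕ} (h : HG (2 * R) I) (κ : W → Γ)
    {a b : W} (p : I.Walk a b) (hp : p.IsPath) (hl : p.length ≤ R) :
    ptype I κ R a b =
      some (fun i : Fin (R + 1) =>
        if (i : ℕ) ≤ p.length then some (κ (p.getVert i)) else none) := by
  have hex : ∃ p : I.Walk a b, p.IsPath ∧ p.length ≤ R := ⟨p, hp, hl⟩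
  have h1 : hex.choose = p :=
    unq' h _ _ hex.choose_spec.1 hp (by have := hex.choose_spec.2; omega)
  rw [ptype, dif_pos hex, h1]

/-- a short path of one graph is a path of the other one -/
theorem trans_edges {s N K T R : ℕ} {blk : Fin N → Finset (Fin s)} {x y w : Fin N → Fin s}
    {τ : Fin s → Fin K} {b b' : Fin N → Bool}
    (hv : ∀ e, Vis blk T R τ x y w e → b e = b' e) (e : Fin N)
    (p : (inc (blkb blk w b)).Walk (Sum.inl (x e)) (Sum.inl (y e))) (hp : p.IsPath)
    (hl : p.length ≤ R) : ∀ d ∈ p.edges, d ∈ (inc (blkb blk w b')).edgeSet := by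
  have key : ∀ z e', s(Sum.inl z, Sum.inr e') ∈ p.edges → z ∈ blkb blk w b e' →
      z ∈ blkb blk w b' e' := by
    intro z e' hd hz
    by_cases hb : b e' = b' e'
    · unfold blkb at hz ⊢
      rwa [← hb]
    · have hnv : ¬ Vis blk T R τ x y w e' := fun h => hb (hv e' h)
      have hzw : z ≠ w e' := by
        rintro rfl
        apply hnv
        right
        have hle : inc (blkb blk w b) ≤ inc blk := inc_mono (blkb_sub blk w b)
        exact ⟨e, p.mapLe hle, hp.mapLe hle, by rwa [SimpleGraph.Walk.length_mapLe],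
          by rwa [SimpleGraph.Walk.edges_mapLe_eq_edges]⟩
      exact erase_sub blk w b' e' (Finset.mem_erase.2 ⟨hzw, blkb_sub blk w b e' hz⟩)
  intro d hd
  have hd' := p.edges_subset_edgeSet hd
  induction d using Sym2.ind with
  | _ u v =>
    rw [SimpleGraph.mem_edgeSet] at hd' ⊢
    rcases hd' with ⟨z, e', rfl, rfl, hz⟩ | ⟨z, e', rfl, rfl, hz⟩
    · exact Or.inl ⟨z, e', rfl, rfl, key z e' hd hz⟩
    · rw [Sym2.eq_swap] at hd
      exact Or.inr ⟨z, e', rfl, rfl, key z e' hd hz⟩

theorem cnt_erase {s K T : ℕ} (τ : Fin s → Fin K) (B : Finset (Fin s)) (v : Fin s)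
    (h : T < (B.filter fun u => τ u = τ v).card) (k : Fin K) :
    min T ((B.erase v).filter fun u => τ u = k).card = min T (B.filter fun u => τ u = k).card := by
  rw [Finset.filter_erase]
  by_cases hk : τ v = k
  · subst hk
    have := Finset.pred_card_le_card_erase (s := B.filter fun u => τ u = τ v) (a := v)
    rw [min_eq_left (by omega), min_eq_left (by omega)]
  · rw [Finset.erase_eq_of_notMem]
    rw [Finset.mem_filter]
    exact fun h' => hk h'.2

theorem kap_eq {s N K T R : ℕ} {blk : Fin N → Finset (Fin s)} {x y w : Fin N → Fin s}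
    {τ : Fin s → Fin K} {b b' : Fin N → Bool}
    (hv : ∀ e, Vis blk T R τ x y w e → b e = b' e) :
    kap T τ (blkb blk w b) = kap T τ (blkb blk w b') := by
  funext z
  rcases z with z | e
  · rfl
  · by_cases hb : b e = b' e
    · simp only [kap, blkb, hb]
    · have hnv : ¬ Vis blk T R τ x y w e := fun h => hb (hv e h)
      have hT : T < ((blk e).filter fun u => τ u = τ (w e)).card := by
        by_contra hc
        exact hnv (Or.inl (not_lt.1 hc))
      have h1 : ∀ (c : Fin N → Bool) (k : Fin K),
          min T ((blkb blk w c e).filter fun u => τ u = k).card =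
            min T ((blk e).filter fun u => τ u = k).card := by
        intro c k
        unfold blkb
        split_ifs
        · exact cnt_erase τ (blk e) (w e) hT k
        · rfl
      simp only [kap, h1]

end P_DET

open P_DET in
/-- DET: invisible deletions do not change the types -/
theorem t_det : S_DET := by
  intro s N K T R blk x y w τ b b' hHG hv e
  have hG : ∀ c : Fin N → Bool, HG (2 * R) (inc (blkb blk w c)) :=
    fun c => HG_mono (inc_mono (blkb_sub blk w c)) hHG
  have hv' : ∀ e, Vis blk T R τ x y w e → b' e = b e := fun e h => (hv e h).symm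
  rw [kap_eq hv]
  by_cases hex : ∃ p : (inc (blkb blk w b)).Walk (Sum.inl (x e)) (Sum.inl (y e)),
      p.IsPath ∧ p.length ≤ R
  · obtain ⟨p, hp, hl⟩ := hex
    have ht := trans_edges hv e p hp hl
    rw [ptype_eq (hG b) _ p hp hl, ptype_eq (hG b') _ (p.transfer _ ht) (hp.transfer ht)
      (by rwa [SimpleGraph.Walk.length_transfer])]
    simp only [SimpleGraph.Walk.length_transfer, getVert_transfer]
  · have hex' : ¬ ∃ p : (inc (blkb blk w b')).Walk (Sum.inl (x e)) (Sum.inl (y e)),
        p.IsPath ∧ p.length ≤ R := by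
      rintro ⟨p, hp, hl⟩
      have ht := trans_edges hv' e p hp hl
      exact hex ⟨p.transfer _ ht, hp.transfer ht, by rwa [SimpleGraph.Walk.length_transfer]⟩
    rw [ptype, dif_neg hex, ptype, dif_neg hex']

end Pool.Agent.N636.FM
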