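import Mathlib
import Pool.Agent.N636.FM.Defs
import Pool.Agent.N636.FM.Stm

/-!
# FM/FOR: encoding of small configurations in graphs of high girth (helper395)
-/

set_option autoImplicit false

namespace Pool.Agent.N636.FM

namespace P_FOR

open SimpleGraph

variable {W : Type} {I : SimpleGraph W} {g : ℕ}

/-- subgraphs with few edges are acyclic -/
theorem acyc (h : HG g I) (E : Finset (Sym2 W)) (hE : E.card ≤ g) (H : SimpleGraph W)
    (hHI : H ≤ I) (hHE : ∀ e ∈ H.edgeSet, e ∈ E) : H.IsAcyclic := by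
  classical
  intro v c hc
  have h1 := h v (c.mapLe hHI) (hc.mapLe hHI)
  rw [Walk.length_map] at h1
  have h2 : c.edges.toFinset ⊆ E := by
    intro e he
    exact hHE e (Walk.edges_subset_edgeSet c (List.mem_toFinset.1 he))
  have h3 : c.edges.toFinset.card = c.length := by
    rw [List.toFinset_card_of_nodup hc.isCircuit.isTrail.edges_nodup, Walk.length_edges]
  have h4 := Finset.card_le_card h2
  omega

/-- the graph with the edges in `E` -/
theorem from_le {E : Finset (Sym2 W)} (hE : ∀ e ∈ E, e ∈ I.edgeSet) :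
    fromEdgeSet (E : Set (Sym2 W)) ≤ I := by
  intro x y hxy
  rw [fromEdgeSet_adj] at hxy
  exact hE _ hxy.1

theorem unq (h : HG g I) {a b : W} (p q : I.Walk a b) (hp : p.IsPath) (hq : q.IsPath)
    (hl : p.length + q.length ≤ g) : p = q := by
  classical
  obtain ⟨E, hE⟩ : ∃ E, E = p.edges.toFinset ∪ q.edges.toFinset := ⟨_, rfl⟩
  have hEI : ∀ e ∈ E, e ∈ I.edgeSet := by
    intro e he
    rw [hE, Finset.mem_union, List.mem_toFinset, List.mem_toFinset] at he
    rcases he with he | he
    · exact Walk.edges_subset_edgeSet p he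
    · exact Walk.edges_subset_edgeSet q he
  have hcard : E.card ≤ g := by
    rw [hE]
    refine (Finset.card_union_le _ _).trans ?_
    have h1 := List.toFinset_card_le p.edges
    have h2 := List.toFinset_card_le q.edges
    rw [Walk.length_edges] at h1 h2
    omega
  have hac := acyc h E hcard (fromEdgeSet (E : Set (Sym2 W))) (from_le hEI) (by
    intro e he
    rw [edgeSet_fromEdgeSet] at he
    exact he.1)
  have hmem : ∀ e ∈ E, e ∈ (fromEdgeSet (E : Set (Sym2 W))).edgeSet := by
    intro e he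
    rw [edgeSet_fromEdgeSet]
    exact ⟨he, not_isDiag_of_mem_edgeSet I (hEI e he)⟩
  have hpE : ∀ e ∈ p.edges, e ∈ (fromEdgeSet (E : Set (Sym2 W))).edgeSet := fun e he =>
    hmem e (by rw [hE, Finset.mem_union, List.mem_toFinset]; exact Or.inl he)
  have hqE : ∀ e ∈ q.edges, e ∈ (fromEdgeSet (E : Set (Sym2 W))).edgeSet := fun e he =>
    hmem e (by rw [hE, Finset.mem_union, List.mem_toFinset, List.mem_toFinset]; exact Or.inr he)
  have hsub := hac.subsingleton_path a b
  have key := Subsingleton.elim (α := (fromEdgeSet (E : Set (Sym2 W))).Path a b)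
    ⟨p.transfer _ hpE, hp.transfer hpE⟩ ⟨q.transfer _ hqE, hq.transfer hqE⟩
  have key2 := congrArg (fun r => (r : (fromEdgeSet (E : Set (Sym2 W))).Walk a b).support)
    (congrArg Subtype.val key)
  simp only [Walk.support_transfer] at key2
  exact Walk.ext_support key2

/-- parents in a forest -/
theorem par_exists {H : SimpleGraph W} (hH : H.IsAcyclic) : ∃ par : W → W,
    (∀ u, par u = u ∨ H.Adj u (par u)) ∧ ∀ u v, H.Adj u v → par u = v ∨ par v = u := by
  classical
  obtain ⟨r, hr⟩ : ∃ r : W → W, r = fun u => (H.connectedComponentMk u).out := ⟨_, rfl⟩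
  have hreach : ∀ u, H.Reachable u (r u) := by
    intro u
    apply ConnectedComponent.exact
    rw [hr]
    exact (Quot.out_eq _).symm
  have hp : ∀ u, ∃ p : H.Walk u (r u), p.IsPath := fun u => (hreach u).exists_isPath
  choose P hP using hp
  refine ⟨fun u => (P u).getVert 1, fun u => ?_, fun u v huv => ?_⟩
  · change (P u).getVert 1 = u ∨ H.Adj u ((P u).getVert 1)
    by_cases hn : (P u).length = 0
    · left
      rw [Walk.getVert_of_length_le _ (by omega)]
      exact (Walk.eq_of_length_eq_zero hn).symm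
    · right
      have := (P u).adj_getVert_succ (i := 0) (by omega)
      rw [Walk.getVert_zero] at this
      exact this
  · change (P u).getVert 1 = v ∨ (P v).getVert 1 = u
    have hruv : r u = r v := by
      rw [hr]
      exact congrArg Quot.out (ConnectedComponent.sound huv.reachable)
    by_cases hv : v ∈ (P u).support
    · left
      have h1 : (P u).takeUntil v hv = Walk.cons huv Walk.nil := by
        have := hH.subsingleton_path u v
        exact congrArg Subtype.val (Subsingleton.elim (α := H.Path u v)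
          ⟨(P u).takeUntil v hv, (hP u).takeUntil hv⟩ ⟨Walk.cons huv Walk.nil, by simp [huv.ne]⟩)
      have h2 := (P u).take_spec hv
      rw [h1] at h2
      rw [← h2, Walk.cons_append, Walk.getVert_cons_succ, Walk.getVert_zero]
    · right
      have h1 : (Walk.cons huv.symm (P u)).copy rfl hruv = P v := by
        have := hH.subsingleton_path v (r v)
        exact congrArg Subtype.val (Subsingleton.elim (α := H.Path v (r v))
          ⟨(Walk.cons huv.symm (P u)).copy rfl hruv, by
            rw [Walk.isPath_copy]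
            exact (hP u).cons hv⟩ ⟨P v, hP v⟩)
      rw [← h1, Walk.getVert_copy, Walk.getVert_cons_succ, Walk.getVert_zero]

/-- paths in a forest go up and then down -/
theorem updown {H : SimpleGraph W} (par : W → W)
    (h2 : ∀ u v, H.Adj u v → par u = v ∨ par v = u) {u v : W} (c : H.Walk u v) (hc : c.IsPath) :
    ∃ p q, p + q = c.length ∧ (∀ i ≤ p, c.getVert i = par^[i] u) ∧
      ∀ i ≤ q, c.getVert (c.length - i) = par^[i] v := by
  induction c with
  | nil =>
    refine ⟨0, 0, rfl, fun i hi => ?_, fun i hi => ?_⟩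
    · rw [Nat.le_zero.1 hi]; rfl
    · rw [Nat.le_zero.1 hi]; rfl
  | @cons u w v h c ih =>
    rw [Walk.cons_isPath_iff] at hc
    obtain ⟨p, q, hpq, hp, hq⟩ := ih hc.1
    have hdown : ∀ i ≤ q, (Walk.cons h c).getVert ((Walk.cons h c).length - i) = par^[i] v := by
      intro i hi
      rw [Walk.length_cons, show c.length + 1 - i = (c.length - i) + 1 by omega,
        Walk.getVert_cons_succ]
      exact hq i hi
    rcases h2 u w h with h1 | h1
    · refine ⟨p + 1, q, by rw [Walk.length_cons]; omega, fun i hi => ?_, hdown⟩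
      rcases i with _ | i
      · rw [Walk.getVert_zero]; rfl
      · rw [Walk.getVert_cons_succ, hp i (by omega), Function.iterate_succ_apply, h1]
    · have hp0 : p = 0 := by
        by_contra hne
        apply hc.2
        have h3 := hp 1 (by omega)
        rw [Function.iterate_one, h1] at h3
        rw [← h3]
        exact Walk.getVert_mem_support c 1
      refine ⟨0, q + 1, by rw [Walk.length_cons]; omega, fun i hi => ?_, fun i hi => ?_⟩
      · rw [Nat.le_zero.1 hi, Walk.getVert_zero]; rfl
      · rcases Nat.lt_or_ge q i with hqi | hqi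
        · have hi2 : i = q + 1 := by omega
          have h3 := hq q le_rfl
          rw [show c.length - q = 0 by omega, Walk.getVert_zero] at h3
          rw [hi2, Walk.length_cons, show c.length + 1 - (q + 1) = 0 by omega, Walk.getVert_zero,
            Function.iterate_succ_apply', ← h3, h1]
        · exact hdown i hqi

/-- ancestors of the points `a i` -/
structure Cfg (I : SimpleGraph W) (R : ℕ) {s : ℕ} (a : Fin s → W) (anc : Fin s → ℕ → W) : Prop where
  zero : ∀ i, anc i 0 = a i
  step : ∀ i p k, ∃ w : I.Walk (anc i p) (anc i (p + k)), w.length ≤ k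
  meet : ∀ i j (c : I.Walk (a i) (a j)), c.IsPath → c.length ≤ R →
    ∃ p q, p + q = c.length ∧ anc i p = anc j q
  unq : ∀ (u v : W) (p q : I.Walk u v), p.IsPath → q.IsPath → p.length ≤ R → q.length ≤ R → p = q

theorem exists_cfg {R s : ℕ} (h : HG (s * s * (R + 1) + 2 * R + 2) I) (a : Fin s → W) :
    ∃ anc : Fin s → ℕ → W, Cfg I R a anc := by
  classical
  have hU : ∀ (u v : W) (p q : I.Walk u v), p.IsPath → q.IsPath → p.length ≤ R →
      q.length ≤ R → p = q := fun u v p q hp hq hpl hql => unq h p q hp hq (by omega)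
  obtain ⟨E, hE⟩ : ∃ E : Finset (Sym2 W), E = Finset.univ.biUnion fun ij : Fin s × Fin s =>
      if h : ∃ c : I.Walk (a ij.1) (a ij.2), c.IsPath ∧ c.length ≤ R then
        h.choose.edges.toFinset else ∅ := ⟨_, rfl⟩
  have hEI : ∀ e ∈ E, e ∈ I.edgeSet := by
    intro e he
    rw [hE, Finset.mem_biUnion] at he
    obtain ⟨ij, -, he⟩ := he
    split_ifs at he with h1
    · exact Walk.edges_subset_edgeSet _ (List.mem_toFinset.1 he)
    · simp at he
  have hcard : E.card ≤ s * s * R := by
    rw [hE]
    refine Finset.card_biUnion_le.trans ?_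
    calc ∑ ij : Fin s × Fin s, _ ≤ ∑ ij : Fin s × Fin s, R := by
          refine Finset.sum_le_sum fun ij _ => ?_
          split_ifs with h1
          · refine (List.toFinset_card_le _).trans ?_
            rw [Walk.length_edges]
            exact h1.choose_spec.2
          · simp
      _ = s * s * R := by simp
  have hcard2 : E.card ≤ s * s * (R + 1) + 2 * R + 2 := by
    refine hcard.trans ?_
    have : s * s * R ≤ s * s * (R + 1) := Nat.mul_le_mul_left _ (by omega)
    omega
  have hle := from_le hEI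
  have hac := acyc h E hcard2 (fromEdgeSet (E : Set (Sym2 W))) hle (by
    intro e he
    rw [edgeSet_fromEdgeSet] at he
    exact he.1)
  obtain ⟨par, hpar1, hpar2⟩ := par_exists hac
  refine ⟨fun i p => par^[p] (a i), fun i => rfl, fun i p k => ?_, fun i j c hc hcl => ?_, hU⟩
  · induction k with
    | zero => exact ⟨Walk.nil, le_rfl⟩
    | succ k ih =>
      obtain ⟨w, hw⟩ := ih
      have h1 : par^[p + (k + 1)] (a i) = par (par^[p + k] (a i)) :=
        Function.iterate_succ_apply' par (p + k) (a i)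
      rw [h1]
      rcases hpar1 (par^[p + k] (a i)) with h2 | h2
      · rw [h2]
        exact ⟨w, by omega⟩
      · refine ⟨w.append (Walk.cons (hle h2) Walk.nil), ?_⟩
        rw [Walk.length_append, Walk.length_cons, Walk.length_nil]
        omega
  · have hex : ∃ c : I.Walk (a i) (a j), c.IsPath ∧ c.length ≤ R := ⟨c, hc, hcl⟩
    have h1 : c = hex.choose := hU _ _ _ _ hc hex.choose_spec.1 hcl hex.choose_spec.2
    have h2 : ∀ e ∈ c.edges, e ∈ (fromEdgeSet (E : Set (Sym2 W))).edgeSet := by
      intro e he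
      rw [edgeSet_fromEdgeSet]
      refine ⟨?_, not_isDiag_of_mem_edgeSet I (Walk.edges_subset_edgeSet c he)⟩
      rw [hE, Finset.mem_coe, Finset.mem_biUnion]
      refine ⟨(i, j), Finset.mem_univ _, ?_⟩
      rw [dif_pos hex, List.mem_toFinset, ← h1]
      exact he
    obtain ⟨p, q, hpq, hp, hq⟩ := updown par hpar2 (c.transfer _ h2) (hc.transfer h2)
    rw [Walk.length_transfer] at hpq hq
    refine ⟨p, q, hpq, ?_⟩
    have h3 := hp p le_rfl
    have h4 := hq q le_rfl
    rw [show c.length - q = p by omega] at h4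
    exact h3.symm.trans h4

variable {R s : ℕ} {a : Fin s → W} {anc : Fin s → ℕ → W}

theorem Cfg.walk (h : Cfg I R a anc) (i : Fin s) (p : ℕ) :
    ∃ w : I.Walk (a i) (anc i p), w.length ≤ p := by
  have := h.step i 0 p
  rw [zero_add, h.zero] at this
  exact this

theorem Cfg.path (h : Cfg I R a anc) {i j : Fin s} {p q : ℕ} (hpq : anc i p = anc j q) :
    ∃ c : I.Walk (a i) (a j), c.IsPath ∧ c.length ≤ p + q := by
  classical
  obtain ⟨w1, h1⟩ := h.walk i p
  obtain ⟨w2, h2⟩ := h.walk j q
  refine ⟨(w1.append (w2.reverse.copy hpq.symm rfl)).bypass, Walk.bypass_isPath _, ?_⟩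
  refine (Walk.length_bypass_le_length _).trans ?_
  rw [Walk.length_append, Walk.length_copy, Walk.length_reverse]
  omega

/-- the vertices of short paths -/
theorem Cfg.vert (h : Cfg I R a anc) {u v x : W} (c : I.Walk u v) (hc : c.IsPath)
    (hcl : c.length ≤ R) (w1 : I.Walk u x) (w2 : I.Walk x v) {n : ℕ} (h1 : w1.length ≤ n)
    (h2 : w2.length + n ≤ c.length) : c.getVert n = x := by
  classical
  have hl : (w1.append w2).length ≤ c.length := by
    rw [Walk.length_append]
    omega
  have hb : (w1.append w2).bypass.length ≤ (w1.append w2).length := Walk.length_bypass_le_length _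
  have h3 : (w1.append w2).bypass = c :=
    h.unq _ _ _ _ (Walk.bypass_isPath _) hc (by omega) hcl
  have h4 : (w1.append w2).bypass = w1.append w2 := by
    apply Walk.bypass_eq_self_of_length_le_length_bypass
    rw [h3]
    exact hl
  rw [h4] at h3
  have h5 : w1.length + w2.length = c.length := by rw [← h3, Walk.length_append]
  have h6 : w1.length = n := by omega
  rw [← h3, Walk.getVert_append, if_neg (by omega), h6, Nat.sub_self, Walk.getVert_zero]

theorem Cfg.vert_anc (h : Cfg I R a anc) {i j : Fin s} (c : I.Walk (a i) (a j)) (hc : c.IsPath)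
    (hcl : c.length ≤ R) {p q : ℕ} (hl : p + q = c.length) (hpq : anc i p = anc j q) {n : ℕ}
    (hn : n ≤ c.length) : c.getVert n = if n ≤ p then anc i n else anc j (c.length - n) := by
  split_ifs with hnp
  · obtain ⟨w1, h1⟩ := h.walk i n
    obtain ⟨w2, h2⟩ := h.step i n (p - n)
    obtain ⟨w3, h3⟩ := h.walk j q
    have e1 : anc i (n + (p - n)) = anc j q := by rw [show n + (p - n) = p by omega, hpq]
    refine h.vert c hc hcl w1 (w2.append (w3.reverse.copy e1.symm rfl)) h1 ?_
    rw [Walk.length_append, Walk.length_copy, Walk.length_reverse]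
    omega
  · obtain ⟨w1, h1⟩ := h.walk i p
    obtain ⟨w2, h2⟩ := h.step j (c.length - n) (q - (c.length - n))
    obtain ⟨w3, h3⟩ := h.walk j (c.length - n)
    have e1 : anc j (c.length - n + (q - (c.length - n))) = anc i p := by
      rw [show c.length - n + (q - (c.length - n)) = q by omega, hpq]
    refine h.vert c hc hcl (w1.append (w2.reverse.copy e1 rfl)) w3.reverse ?_ ?_
    · rw [Walk.length_append, Walk.length_copy, Walk.length_reverse]
      omega
    · rw [Walk.length_reverse]
      omega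

section two

variable {W' Γ : Type} {I' : SimpleGraph W'} {a' : Fin s → W'} {anc' : Fin s → ℕ → W'}

/-- short paths are transferred to the other configuration -/
theorem transfer (h : Cfg I R a anc) (h' : Cfg I' R a' anc')
    (heq : ∀ i j p q, p ≤ R → q ≤ R → anc i p = anc j q → anc' i p = anc' j q) {i j : Fin s}
    (c : I.Walk (a i) (a j)) (hc : c.IsPath) (hcl : c.length ≤ R) :
    ∃ c' : I'.Walk (a' i) (a' j), c'.IsPath ∧ c'.length ≤ c.length := by
  obtain ⟨p, q, hl, hpq⟩ := h.meet i j c hc hcl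
  rw [← hl]
  exact h'.path (heq i j p q (by omega) (by omega) hpq)

/-- the types only depend on the coincidences and the colours of the ancestors -/
theorem ptype_eq (κ : W → Γ) (κ' : W' → Γ) (h : Cfg I R a anc) (h' : Cfg I' R a' anc')
    (heq : ∀ i j p q, p ≤ R → q ≤ R → (anc i p = anc j q ↔ anc' i p = anc' j q))
    (hκ : ∀ i p, p ≤ R → κ (anc i p) = κ' (anc' i p)) (i j : Fin s) :
    ptype I κ R (a i) (a j) = ptype I' κ' R (a' i) (a' j) := by
  by_cases hex : ∃ p : I.Walk (a i) (a j), p.IsPath ∧ p.length ≤ R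
  · have hex' : ∃ p : I'.Walk (a' i) (a' j), p.IsPath ∧ p.length ≤ R := by
      obtain ⟨c, hc, hcl⟩ := hex
      obtain ⟨c', hc', hcl'⟩ := transfer h h' (fun i j p q hp hq => (heq i j p q hp hq).1) c hc hcl
      exact ⟨c', hc', hcl'.trans hcl⟩
    unfold ptype
    rw [dif_pos hex, dif_pos hex']
    obtain ⟨c, hc⟩ : ∃ c, c = hex.choose := ⟨_, rfl⟩
    obtain ⟨c', hc'⟩ : ∃ c', c' = hex'.choose := ⟨_, rfl⟩
    have hcs := hex.choose_spec
    have hcs' := hex'.choose_spec
    rw [← hc] at hcs ⊢
    rw [← hc'] at hcs' ⊢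
    have hlen : c'.length = c.length := by
      apply le_antisymm
      · obtain ⟨d, hd, hdl⟩ := transfer h h' (fun i j p q hp hq => (heq i j p q hp hq).1) c
          hcs.1 hcs.2
        have := h'.unq _ _ _ _ hd hcs'.1 (hdl.trans hcs.2) hcs'.2
        rw [← this]
        exact hdl
      · obtain ⟨d, hd, hdl⟩ := transfer h' h (fun i j p q hp hq => (heq i j p q hp hq).2) c'
          hcs'.1 hcs'.2
        have := h.unq _ _ _ _ hd hcs.1 (hdl.trans hcs'.2) hcs.2
        rw [← this]
        exact hdl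
    congr 1
    funext n
    rw [hlen]
    split_ifs with hn
    · obtain ⟨p, q, hl, hpq⟩ := h.meet i j c hcs.1 hcs.2
      have hpq' := (heq i j p q (by omega) (by omega)).1 hpq
      rw [h.vert_anc c hcs.1 hcs.2 hl hpq hn,
        h'.vert_anc c' hcs'.1 hcs'.2 (hl.trans hlen.symm) hpq' (hn.trans hlen.symm.le), hlen]
      split_ifs with hnp
      · rw [hκ i n (by omega)]
      · rw [hκ j _ (by omega)]
    · rfl
  · have hex' : ¬ ∃ p : I'.Walk (a' i) (a' j), p.IsPath ∧ p.length ≤ R := by
      rintro ⟨c, hc, hcl⟩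
      obtain ⟨c', hc', hcl'⟩ := transfer h' h (fun i j p q hp hq => (heq i j p q hp hq).2) c hc hcl
      exact hex ⟨c', hc', hcl'.trans hcl⟩
    unfold ptype
    rw [dif_neg hex, dif_neg hex']

end two

/-- codes -/
abbrev Code (K T R s : ℕ) : Type :=
  ((Fin s × Fin (R + 1)) → (Fin s × Fin (R + 1))) × ((Fin s × Fin (R + 1)) → Gam K T) × Dec K T R

/-- the function `f` has the code `x` -/
def HasCode (K T R s : ℕ) (f : Fin s → Fin s → Bool) (x : Code K T R s) : Prop :=
  ∃ (s' N' : ℕ) (blk : Fin N' → Finset (Fin s')) (a : Fin s → Fin s') (τ : Fin s' → Fin K)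
    (anc : Fin s → ℕ → Fin s' ⊕ Fin N'), Cfg (inc blk) R (fun i => Sum.inl (a i)) anc ∧
    (f = fun i j => x.2.2 (τ (a i)) (τ (a j))
      (ptype (inc blk) (kap T τ blk) R (Sum.inl (a i)) (Sum.inl (a j)))) ∧
    (∀ u v : Fin s × Fin (R + 1), x.1 u = x.1 v ↔ anc u.1 u.2 = anc v.1 v.2) ∧
    ∀ u : Fin s × Fin (R + 1), x.2.1 u = kap T τ blk (anc u.1 u.2)

theorem code_inj {K T R s : ℕ} {f f' : Fin s → Fin s → Bool} {x : Code K T R s}
    (h : HasCode K T R s f x) (h' : HasCode K T R s f' x) : f = f' := by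
  obtain ⟨s₁, N₁, blk, a, τ, anc, hc, hf, h1, h2⟩ := h
  obtain ⟨s₂, N₂, blk', a', τ', anc', hc', hf', h1', h2'⟩ := h'
  have heq : ∀ i j p q, p ≤ R → q ≤ R → (anc i p = anc j q ↔ anc' i p = anc' j q) := by
    intro i j p q hp hq
    have e1 := h1 (i, ⟨p, Nat.lt_succ_of_le hp⟩) (j, ⟨q, Nat.lt_succ_of_le hq⟩)
    have e2 := h1' (i, ⟨p, Nat.lt_succ_of_le hp⟩) (j, ⟨q, Nat.lt_succ_of_le hq⟩)
    exact e1.symm.trans e2
  have hκ : ∀ i p, p ≤ R → kap T τ blk (anc i p) = kap T τ' blk' (anc' i p) := by
    intro i p hp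
    have e1 := h2 (i, ⟨p, Nat.lt_succ_of_le hp⟩)
    have e2 := h2' (i, ⟨p, Nat.lt_succ_of_le hp⟩)
    exact e1.symm.trans e2
  have hτ : ∀ i, τ (a i) = τ' (a' i) := by
    intro i
    have e1 := hκ i 0 (Nat.zero_le _)
    rw [hc.zero, hc'.zero] at e1
    exact Sum.inl.inj e1
  rw [hf, hf']
  funext i j
  rw [hτ i, hτ j, ptype_eq _ _ hc hc' heq hκ i j]

theorem exists_code {K T R s s' N' : ℕ} (blk : Fin N' → Finset (Fin s'))
    (h : HG (s * s * (R + 1) + 2 * R + 2) (inc blk)) (a : Fin s → Fin s') (τ : Fin s' → Fin K)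
    (Ψ : Dec K T R) : ∃ x, HasCode K T R s (fun i j => Ψ (τ (a i)) (τ (a j))
      (ptype (inc blk) (kap T τ blk) R (Sum.inl (a i)) (Sum.inl (a j)))) x := by
  classical
  obtain ⟨anc, hc⟩ := exists_cfg h (fun i => (Sum.inl (a i) : Fin s' ⊕ Fin N'))
  have hex : ∀ u : Fin s × Fin (R + 1), ∃ v : Fin s × Fin (R + 1),
      anc v.1 v.2 = anc u.1 u.2 := fun u => ⟨u, rfl⟩
  obtain ⟨G, hG⟩ : ∃ G : (Fin s × Fin (R + 1)) → (Fin s × Fin (R + 1)),
      ∀ u v, G u = G v ↔ anc u.1 u.2 = anc v.1 v.2 := by
    obtain ⟨r, hr⟩ : ∃ r : (Fin s' ⊕ Fin N') → (Fin s × Fin (R + 1)) → (Fin s × Fin (R + 1)),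
        ∀ u v : Fin s × Fin (R + 1),
          anc (r (anc u.1 u.2) v).1 (r (anc u.1 u.2) v).2 = anc u.1 u.2 := by
      refine ⟨fun w v => if h : ∃ u : Fin s × Fin (R + 1), anc u.1 u.2 = w then h.choose else v,
        fun u v => ?_⟩
      have hu : ∃ u' : Fin s × Fin (R + 1), anc u'.1 u'.2 = anc u.1 u.2 := ⟨u, rfl⟩
      simp only [dif_pos hu]
      exact hu.choose_spec
    rcases isEmpty_or_nonempty (Fin s × Fin (R + 1)) with he | ⟨⟨v0⟩⟩
    · exact ⟨id, fun u => he.elim u⟩
    · refine ⟨fun u => r (anc u.1 u.2) v0, fun u v => ⟨fun h => ?_, fun h => ?_⟩⟩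
      · have h' : r (anc u.1 u.2) v0 = r (anc v.1 v.2) v0 := h
        rw [← hr u v0, ← hr v v0, h']
      · change r (anc u.1 u.2) v0 = r (anc v.1 v.2) v0
        rw [h]
  exact ⟨(G, fun u => kap T τ blk (anc u.1 u.2), Ψ), s', N', blk, a, τ, anc, hc, rfl, hG,
    fun u => rfl⟩

end P_FOR

theorem t_for : S_FOR := by
  classical
  intro K T R s
  obtain ⟨F, hF⟩ : ∃ F : Finset (Fin s → Fin s → Bool),
      ∀ f, f ∈ F ↔ ∃ x, P_FOR.HasCode K T R s f x :=
    ⟨(Set.toFinite {f | ∃ x, P_FOR.HasCode K T R s f x}).toFinset, fun f => by simp⟩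
  refine ⟨F, ?_, fun s' N' blk h a τ Ψ => (hF _).2 (P_FOR.exists_code blk h a τ Ψ)⟩
  have hex : ∀ f : F, ∃ x, P_FOR.HasCode K T R s f x := fun f => (hF f.1).1 f.2
  choose cd hcd using hex
  have hinj : Function.Injective cd := by
    intro f f' hff
    apply Subtype.ext
    have h1 := hcd f
    rw [hff] at h1
    exact P_FOR.code_inj h1 (hcd f')
  have hfin1 : Finite (Gam K T) := inferInstance
  have hfin2 : Finite (Dec K T R) := by
    unfold Dec
    infer_instance
  have hfin3 : Finite ((Fin s × Fin (R + 1)) → Gam K T) := Pi.finite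
  have hfin4 : Finite ((Fin s × Fin (R + 1)) → (Fin s × Fin (R + 1))) := Pi.finite
  have hfin5 : Finite (P_FOR.Code K T R s) := Finite.instProd
  have h1 : F.card ≤ Nat.card (P_FOR.Code K T R s) := by
    have := Nat.card_le_card_of_injective cd hinj
    rwa [Nat.card_eq_fintype_card (α := F), Fintype.card_coe] at this
  refine h1.trans ?_
  rw [Nat.card_prod, Nat.card_prod, Nat.card_fun, Nat.card_fun, Nat.card_prod, Nat.card_fin,
    Nat.card_fin, ← mul_assoc]
  gcongr
  omega

end Pool.Agent.N636.FM
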