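import Mathlib
import Pool.Agent.N636.FM.Defs
import Pool.Agent.N636.FM.Stm

set_option autoImplicit false

namespace Pool.Agent.N636.FM

namespace P_ASM

/-- truth is invariant under isomorphisms -/
lemma sat_iso {V V' : Type} {G : SimpleGraph V} {G' : SimpleGraph V'} (e : G ≃g G') {m : ℕ}
    (U : Fin m → V → Prop) {k : ℕ} (φ : Fm m k) (x : Fin k → V) :
    Sat G U φ x ↔ Sat G' (fun c v => U c (e.symm v)) φ (e ∘ x) := by
  induction φ with
  | eq i j => simp [Sat]
  | adj i j => exact (e.map_adj_iff).symm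
  | col c i => simp [Sat]
  | neg φ ih => simp only [Sat]; rw [ih]
  | and φ ψ ih1 ih2 => simp only [Sat]; rw [ih1, ih2]
  | ex φ ih =>
    simp only [Sat]
    constructor
    · rintro ⟨v, hv⟩
      refine ⟨e v, ?_⟩
      rw [ih] at hv
      convert hv using 1
      funext i
      refine Fin.cases ?_ (fun i => ?_) i <;> simp
    · rintro ⟨v, hv⟩
      refine ⟨e.symm v, ?_⟩
      rw [ih]
      convert hv using 1
      funext i
      refine Fin.cases ?_ (fun i => ?_) i <;> simp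
  | md a b h φ ih =>
    simp only [Sat]
    have : {v : V | Sat G U φ (Matrix.vecCons v x)}.ncard =
        {v : V' | Sat G' (fun c v => U c (e.symm v)) φ (Matrix.vecCons v (e ∘ x))}.ncard := by
      rw [← Set.ncard_image_of_injective _ e.injective]
      congr 1
      ext v
      simp only [Set.mem_image, Set.mem_ofPred_eq]
      constructor
      · rintro ⟨u, hu, rfl⟩
        rw [ih] at hu
        convert hu using 1
        funext i
        refine Fin.cases ?_ (fun i => ?_) i <;> simp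
      · intro hv
        refine ⟨e.symm v, ?_, by simp⟩
        rw [ih]
        convert hv using 1
        funext i
        refine Fin.cases ?_ (fun i => ?_) i <;> simp
    rw [this]

lemma out_congr_left {T : Trans} {V V' W : Type} {G : SimpleGraph V} {G' : SimpleGraph V'}
    {H : SimpleGraph W} (e : G ≃g G') (h : Out T G H) : Out T G' H := by
  obtain ⟨U, f, hf, hnu, hadj⟩ := h
  refine ⟨fun c v => U c (e.symm v), e ∘ f, e.injective.comp hf, ?_, ?_⟩
  · intro v
    have h1 := sat_iso e U T.nu ![e.symm v]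
    have h2 : (e ∘ ![e.symm v] : Fin 1 → V') = ![v] := by
      funext i
      fin_cases i
      simp
    rw [h2] at h1
    rw [← h1, ← hnu]
    constructor
    · rintro ⟨w, rfl⟩
      exact ⟨w, by simp⟩
    · rintro ⟨w, hw⟩
      exact ⟨w, by simp [hw]⟩
  · intro a b
    rw [hadj, sat_iso e U T.eta ![f a, f b], sat_iso e U T.eta ![f b, f a]]
    have h1 : ∀ a b : W, (e ∘ ![f a, f b] : Fin 2 → V') = ![(e ∘ f) a, (e ∘ f) b] := by
      intro a b
      funext i
      fin_cases i <;> simp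
    rw [h1, h1]

lemma out_congr_right {T : Trans} {V W W' : Type} {G : SimpleGraph V} {H : SimpleGraph W}
    {H' : SimpleGraph W'} (e : H ≃g H') (h : Out T G H) : Out T G H' := by
  obtain ⟨U, f, hf, hnu, hadj⟩ := h
  refine ⟨U, f ∘ e.symm, hf.comp e.symm.injective, ?_, ?_⟩
  · intro v
    rw [← hnu]
    constructor
    · rintro ⟨w, rfl⟩
      exact ⟨e.symm w, rfl⟩
    · rintro ⟨w, rfl⟩
      exact ⟨e w, by simp⟩
  · intro a b
    rw [← e.symm.map_adj_iff, hadj]
    simp [e.symm.injective.eq_iff]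

/-- the transduction: keep the edges with an odd number of common neighbours -/
def TM : Trans where
  m := 0
  nu := .eq 0 0
  eta := .and (.adj 0 1) (.md 1 2 (by norm_num) (.and (.adj 1 0) (.adj 2 0)))

lemma out_TM {s : ℕ} (G : SimpleGraph (Fin s)) : Out TM G (modG G) := by
  have key : ∀ (U : Fin TM.m → Fin s → Prop) (a b : Fin s),
      (Sat G U TM.eta ![a, b] ↔ (modG G).Adj a b) := by
    intro U a b
    simp only [TM, Sat, modG]
    rw [Nat.odd_iff]
    simp
  refine ⟨fun _ _ => True, id, Function.injective_id, ?_, ?_⟩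
  · intro v
    simp [TM, Sat]
  · intro a b
    constructor
    · intro h
      exact ⟨h.ne, (key _ _ _).2 h, (key _ _ _).2 h.symm⟩
    · rintro ⟨-, h, -⟩
      exact (key _ _ _).1 h

lemma BG_mono {g g' s : ℕ} {G : SimpleGraph (Fin s)} (h : BG g G) (hg : g' ≤ g) : BG g' G := by
  obtain ⟨N, blk, h1, h2⟩ := h
  exact ⟨N, blk, fun v c hc => lt_of_le_of_lt hg (h1 v c hc), h2⟩

end P_ASM

open P_ASM in
theorem t_asm : S_STAGE → ∃ C D : Set FGraph,
    (∀ G ∈ C, ∀ G' : FGraph, Nonempty (G.2 ≃g G'.2) → G' ∈ C) ∧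
    (∀ H ∈ D, ∀ H' : FGraph, Nonempty (H.2 ≃g H'.2) → H' ∈ D) ∧
    (∀ n : ℕ, ∃ G ∈ C, n < G.1) ∧ (∀ n : ℕ, ∃ H ∈ D, n < H.1) ∧
    (∃ T : Trans, Transduces T C D) ∧ ∀ T : Trans, T.IsFO → ¬ Transduces T C D := by
  intro hS
  choose s G γ₁ hs hBG hown hlater using hS
  -- the state before stage n: (bound for sizes, bound for girths)
  let st : ℕ → ℕ × ℕ := fun n => Nat.rec (0, 0)
    (fun n p => (s n.unpair.1 n.unpair.2 p.1 p.2,
      max p.2 (γ₁ n.unpair.1 n.unpair.2 p.1 p.2))) n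
  let sz : ℕ → ℕ := fun n => s n.unpair.1 n.unpair.2 (st n).1 (st n).2
  let Gr : (n : ℕ) → SimpleGraph (Fin (sz n)) := fun n =>
    G n.unpair.1 n.unpair.2 (st n).1 (st n).2
  let gm : ℕ → ℕ := fun n => γ₁ n.unpair.1 n.unpair.2 (st n).1 (st n).2
  have hst1 : ∀ n, (st (n + 1)).1 = sz n := fun n => rfl
  have hst2 : ∀ n, (st (n + 1)).2 = max (st n).2 (gm n) := fun n => rfl
  have hlt : ∀ n, sz n < sz (n + 1) := by
    intro n
    have := hs (n + 1).unpair.1 (n + 1).unpair.2 (st (n + 1)).1 (st (n + 1)).2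
    rw [hst1] at this
    exact this
  have hmono : StrictMono sz := strictMono_nat_of_lt_succ hlt
  have hgmono : Monotone fun n => (st n).2 := by
    apply monotone_nat_of_le_succ
    intro n
    rw [hst2]
    exact le_max_left _ _
  have hgm : ∀ i j, i < j → gm i ≤ (st j).2 := by
    intro i j hij
    have h1 : gm i ≤ (st (i + 1)).2 := by rw [hst2]; exact le_max_right _ _
    exact h1.trans (hgmono hij)
  refine ⟨{X | ∃ n, Nonempty (Gr n ≃g X.2)}, {X | ∃ n, Nonempty (modG (Gr n) ≃g X.2)},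
    ?_, ?_, ?_, ?_, ⟨TM, ?_⟩, ?_⟩
  · rintro X ⟨n, ⟨e⟩⟩ Y ⟨e'⟩
    exact ⟨n, ⟨e.trans e'⟩⟩
  · rintro X ⟨n, ⟨e⟩⟩ Y ⟨e'⟩
    exact ⟨n, ⟨e.trans e'⟩⟩
  · intro n
    exact ⟨⟨sz (n + 1), Gr (n + 1)⟩, ⟨n + 1, ⟨SimpleGraph.Iso.refl⟩⟩,
      lt_of_lt_of_le (Nat.lt_succ_self n) (hmono.id_le (n + 1))⟩
  · intro n
    exact ⟨⟨sz (n + 1), modG (Gr (n + 1))⟩, ⟨n + 1, ⟨SimpleGraph.Iso.refl⟩⟩,
      lt_of_lt_of_le (Nat.lt_succ_self n) (hmono.id_le (n + 1))⟩
  · rintro X ⟨n, ⟨e⟩⟩
    exact ⟨⟨sz n, Gr n⟩, ⟨n, ⟨SimpleGraph.Iso.refl⟩⟩, out_congr_right e (out_TM _)⟩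
  · intro T hT hTr
    -- the stage of T
    set n := Nat.pair T.m T.eta.qr with hn
    obtain ⟨X, ⟨j, ⟨e⟩⟩, hX⟩ := hTr ⟨sz n, modG (Gr n)⟩ ⟨n, ⟨SimpleGraph.Iso.refl⟩⟩
    have hX' : Out T (Gr j) (modG (Gr n)) := out_congr_left e.symm hX
    have hn1 : n.unpair.1 = T.m := by simp [hn]
    have hn2 : n.unpair.2 = T.eta.qr := by simp [hn]
    rcases lt_trichotomy j n with hj | hj | hj
    · obtain ⟨U, f, hf, -⟩ := hX'
      have h1 := Fintype.card_le_of_injective f hf
      simp only [Fintype.card_fin] at h1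
      exact absurd (hmono hj) (by omega)
    · subst hj
      exact hown n.unpair.1 n.unpair.2 (st n).1 (st n).2 T hT hn1.symm hn2.symm.le hX'
    · refine hlater n.unpair.1 n.unpair.2 (st n).1 (st n).2 (sz j) (Gr j) ?_ T hT hn1.symm
        hn2.symm.le hX'
      exact BG_mono (hBG _ _ _ _) (hgm n j hj)

end Pool.Agent.N636.FM
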