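import Mathlib
import Pool.Agent.N636.FM.Defs
import Pool.Agent.N636.FM.Stm

/-!
# FM/ARI: arithmetic (helper519)
-/

set_option autoImplicit false

namespace Pool.Agent.N636.FM

namespace P_ARI

lemma le_two (n : ℕ) : n ≤ 2 ^ n := Nat.lt_two_pow_self.le

end P_ARI

open P_ARI in
theorem t_ari : S_ARI := by
  intro K L R G
  refine ⟨(K + 2) + (4 + 2 * (K + 1) + 2 * L) + (2 + (R + 1) * (R + 3) + G * (R + 1) + L),
    fun s N hs hN => ?_⟩
  set l := Nat.log 2 s with hl
  set A := s * (l + 1) with hA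
  have h2 : s ≤ 2 ^ (l + 1) := (Nat.lt_pow_succ_log_self (by norm_num) s).le
  have hsA : s ≤ A := Nat.le_mul_of_pos_right s (Nat.succ_pos l)
  have hA1 : 1 ≤ A := hs.trans hsA
  have hN1 : (K + 2) * A ≤ N := le_trans (Nat.mul_le_mul_right A (by omega)) hN
  have hN2 : (4 + 2 * (K + 1) + 2 * L) * A ≤ N :=
    le_trans (Nat.mul_le_mul_right A (by omega)) hN
  have hN3 : (2 + (R + 1) * (R + 3) + G * (R + 1) + L) * A ≤ N :=
    le_trans (Nat.mul_le_mul_right A (by omega)) hN
  have e1 : s ^ s * K ^ s ≤ 2 ^ ((K + 1) * A) := by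
    calc s ^ s * K ^ s ≤ (2 ^ (l + 1)) ^ s * (2 ^ K) ^ s :=
          Nat.mul_le_mul (Nat.pow_le_pow_left h2 s) (Nat.pow_le_pow_left (le_two K) s)
      _ = 2 ^ (A + K * s) := by rw [← pow_mul, ← pow_mul, ← pow_add, hA, mul_comm (l + 1) s]
      _ ≤ 2 ^ ((K + 1) * A) := by
          apply Nat.pow_le_pow_right (by norm_num)
          have := Nat.mul_le_mul_left K hsA
          nlinarith
  refine ⟨?_, ?_, ?_⟩
  · refine lt_of_le_of_lt e1 (Nat.pow_lt_pow_right (by norm_num) ?_)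
    nlinarith
  · have e2 : s ^ s * K ^ s * L ≤ 2 ^ ((K + 1) * A + L) := by
      rw [pow_add]
      exact Nat.mul_le_mul e1 (le_two L)
    calc 16 * (s ^ s * K ^ s * L) ^ 2 ≤ 2 ^ 4 * (2 ^ ((K + 1) * A + L)) ^ 2 :=
          Nat.mul_le_mul (by norm_num) (Nat.pow_le_pow_left e2 2)
      _ = 2 ^ (4 + ((K + 1) * A + L) * 2) := by rw [← pow_mul, ← pow_add]
      _ ≤ 2 ^ N := by
          apply Nat.pow_le_pow_right (by norm_num)
          have h3 : L ≤ L * A := Nat.le_mul_of_pos_right L hA1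
          nlinarith
  · have e3 : s * (R + 1) + 1 ≤ 2 ^ (1 + (l + 1) + (R + 1)) := by
      have h3 : 1 ≤ s * (R + 1) := Nat.mul_pos hs (Nat.succ_pos R)
      calc s * (R + 1) + 1 ≤ 2 * (s * (R + 1)) := by omega
        _ ≤ 2 * (2 ^ (l + 1) * 2 ^ (R + 1)) :=
            Nat.mul_le_mul_left 2 (Nat.mul_le_mul h2 (le_two (R + 1)))
        _ = 2 ^ (1 + (l + 1) + (R + 1)) := by rw [pow_add, pow_add]; ring
    have e4 : (s * (R + 1) + 1) ^ (s * (R + 1)) ≤ 2 ^ ((R + 1) * (R + 3) * A) := by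
      calc (s * (R + 1) + 1) ^ (s * (R + 1)) ≤ (2 ^ (1 + (l + 1) + (R + 1))) ^ (s * (R + 1)) :=
            Nat.pow_le_pow_left e3 _
        _ = 2 ^ ((1 + (l + 1) + (R + 1)) * (s * (R + 1))) := by rw [← pow_mul]
        _ ≤ _ := by
            apply Nat.pow_le_pow_right (by norm_num)
            have h4 : (1 + (l + 1) + (R + 1)) * (s * (R + 1)) =
                (R + 1) * (s + A + (R + 1) * s) := by rw [hA]; ring
            rw [h4, mul_assoc]
            apply Nat.mul_le_mul_left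
            have := Nat.mul_le_mul_left (R + 1) hsA
            nlinarith
    have e5 : G ^ (s * (R + 1)) ≤ 2 ^ (G * (R + 1) * A) := by
      calc G ^ (s * (R + 1)) ≤ (2 ^ G) ^ (s * (R + 1)) := Nat.pow_le_pow_left (le_two G) _
        _ = 2 ^ (G * (s * (R + 1))) := by rw [← pow_mul]
        _ ≤ _ := by
            apply Nat.pow_le_pow_right (by norm_num)
            have h4 : G * (s * (R + 1)) = G * (R + 1) * s := by ring
            rw [h4]
            exact Nat.mul_le_mul_left _ hsA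
    calc 4 * ((s * (R + 1) + 1) ^ (s * (R + 1)) * G ^ (s * (R + 1)) * L) ≤
          2 ^ 2 * (2 ^ ((R + 1) * (R + 3) * A) * 2 ^ (G * (R + 1) * A) * 2 ^ L) :=
          Nat.mul_le_mul (by norm_num) (Nat.mul_le_mul (Nat.mul_le_mul e4 e5) (le_two L))
      _ = 2 ^ (2 + ((R + 1) * (R + 3) * A + G * (R + 1) * A + L)) := by
          rw [← pow_add, ← pow_add, ← pow_add]
      _ ≤ 2 ^ N := by
          apply Nat.pow_le_pow_right (by norm_num)
          refine le_trans ?_ hN3
          have h3 : L ≤ L * A := Nat.le_mul_of_pos_right L hA1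
          have h4 : (2 + (R + 1) * (R + 3) + G * (R + 1) + L) * A =
            2 * A + ((R + 1) * (R + 3) * A + G * (R + 1) * A + L * A) := by ring
          rw [h4]
          omega

end Pool.Agent.N636.FM
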