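import Mathlib
import Pool.Agent.N636.FM.Defs
import Pool.Agent.N636.FM.Stm

/-!
# BASE: hypergraphs of high girth with many blocks

By helper765 (method of Erdős and Sachs).
-/

set_option autoImplicit false

namespace Pool.Agent.N636.FM

namespace P_BASE

open Finset SimpleGraph

section extend

variable {V E : Type} [DecidableEq E]

/-- a new block whose vertices are pairwise far apart -/
theorem extend {g : ℕ} {blk : E → Finset V} {e₀ : E} (h : HG g (inc blk))
    (b : Finset V) (hb : ∀ u ∈ b, ∀ v ∈ b, u ≠ v →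
      ∀ p : (inc blk).Walk (Sum.inl u) (Sum.inl v), g < p.length) :
    HG g (inc (Function.update blk e₀ b)) := by
  classical
  have hadj : ∀ x y, (inc (Function.update blk e₀ b)).Adj x y → x ≠ Sum.inr e₀ →
      y ≠ Sum.inr e₀ → (inc blk).Adj x y := by
    intro x y hxy hx hy
    rcases hxy with ⟨v, e, rfl, rfl, hv⟩ | ⟨v, e, rfl, rfl, hv⟩
    · have he : e ≠ e₀ := fun h1 => hy (by rw [h1])
      rw [Function.update_of_ne he] at hv
      exact Or.inl ⟨v, e, rfl, rfl, hv⟩
    · have he : e ≠ e₀ := fun h1 => hx (by rw [h1])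
      rw [Function.update_of_ne he] at hv
      exact Or.inr ⟨v, e, rfl, rfl, hv⟩
  have hadj0 : ∀ y, (inc (Function.update blk e₀ b)).Adj (Sum.inr e₀) y →
      ∃ v ∈ b, y = Sum.inl v := by
    intro y hy
    rcases hy with ⟨v, e, h1, -, -⟩ | ⟨v, e, h1, rfl, hv⟩
    · exact absurd h1 (by simp)
    · rw [← Sum.inr.inj h1, Function.update_self] at hv
      exact ⟨v, hv, rfl⟩
  have htr : ∀ (x y : V ⊕ E) (p : (inc (Function.update blk e₀ b)).Walk x y),
      Sum.inr e₀ ∉ p.support → ∀ e, e ∈ p.edges → e ∈ (inc blk).edgeSet := by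
    intro x y p hp e
    induction e using Sym2.ind with
    | _ u w =>
      intro he
      exact hadj u w (p.adj_of_mem_edges he)
        (fun h1 => hp (by rw [← h1]; exact p.fst_mem_support_of_mem_edges he))
        (fun h1 => hp (by rw [← h1]; exact p.snd_mem_support_of_mem_edges he))
  intro x c hc
  by_cases hmem : Sum.inr e₀ ∈ c.support
  · have hc' := hc.rotate hmem
    have hlen : (c.rotate (Sum.inr e₀) hmem).length = c.length := Walk.length_rotate _ _ _
    rw [← hlen]
    generalize c.rotate (Sum.inr e₀) hmem = c' at hc'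
    cases c' with
    | nil => exact absurd hc' (by simp)
    | cons h1 p =>
      rw [Walk.cons_isCycle_iff] at hc'
      obtain ⟨v, hv, rfl⟩ := hadj0 _ h1
      obtain ⟨w, h2, r, hr⟩ := Walk.exists_eq_cons_of_ne (by simp) p.reverse
      obtain ⟨v', hv', rfl⟩ := hadj0 _ h2
      have h3 : r.IsPath ∧ Sum.inr e₀ ∉ r.support := by
        have := hc'.1.reverse
        rw [hr, Walk.cons_isPath_iff] at this
        exact this
      have hne : v' ≠ v := by
        rintro rfl
        apply hc'.2
        have : s(Sum.inr e₀, Sum.inl v') ∈ p.reverse.edges := by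
          rw [hr, Walk.edges_cons]
          exact List.mem_cons_self
        rwa [Walk.edges_reverse, List.mem_reverse] at this
      have h4 := hb v' hv' v hv hne (r.transfer _ (htr _ _ r h3.2))
      rw [Walk.length_transfer] at h4
      have h5 : p.length = r.length + 1 := by
        rw [← Walk.length_reverse, hr, Walk.length_cons]
      rw [Walk.length_cons]
      omega
  · have h1 := h x (c.transfer _ (htr _ _ c hmem)) (hc.transfer _)
    rwa [Walk.length_transfer] at h1

end extend

/-- subfamilies -/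
theorem sub {V E E' : Type} {g : ℕ} {blk : E → Finset V} (h : HG g (inc blk)) (f : E' → E)
    (hf : Function.Injective f) : HG g (inc fun e => blk (f e)) := by
  intro x c hc
  let φ : inc (fun e => blk (f e)) →g inc blk :=
    { toFun := Sum.map id f
      map_rel' := by
        intro x y hxy
        rcases hxy with ⟨v, e, rfl, rfl, hv⟩ | ⟨v, e, rfl, rfl, hv⟩
        · exact Or.inl ⟨v, f e, rfl, rfl, hv⟩
        · exact Or.inr ⟨v, f e, rfl, rfl, hv⟩ }
  have hφ : Function.Injective φ := Function.Injective.sumMap Function.injective_id hf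
  have h1 := h _ (c.map φ) (hc.map hφ)
  rwa [Walk.length_map] at h1

/-- the empty family -/
theorem empty {V E : Type} (g : ℕ) : HG g (inc fun _ : E => (∅ : Finset V)) := by
  intro x c hc
  exfalso
  cases c with
  | nil => exact absurd hc (by simp)
  | cons h p =>
    rcases h with ⟨v, e, -, -, hv⟩ | ⟨v, e, -, -, hv⟩ <;> exact absurd hv (by simp)

section ball

variable {V E : Type} [DecidableEq V] [DecidableEq E] [Fintype E] (blk : E → Finset V)

/-- neighbours -/
def nbr : V ⊕ E → Finset (V ⊕ E)
  | .inl v => (univ.filter fun e => v ∈ blk e).map ⟨Sum.inr, Sum.inr_injective⟩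
  | .inr e => (blk e).map ⟨Sum.inl, Sum.inl_injective⟩

/-- balls -/
def Rr : ℕ → V ⊕ E → Finset (V ⊕ E)
  | 0, x => {x}
  | l + 1, x => (insert x (nbr blk x)).biUnion (Rr l)

variable {blk}

theorem card_Rr {D : ℕ} (hD : ∀ x, (nbr blk x).card ≤ D) (l : ℕ) :
    ∀ x, (Rr blk l x).card ≤ (D + 1) ^ l := by
  induction l with
  | zero =>
    intro x
    show ({x} : Finset (V ⊕ E)).card ≤ _
    rw [card_singleton, pow_zero]
  | succ l ih =>
    intro x
    refine (card_biUnion_le_card_mul _ _ _ fun y _ => ih y).trans ?_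
    rw [pow_succ, mul_comm]
    exact Nat.mul_le_mul_left _ ((card_insert_le _ _).trans (Nat.succ_le_succ (hD x)))

theorem self_mem_Rr (l : ℕ) : ∀ x, x ∈ Rr blk l x := by
  induction l with
  | zero => exact fun x => mem_singleton_self x
  | succ l ih => exact fun x => mem_biUnion.2 ⟨x, mem_insert_self _ _, ih x⟩

theorem mem_nbr {x y : V ⊕ E} (h : (inc blk).Adj x y) : y ∈ nbr blk x := by
  rcases h with ⟨v, e, rfl, rfl, hv⟩ | ⟨v, e, rfl, rfl, hv⟩
  · exact mem_map.2 ⟨e, by simp [hv], rfl⟩
  · exact mem_map.2 ⟨v, hv, rfl⟩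

theorem mem_Rr {x y : V ⊕ E} (p : (inc blk).Walk x y) : ∀ l, p.length ≤ l → y ∈ Rr blk l x := by
  induction p with
  | nil => exact fun l _ => self_mem_Rr l _
  | cons h p ih =>
    intro l hl
    rw [Walk.length_cons] at hl
    obtain ⟨l, rfl⟩ : ∃ l', l = l' + 1 := ⟨l - 1, by omega⟩
    exact mem_biUnion.2 ⟨_, mem_insert_of_mem (mem_nbr h), ih l (by omega)⟩

/-- vertices which are pairwise far apart -/
theorem greedy {g M : ℕ} (hM1 : 1 ≤ M) (hM : ∀ x, (Rr blk g x).card ≤ M) (S : Finset V) (n : ℕ) :
    n * M ≤ S.card → ∃ b ⊆ S, b.card = n ∧ ∀ u ∈ b, ∀ v ∈ b, u ≠ v →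
      ∀ p : (inc blk).Walk (Sum.inl u) (Sum.inl v), g < p.length := by
  induction n with
  | zero => exact fun _ => ⟨∅, empty_subset _, card_empty, by simp⟩
  | succ n ih =>
    intro hn
    obtain ⟨b, hbS, hbn, hb⟩ := ih (by nlinarith)
    obtain ⟨v, hvS, hv⟩ : ∃ v ∈ S, ∀ u ∈ b, (Sum.inl v : V ⊕ E) ∉ Rr blk g (Sum.inl u) := by
      by_contra hcon
      push Not at hcon
      have h1 : S.map ⟨(Sum.inl : V → V ⊕ E), Sum.inl_injective⟩ ⊆
          b.biUnion fun u => Rr blk g (Sum.inl u) := by
        intro x hx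
        obtain ⟨v, hv, rfl⟩ := mem_map.1 hx
        obtain ⟨u, hu, hvu⟩ := hcon v hv
        exact mem_biUnion.2 ⟨u, hu, hvu⟩
      have h2 := (card_le_card h1).trans (card_biUnion_le_card_mul _ _ M fun u _ => hM _)
      rw [card_map, hbn] at h2
      nlinarith
    have hvb : v ∉ b := fun h => hv v h (self_mem_Rr g _)
    refine ⟨insert v b, insert_subset hvS hbS, by rw [card_insert_of_notMem hvb, hbn], ?_⟩
    intro x hx y hy hxy p
    by_contra hp
    push Not at hp
    rcases mem_insert.1 hx with hx' | hx' <;> rcases mem_insert.1 hy with hy' | hy'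
    · exact hxy (hx'.trans hy'.symm)
    · subst hx'
      apply hv y hy'
      refine mem_Rr p.reverse g ?_
      rwa [Walk.length_reverse]
    · subst hy'
      exact hv x hx' (mem_Rr p g hp)
    · exact absurd (hb x hx' y hy' hxy p) (not_lt.2 hp)

end ball

section count

variable {s B : ℕ} (blk : Fin B → Finset (Fin s))

/-- double counting -/
theorem double {t : ℕ} (h : ∀ e, (blk e).card = t ∨ blk e = ∅) :
    ∑ v, (univ.filter fun e => v ∈ blk e).card = (univ.filter fun e => blk e ≠ ∅).card * t := by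
  simp only [card_filter]
  rw [sum_comm, sum_mul]
  refine sum_congr rfl fun e _ => ?_
  have h1 : ∑ v, (if v ∈ blk e then 1 else 0) = (blk e).card := by
    rw [← card_filter]
    congr 1
    ext v
    simp
  rw [h1]
  rcases h e with h2 | h2
  · by_cases h3 : blk e = ∅
    · rw [if_neg (not_not.2 h3), h3, card_empty, zero_mul]
    · rw [if_pos h3, h2, one_mul]
  · rw [if_neg (not_not.2 h2), h2, card_empty, zero_mul]

end count

/-- families with `N` blocks -/
def Pr (s B t g d N : ℕ) : Prop := ∃ blk : Fin B → Finset (Fin s),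
  (∀ e, (blk e).card = t ∨ blk e = ∅) ∧ (univ.filter fun e => blk e ≠ ∅).card = N ∧
    HG g (inc blk) ∧ ∀ v, (univ.filter fun e => v ∈ blk e).card ≤ d

theorem pr_bound {s B t g d N : ℕ} (ht : 1 ≤ t) (h : Pr s B t g d N) : N ≤ d * s := by
  obtain ⟨blk, h1, h2, -, h4⟩ := h
  have h5 := double blk h1
  have h6 : ∑ v : Fin s, (univ.filter fun e => v ∈ blk e).card ≤ s * d := by
    refine (sum_le_sum fun v _ => h4 v).trans ?_
    rw [sum_const, card_univ, Fintype.card_fin, smul_eq_mul]
  rw [h5, h2] at h6
  nlinarith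

/-- a maximal family has many blocks -/
theorem pr_step {s t g d N : ℕ} (ht : 2 ≤ t) (h : Pr s (d * s + 1) t g d N)
    (h' : ¬ Pr s (d * s + 1) t g d (N + 1)) (hs : 2 * (t * (d + t + 1) ^ g) ≤ s) :
    d * s ≤ 2 * (N * t) := by
  classical
  have hN := pr_bound (by omega) h
  obtain ⟨blk, h1, h2, h3, h4⟩ := h
  set M := (d + t + 1) ^ g with hM
  have hM1 : 1 ≤ M := Nat.one_le_pow _ _ (by omega)
  have hR : ∀ x, (Rr blk g x).card ≤ M := by
    refine card_Rr (D := d + t) (fun x => ?_) g
    rcases x with v | e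
    · show ((univ.filter fun e => v ∈ blk e).map _).card ≤ _
      rw [card_map]
      exact (h4 v).trans (by omega)
    · show ((blk e).map _).card ≤ _
      rw [card_map]
      rcases h1 e with h5 | h5
      · omega
      · rw [h5, card_empty]; omega
  set S := univ.filter fun v => (univ.filter fun e => v ∈ blk e).card < d with hS
  by_cases hSc : t * M ≤ S.card
  · exfalso
    apply h'
    obtain ⟨b, hbS, hbt, hb⟩ := greedy hM1 hR S t hSc
    obtain ⟨e₀, he₀⟩ : ∃ e₀, blk e₀ = ∅ := by
      by_contra hcon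
      push Not at hcon
      have h5 : (univ.filter fun e => blk e ≠ ∅) = univ := by
        rw [filter_eq_self]
        exact fun e _ => (hcon e).ne_empty
      rw [h5, card_univ, Fintype.card_fin] at h2
      omega
    have hb0 : b ≠ ∅ := by
      rintro rfl
      rw [card_empty] at hbt
      omega
    refine ⟨Function.update blk e₀ b, fun e => ?_, ?_, extend h3 b hb, fun v => ?_⟩
    · by_cases he : e = e₀
      · rw [he, Function.update_self]
        exact Or.inl hbt
      · rw [Function.update_of_ne he]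
        exact h1 e
    · have h5 : (univ.filter fun e => Function.update blk e₀ b e ≠ ∅) =
          insert e₀ (univ.filter fun e => blk e ≠ ∅) := by
        ext e
        simp only [mem_filter, mem_univ, true_and, mem_insert]
        by_cases he : e = e₀
        · rw [he, Function.update_self]
          simp [hb0]
        · rw [Function.update_of_ne he]
          simp [he]
      rw [h5, card_insert_of_notMem (by simp [he₀]), h2]
    · by_cases hv : v ∈ b
      · have h5 : (univ.filter fun e => v ∈ Function.update blk e₀ b e) ⊆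
            insert e₀ (univ.filter fun e => v ∈ blk e) := by
          intro e he
          simp only [mem_filter, mem_univ, true_and, mem_insert] at he ⊢
          by_cases he' : e = e₀
          · exact Or.inl he'
          · rw [Function.update_of_ne he'] at he
            exact Or.inr he
        have h6 := (card_le_card h5).trans (card_insert_le _ _)
        have h7 := (mem_filter.1 (hbS hv)).2
        omega
      · have h5 : (univ.filter fun e => v ∈ Function.update blk e₀ b e) ⊆
            (univ.filter fun e => v ∈ blk e) := by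
          intro e he
          simp only [mem_filter, mem_univ, true_and] at he ⊢
          by_cases he' : e = e₀
          · rw [he', Function.update_self] at he
            exact absurd he hv
          · rwa [Function.update_of_ne he'] at he
        exact (card_le_card h5).trans (h4 v)
  · push Not at hSc
    have h5 := double blk h1
    rw [h2] at h5
    have h6 : ∑ v ∈ Sᶜ, d ≤ ∑ v, (univ.filter fun e => v ∈ blk e).card := by
      refine (sum_le_sum fun v hv => ?_).trans (sum_le_univ_sum_of_nonneg fun _ => Nat.zero_le _)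
      rw [mem_compl, hS, mem_filter, not_and] at hv
      exact not_lt.1 (hv (mem_univ v))
    rw [sum_const, smul_eq_mul, card_compl, Fintype.card_fin, h5] at h6
    have h7 : s ≤ 2 * (s - S.card) := by omega
    calc d * s ≤ d * (2 * (s - S.card)) := Nat.mul_le_mul_left _ h7
      _ = 2 * ((s - S.card) * d) := by ring
      _ ≤ _ := Nat.mul_le_mul_left _ h6

/-- the choice of the degree -/
theorem choice (t g C s₀ : ℕ) (ht : 2 ≤ t) : ∃ d : ℕ, 1 ≤ d ∧
    2 * t * (C * (Nat.log 2 (2 * (t * (d + t + 1) ^ g) + s₀ + 1) + 1)) ≤ d := by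
  set K := 2 * t + s₀ + 1 with hK
  set L := 2 * t * C * (K + g + 1) with hL
  set b := 2 * t * C * g with hb
  set n := L + 2 * b + t + 1 with hn
  set m := 2 * n with hm
  refine ⟨2 ^ m, Nat.one_le_two_pow, ?_⟩
  have hmt : t + 1 ≤ 2 ^ m := by
    have : m < 2 ^ m := Nat.lt_two_pow_self
    omega
  have h1 : 2 * (t * (2 ^ m + t + 1) ^ g) + s₀ + 1 ≤ 2 ^ (K + (m + 1) * g) := by
    have h2 : (2 ^ m + t + 1) ^ g ≤ 2 ^ ((m + 1) * g) := by
      rw [pow_mul 2 (m + 1) g]
      apply Nat.pow_le_pow_left
      rw [pow_succ]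
      omega
    have h3 : 1 ≤ 2 ^ ((m + 1) * g) := Nat.one_le_two_pow
    have h4 : K ≤ 2 ^ K := (Nat.lt_two_pow_self).le
    calc 2 * (t * (2 ^ m + t + 1) ^ g) + s₀ + 1 ≤
        2 * (t * 2 ^ ((m + 1) * g)) + (s₀ + 1) * 2 ^ ((m + 1) * g) := by
          have h5 := Nat.mul_le_mul_left (2 * t) h2
          have h6 := Nat.mul_le_mul_left (s₀ + 1) h3
          nlinarith
      _ = K * 2 ^ ((m + 1) * g) := by rw [hK]; ring
      _ ≤ 2 ^ K * 2 ^ ((m + 1) * g) := Nat.mul_le_mul_right _ h4
      _ = _ := by rw [← pow_add]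
  have h2 : Nat.log 2 (2 * (t * (2 ^ m + t + 1) ^ g) + s₀ + 1) ≤ K + (m + 1) * g := by
    refine (Nat.log_mono_right h1).trans ?_
    rw [Nat.log_pow (by norm_num)]
  have h3 : 2 * t * (C * (Nat.log 2 (2 * (t * (2 ^ m + t + 1) ^ g) + s₀ + 1) + 1)) ≤
      L + b * m := by
    calc _ ≤ 2 * t * (C * (K + (m + 1) * g + 1)) := by gcongr
      _ = L + b * m := by rw [hL, hb]; ring
  refine h3.trans ?_
  have h4 : n + 1 ≤ 2 ^ n := Nat.lt_two_pow_self
  have h5 : (n + 1) * (n + 1) ≤ 2 ^ m := by
    rw [hm, two_mul, pow_add]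
    exact Nat.mul_le_mul h4 h4
  refine le_trans ?_ h5
  have h6 : L ≤ n := by omega
  have h7 : 2 * b ≤ n := by omega
  rw [hm]
  nlinarith

end P_BASE

open P_BASE Finset in
theorem t_base : S_BASE := by
  classical
  intro t g C s₀ ht
  obtain ⟨d, hd1, hd⟩ := choice t g C s₀ ht
  set s := 2 * (t * (d + t + 1) ^ g) + s₀ + 1 with hs
  obtain ⟨N, hN, hN'⟩ : ∃ N, Pr s (d * s + 1) t g d N ∧ ¬ Pr s (d * s + 1) t g d (N + 1) := by
    by_contra hcon
    push Not at hcon
    have h0 : ∀ N, Pr s (d * s + 1) t g d N := by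
      intro N
      induction N with
      | zero => exact ⟨fun _ => ∅, fun _ => Or.inr rfl, by simp, P_BASE.empty g, by simp⟩
      | succ N ih => exact hcon N ih
    have h1 := pr_bound (by omega) (h0 (d * s + 1))
    omega
  have h1 := pr_step ht hN hN' (by omega)
  obtain ⟨blk, h2, h3, h4, -⟩ := hN
  let I := univ.filter fun e => blk e ≠ ∅
  let f : Fin N → Fin (d * s + 1) := I.orderEmbOfFin h3
  have hf : ∀ e, f e ∈ I := fun e => orderEmbOfFin_mem _ _ _
  refine ⟨s, N, fun e => blk (f e), by omega, fun e => ?_,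
    sub h4 f (I.orderEmbOfFin h3).injective, ?_⟩
  · exact (h2 (f e)).resolve_right (mem_filter.1 (hf e)).2
  · have h5 : 2 * t * (C * (s * (Nat.log 2 s + 1))) ≤ 2 * t * N := by
      calc 2 * t * (C * (s * (Nat.log 2 s + 1))) =
          (2 * t * (C * (Nat.log 2 s + 1))) * s := by ring
        _ ≤ d * s := Nat.mul_le_mul_right _ hd
        _ ≤ 2 * (N * t) := h1
        _ = 2 * t * N := by ring
    exact Nat.le_of_mul_le_mul_left h5 (by omega)

end Pool.Agent.N636.FM
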