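import Mathlib
import Pool.Agent.N636.FM.Defs
import Pool.Agent.N636.FM.Stm

set_option autoImplicit false

/-!
# Counting
-/

namespace Pool.Agent.N636.FM

namespace P_CNT

/-- a family of small sets does not cover -/
theorem cover {Ω I : Type} [Fintype Ω] [DecidableEq Ω] [Fintype I] (Bd : I → Finset Ω) (B N : ℕ)
    (hΩ : Fintype.card Ω = 2 ^ N) (hB : ∀ i, (Bd i).card ≤ B) (hB2 : B ^ 2 ≤ 2 ^ N)
    (hM : 16 * (Fintype.card I) ^ 2 ≤ 2 ^ N) (F : Finset Ω) (hF : 4 * F.card ≤ 2 ^ N) :
    ∃ b : Ω, b ∉ F ∧ ∀ i, b ∉ Bd i := by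
  have h1 : ((Finset.univ : Finset I).biUnion Bd).card ≤ Fintype.card I * B := by
    refine Finset.card_biUnion_le.trans ?_
    refine (Finset.sum_le_sum fun i _ => hB i).trans ?_
    simp
  have h2 : 4 * (Fintype.card I * B) ≤ 2 ^ N := by
    have h3 : (4 * (Fintype.card I * B)) ^ 2 ≤ (2 ^ N) ^ 2 := by
      calc (4 * (Fintype.card I * B)) ^ 2 = (16 * (Fintype.card I) ^ 2) * B ^ 2 := by ring
        _ ≤ 2 ^ N * 2 ^ N := Nat.mul_le_mul hM hB2
        _ = _ := by ring
    exact (Nat.pow_le_pow_iff_left (by norm_num)).1 h3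
  have h4 : (F ∪ (Finset.univ : Finset I).biUnion Bd).card < Fintype.card Ω := by
    have h5 := Finset.card_union_le F ((Finset.univ : Finset I).biUnion Bd)
    have h6 : 0 < 2 ^ N := by positivity
    rw [hΩ]
    omega
  obtain ⟨b, hb⟩ := Finset.exists_mem_notMem_of_card_lt_card (s := F ∪ Finset.univ.biUnion Bd)
    (t := (Finset.univ : Finset Ω)) (by rw [Finset.card_univ]; exact h4)
  have hb2 := hb.2
  rw [Finset.mem_union, not_or] at hb2
  refine ⟨b, hb2.1, fun i hi => hb2.2 ?_⟩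
  rw [Finset.mem_biUnion]
  exact ⟨i, Finset.mem_univ _, hi⟩

end P_CNT

theorem t_cnt : S_DET → S_WST → S_CNT := by
  classical
  intro hD hW K T R
  obtain ⟨t₀, ht₀⟩ := hW K T R
  refine ⟨t₀, fun t ht s N blk x y hblk hHG hxy h1 h2 F hF => ?_⟩
  obtain ⟨w, hw1, hw2⟩ := ht₀ t ht s N blk x y hblk hHG hxy h1
  have : Fintype (Dec K T R) := Fintype.ofFinite _
  have key := P_CNT.cover (Ω := Fin N → Bool)
    (I := (Fin s → Fin s) × (Fin s → Fin K) × Dec K T R)
    (fun i => Finset.univ.filter fun b => ∀ e, b e = i.2.2 (i.2.1 (i.1 (x e))) (i.2.1 (i.1 (y e)))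
        (ptype (inc (blkb blk w b)) (kap T i.2.1 (blkb blk w b)) R
          (Sum.inl (i.1 (x e))) (Sum.inl (i.1 (y e))))) (2 ^ (N / 2)) N (by simp) ?_ ?_ ?_ F hF
  · obtain ⟨b, hb1, hb2⟩ := key
    refine ⟨w, b, hw1, hb1, fun f τ Ψ h => ?_⟩
    exact hb2 (f, τ, Ψ) (Finset.mem_filter.2 ⟨Finset.mem_univ _, h⟩)
  · rintro ⟨f, τ, Ψ⟩
    simp only
    have hq := hw2 τ f
    rw [Set.ncard_eq_toFinset_card'] at hq
    set Q : Finset (Fin N) := {e : Fin N | Vis blk T R τ (f ∘ x) (f ∘ y) w e}.toFinset with hQ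
    have hc : (Finset.univ.filter fun b : Fin N → Bool => ∀ e, b e = Ψ (τ (f (x e))) (τ (f (y e)))
        (ptype (inc (blkb blk w b)) (kap T τ (blkb blk w b)) R
          (Sum.inl (f (x e))) (Sum.inl (f (y e))))).card ≤
        (Finset.univ : Finset ((i : Q) → Bool)).card := by
      apply Finset.card_le_card_of_injOn (fun (b : Fin N → Bool) (i : Q) => b (i : Fin N))
      · intro b _
        simp
      · intro b hb b' hb' hbb
        have hb1 := (Finset.mem_filter.1 (Finset.mem_coe.1 hb)).2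
        have hb2 := (Finset.mem_filter.1 (Finset.mem_coe.1 hb')).2
        have hd := hD s N K T R blk (f ∘ x) (f ∘ y) w τ b b' hHG (fun e he => by
          have he' : e ∈ Q := by rw [hQ, Set.mem_toFinset]; exact he
          exact congrFun hbb ⟨e, he'⟩)
        funext e
        rw [hb1 e, hb2 e]
        have := hd e
        simp only [Function.comp] at this
        rw [this]
    refine hc.trans ?_
    rw [Finset.card_univ, Fintype.card_fun, Fintype.card_bool, Fintype.card_coe]
    exact Nat.pow_le_pow_right (by norm_num) (by omega)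
  · rw [← pow_mul]
    exact Nat.pow_le_pow_right (by norm_num) (by omega)
  · have e : Fintype.card ((Fin s → Fin s) × (Fin s → Fin K) × Dec K T R) =
        s ^ s * K ^ s * Nat.card (Dec K T R) := by
      rw [Fintype.card_prod, Fintype.card_prod, Fintype.card_fun, Fintype.card_fun,
        Fintype.card_fin, Fintype.card_fin, Nat.card_eq_fintype_card, mul_assoc]
    rw [e]
    exact h2

end Pool.Agent.N636.FM
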