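import Mathlib
import Pool.Agent.N636.FM.Defs
import Pool.Agent.N636.FM.Stm

set_option autoImplicit false

namespace Pool.Agent.N636.FM

open Classical in
theorem t_loc : S_TAU → S_START → S_FI → S_LOC := by
  intro hTau hStart hFI m q
  obtain ⟨J, R, T, g, hR2, hFI'⟩ := hFI m q 2
  obtain ⟨K, hK⟩ := hTau (Option (Fin m → Prop)) T J
  refine ⟨K, T, R, max g (2 * R + 2), ?_⟩
  intro s N blk hHG U
  obtain ⟨τ, hτK, hChn⟩ := hK (Fin s ⊕ Fin N) (inc blk) (bc U)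
  refine ⟨fun v => ⟨τ J (Sum.inl v), hτK _ _⟩, ?_⟩
  intro a b a' b' ha hb hpt φ hφ hq
  have hg1 : HG g (inc blk) := fun v c hc => lt_of_le_of_lt (le_max_left _ _) (hHG v c hc)
  have hg2 : HG (2 * R + 2) (inc blk) :=
    fun v c hc => lt_of_le_of_lt (le_max_right _ _) (hHG v c hc)
  have ha' : τ J (Sum.inl a) = τ J (Sum.inl a') := by simpa using ha
  have hb' : τ J (Sum.inl b) = τ J (Sum.inl b') := by simpa using hb
  obtain ⟨S, π, hPI, hcard, haS, hbS, hπa, hπb⟩ :=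
    hStart m T J K R s N blk U τ hτK (by omega) hChn hg2 a b a' b' ha' hb' hpt
  have key := hFI' s N blk U T J τ hChn le_rfl le_rfl hg1 S π hcard hPI
  refine ⟨key ![a, b] ![a', b'] ?_ φ hφ hq, key ![b, a] ![b', a'] ?_ φ hφ hq⟩
  · intro i
    fin_cases i
    · exact ⟨haS, hπa⟩
    · exact ⟨hbS, hπb⟩
  · intro i
    fin_cases i
    · exact ⟨hbS, hπb⟩
    · exact ⟨haS, hπa⟩

end Pool.Agent.N636.FM
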