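import Mathlib
import Pool.Agent.N636.FM.Defs
import Pool.Agent.N636.FM.Stm
import Pool.Agent.N636.FM.P_UNQ

/-!
Choice of the deletions (counting).
-/

set_option autoImplicit false

namespace Pool.Agent.N636.FM

namespace P_WST

open Finset

/-- few vertices have a rare colour -/
theorem rare {s K : ℕ} (T : ℕ) (b : Finset (Fin s)) (τ : Fin s → Fin K) :
    (b.filter fun z => (b.filter fun v => τ v = τ z).card ≤ T).card ≤ K * T := by
  classical
  have h1 : (b.filter fun z => (b.filter fun v => τ v = τ z).card ≤ T) ⊆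
      (univ : Finset (Fin K)).biUnion fun k =>
        if (b.filter fun v => τ v = k).card ≤ T then b.filter fun v => τ v = k else ∅ := by
    intro z hz
    rw [mem_filter] at hz
    rw [mem_biUnion]
    refine ⟨τ z, mem_univ _, ?_⟩
    rw [if_pos hz.2, mem_filter]
    exact ⟨hz.1, rfl⟩
  refine (card_le_card h1).trans (card_biUnion_le.trans ?_)
  calc ∑ k : Fin K, (if (b.filter fun v => τ v = k).card ≤ T then
        b.filter fun v => τ v = k else ∅).card ≤ ∑ _k : Fin K, T := by
        refine sum_le_sum fun k _ => ?_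
        split_ifs with h
        · exact h
        · simp
    _ = K * T := by simp

/-- few incidences lie on the short paths -/
theorem paths {s N : ℕ} (R : ℕ) (blk : Fin N → Finset (Fin s)) (x y : Fin N → Fin s)
    (hg : HG (2 * R) (inc blk)) (P : Fin N → Finset (Fin s))
    (hP : ∀ e z, z ∈ P e → ∃ (e' : Fin N) (p : (inc blk).Walk (Sum.inl (x e')) (Sum.inl (y e'))),
      p.IsPath ∧ p.length ≤ R ∧ s(Sum.inl z, Sum.inr e) ∈ p.edges) :
    ∑ e, (P e).card ≤ R * N := by
  classical
  let Q : Fin N → Finset (Sym2 (Fin s ⊕ Fin N)) := fun e' =>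
    if h : ∃ p : (inc blk).Walk (Sum.inl (x e')) (Sum.inl (y e')), p.IsPath ∧ p.length ≤ R then
      h.choose.edges.toFinset else ∅
  have hQ : ∀ e', (Q e').card ≤ R := by
    intro e'
    show (if h : ∃ p : (inc blk).Walk (Sum.inl (x e')) (Sum.inl (y e')), p.IsPath ∧ p.length ≤ R
      then h.choose.edges.toFinset else ∅).card ≤ R
    split_ifs with h
    · refine (List.toFinset_card_le _).trans ?_
      rw [SimpleGraph.Walk.length_edges]
      exact h.choose_spec.2
    · simp
  have hQ2 : ∀ (e' : Fin N) (p : (inc blk).Walk (Sum.inl (x e')) (Sum.inl (y e'))), p.IsPath →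
      p.length ≤ R → ∀ q ∈ p.edges, q ∈ Q e' := by
    intro e' p hp hl q hq
    show q ∈ (if h : ∃ p : (inc blk).Walk (Sum.inl (x e')) (Sum.inl (y e')),
      p.IsPath ∧ p.length ≤ R then h.choose.edges.toFinset else ∅)
    have h : ∃ p : (inc blk).Walk (Sum.inl (x e')) (Sum.inl (y e')), p.IsPath ∧ p.length ≤ R :=
      ⟨p, hp, hl⟩
    rw [dif_pos h, List.mem_toFinset]
    have h2 : h.choose = p := P_UNQ.unq hg _ _ h.choose_spec.1 hp (by
      have := h.choose_spec.2
      omega)
    rw [h2]
    exact hq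
  have h1 : ∑ e, (P e).card = ((univ : Finset (Fin N)).sigma P).card := (card_sigma _ _).symm
  rw [h1]
  let F : (Σ _ : Fin N, Fin s) → Sym2 (Fin s ⊕ Fin N) := fun q => s(Sum.inl q.2, Sum.inr q.1)
  have hF : Function.Injective F := by
    rintro ⟨e, z⟩ ⟨e', z'⟩ h
    have h2 : s((Sum.inl z : Fin s ⊕ Fin N), Sum.inr e) = s(Sum.inl z', Sum.inr e') := h
    rw [Sym2.eq_iff] at h2
    rcases h2 with ⟨h3, h4⟩ | ⟨h3, h4⟩
    · rw [Sum.inl.injEq] at h3
      rw [Sum.inr.injEq] at h4
      rw [h3, h4]
    · exact absurd h3 (by simp)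
  calc ((univ : Finset (Fin N)).sigma P).card = (((univ : Finset (Fin N)).sigma P).image F).card :=
        (card_image_of_injective _ hF).symm
    _ ≤ ((univ : Finset (Fin N)).biUnion Q).card := by
        refine card_le_card ?_
        intro q hq
        rw [mem_image] at hq
        obtain ⟨⟨e, z⟩, h2, rfl⟩ := hq
        rw [mem_sigma] at h2
        obtain ⟨e', p, hp, hl, hm⟩ := hP e z h2.2
        rw [mem_biUnion]
        exact ⟨e', mem_univ _, hQ2 e' p hp hl _ hm⟩
    _ ≤ ∑ e', (Q e').card := card_biUnion_le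
    _ ≤ ∑ _e' : Fin N, R := sum_le_sum fun e' _ => hQ e'
    _ = R * N := by simp [mul_comm]

theorem exp_half_le : Real.exp (1 / 2) ≤ 2 := by
  have h1 : Real.exp (1 / 2) ^ 2 = Real.exp 1 := by
    rw [← Real.exp_nat_mul]; norm_num
  have h2 := Real.exp_one_lt_d9
  have h3 := Real.exp_pos (1 / 2)
  nlinarith

/-- the product -/
theorem prod_le (N m A : ℕ) (c : Fin N → ℕ) (hc : ∑ e, c e ≤ A * N) (hm : 30 * A ≤ m)
    (hm0 : 0 < m) : ∏ e, (m + 15 * c e) ≤ m ^ N * 2 ^ N := by
  have hm' : (0 : ℝ) < m := by exact_mod_cast hm0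
  have h1 : ((∏ e, (m + 15 * c e) : ℕ) : ℝ) ≤ (m : ℝ) ^ N * 2 ^ N := by
    push_cast
    calc ∏ e : Fin N, ((m : ℝ) + 15 * c e) ≤ ∏ e : Fin N, ((m : ℝ) * Real.exp (15 * c e / m)) := by
          refine prod_le_prod (fun e _ => by positivity) fun e _ => ?_
          have h2 := Real.add_one_le_exp (15 * (c e : ℝ) / m)
          have h3 : (m : ℝ) + 15 * c e = m * (15 * (c e : ℝ) / m + 1) := by field_simp; ring
          rw [h3]
          exact mul_le_mul_of_nonneg_left h2 hm'.le
      _ = (m : ℝ) ^ N * Real.exp (15 * (∑ e, (c e : ℝ)) / m) := by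
          rw [prod_mul_distrib, prod_const, card_univ, Fintype.card_fin, ← Real.exp_sum]
          congr 2
          rw [mul_sum, sum_div]
      _ ≤ (m : ℝ) ^ N * Real.exp (1 / 2) ^ N := by
          refine mul_le_mul_of_nonneg_left ?_ (by positivity)
          rw [← Real.exp_nat_mul]
          refine Real.exp_le_exp.2 ?_
          have h4 : (∑ e, (c e : ℝ)) ≤ A * N := by exact_mod_cast hc
          have h5 : (30 : ℝ) * A ≤ m := by exact_mod_cast hm
          rw [div_le_iff₀ hm']
          have h6 : (0 : ℝ) ≤ N := Nat.cast_nonneg N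
          nlinarith
      _ ≤ (m : ℝ) ^ N * 2 ^ N := by
          refine mul_le_mul_of_nonneg_left ?_ (by positivity)
          exact pow_le_pow_left₀ (Real.exp_pos _).le exp_half_le N
  exact_mod_cast h1

/-- Markov's inequality with an exponential weight -/
theorem markov (N m A : ℕ) {α : Type} [DecidableEq α] (O B : Fin N → Finset α)
    (hO : ∀ e, (O e).card = m) (hB : ∑ e, (B e).card ≤ A * N) (hm : 30 * A ≤ m) (hm0 : 0 < m) :
    ((Fintype.piFinset O).filter fun w => N < 2 * (univ.filter fun e => w e ∈ B e).card).card *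
      2 ^ N ≤ m ^ N := by
  have h1 : ∑ w ∈ Fintype.piFinset O, 16 ^ (univ.filter fun e => w e ∈ B e).card =
      ∏ e, ∑ z ∈ O e, (if z ∈ B e then 16 else 1) := by
    rw [prod_univ_sum]
    refine sum_congr rfl fun w _ => ?_
    rw [prod_ite]
    simp
  have h2 : ∀ e, ∑ z ∈ O e, (if z ∈ B e then 16 else 1) ≤ m + 15 * (B e).card := by
    intro e
    calc ∑ z ∈ O e, (if z ∈ B e then 16 else 1) = ∑ z ∈ O e, (1 + 15 * if z ∈ B e then 1 else 0) := by
          refine sum_congr rfl fun z _ => ?_
          split_ifs <;> rfl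
      _ = m + 15 * ((O e).filter fun z => z ∈ B e).card := by
          rw [sum_add_distrib, ← mul_sum, card_filter, sum_const, hO, smul_eq_mul, mul_one]
      _ ≤ m + 15 * (B e).card := by
          have : ((O e).filter fun z => z ∈ B e).card ≤ (B e).card :=
            card_le_card fun z hz => (mem_filter.1 hz).2
          omega
  have h3 : ∑ w ∈ Fintype.piFinset O, 16 ^ (univ.filter fun e => w e ∈ B e).card ≤
      m ^ N * 2 ^ N := by
    rw [h1]
    refine le_trans (prod_le_prod' fun e _ => h2 e) ?_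
    exact prod_le N m A (fun e => (B e).card) hB hm hm0
  have h4 : ((Fintype.piFinset O).filter fun w =>
      N < 2 * (univ.filter fun e => w e ∈ B e).card).card * 4 ^ N ≤
      ∑ w ∈ Fintype.piFinset O, 16 ^ (univ.filter fun e => w e ∈ B e).card := by
    rw [← smul_eq_mul, ← sum_const]
    refine le_trans (sum_le_sum fun w hw => ?_) (sum_le_sum_of_subset (filter_subset _ _))
    have h5 := (mem_filter.1 hw).2
    calc 4 ^ N ≤ 4 ^ (2 * (univ.filter fun e => w e ∈ B e).card) :=
          Nat.pow_le_pow_right (by norm_num) h5.le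
      _ = 16 ^ (univ.filter fun e => w e ∈ B e).card := by
          rw [pow_mul]; norm_num
  have h6 := h4.trans h3
  have h7 : (4 : ℕ) ^ N = 2 ^ N * 2 ^ N := by
    rw [← mul_pow]
    norm_num
  rw [h7, ← mul_assoc] at h6
  exact Nat.le_of_mul_le_mul_right h6 (by positivity)

end P_WST

open Finset P_WST in
theorem t_wst : S_WST := by
  classical
  intro K T R
  refine ⟨32 * (K * T + R) + 100, fun t ht s N blk x y hcard hg hxy hsN => ?_⟩
  let O : Fin N → Finset (Fin s) := fun e => ((blk e).erase (x e)).erase (y e)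
  have hO : ∀ e, (O e).card = t - 2 := by
    intro e
    show (((blk e).erase (x e)).erase (y e)).card = t - 2
    rw [card_erase_of_mem, card_erase_of_mem (hxy e).1, hcard]
    · rfl
    · rw [mem_erase]
      exact ⟨(hxy e).2.2.symm, (hxy e).2.1⟩
  have hm0 : 0 < t - 2 := by omega
  have hm : 30 * (K * T + R) ≤ t - 2 := by omega
  let Bd : (Fin s → Fin K) → (Fin s → Fin s) → Finset (Fin N → Fin s) := fun τ f =>
    (Fintype.piFinset O).filter fun w => N < 2 * {e : Fin N | Vis blk T R τ (f ∘ x) (f ∘ y) w e}.ncard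
  have hBd : ∀ τ f, (Bd τ f).card * 2 ^ N ≤ (t - 2) ^ N := by
    intro τ f
    let B1 : Fin N → Finset (Fin s) := fun e =>
      (blk e).filter fun z => ((blk e).filter fun v => τ v = τ z).card ≤ T
    let B2 : Fin N → Finset (Fin s) := fun e =>
      (blk e).filter fun z => ∃ (e' : Fin N)
        (p : (inc blk).Walk (Sum.inl ((f ∘ x) e')) (Sum.inl ((f ∘ y) e'))),
        p.IsPath ∧ p.length ≤ R ∧ s(Sum.inl z, Sum.inr e) ∈ p.edges
    have h1 : ∑ e, (B1 e ∪ B2 e).card ≤ (K * T + R) * N := by
      calc ∑ e, (B1 e ∪ B2 e).card ≤ ∑ e, ((B1 e).card + (B2 e).card) :=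
            sum_le_sum fun e _ => card_union_le _ _
        _ = ∑ e, (B1 e).card + ∑ e, (B2 e).card := sum_add_distrib
        _ ≤ ∑ _e : Fin N, K * T + R * N := by
            refine add_le_add (sum_le_sum fun e _ => rare T (blk e) τ) ?_
            exact paths R blk (f ∘ x) (f ∘ y) hg B2 fun e z hz => (mem_filter.1 hz).2
        _ = (K * T + R) * N := by simp; ring
    have h2 := markov N (t - 2) (K * T + R) O (fun e => B1 e ∪ B2 e) hO h1 hm hm0
    refine le_trans (Nat.mul_le_mul_right _ (le_of_eq ?_)) h2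
    congr 1
    refine filter_congr fun w hw => ?_
    have h3 : {e : Fin N | Vis blk T R τ (f ∘ x) (f ∘ y) w e}.ncard =
        (univ.filter fun e => w e ∈ B1 e ∪ B2 e).card := by
      rw [← Set.ncard_coe_finset]
      congr 1
      ext e
      have hwe : w e ∈ blk e := by
        have h4 := Fintype.mem_piFinset.1 hw e
        exact mem_of_mem_erase (mem_of_mem_erase h4)
      simp only [Set.mem_ofPred_eq, coe_filter, mem_univ, true_and, mem_union]
      show Vis blk T R τ (f ∘ x) (f ∘ y) w e ↔ w e ∈ (blk e).filter _ ∨ w e ∈ (blk e).filter _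
      rw [mem_filter, mem_filter]
      unfold Vis
      constructor
      · rintro (h | h)
        · exact Or.inl ⟨hwe, h⟩
        · exact Or.inr ⟨hwe, h⟩
      · rintro (h | h)
        · exact Or.inl h.2
        · exact Or.inr h.2
    rw [h3]
  -- the union bound
  have hU : ((univ : Finset ((Fin s → Fin K) × (Fin s → Fin s))).biUnion fun q => Bd q.1 q.2).card <
      (Fintype.piFinset O).card := by
    have h1 : (Fintype.piFinset O).card = (t - 2) ^ N := by
      rw [Fintype.card_piFinset, prod_congr rfl fun e _ => hO e, prod_const, card_univ,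
        Fintype.card_fin]
    rw [h1]
    have h2 : ((univ : Finset ((Fin s → Fin K) × (Fin s → Fin s))).biUnion
        fun q => Bd q.1 q.2).card * 2 ^ N ≤ (s ^ s * K ^ s) * (t - 2) ^ N := by
      calc _ ≤ (∑ q : (Fin s → Fin K) × (Fin s → Fin s), (Bd q.1 q.2).card) * 2 ^ N :=
            Nat.mul_le_mul_right _ card_biUnion_le
        _ = ∑ q : (Fin s → Fin K) × (Fin s → Fin s), (Bd q.1 q.2).card * 2 ^ N := sum_mul _ _ _
        _ ≤ ∑ _q : (Fin s → Fin K) × (Fin s → Fin s), (t - 2) ^ N :=
            sum_le_sum fun q _ => hBd q.1 q.2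
        _ = (s ^ s * K ^ s) * (t - 2) ^ N := by
            rw [sum_const, card_univ, smul_eq_mul, Fintype.card_prod]
            simp [mul_comm]
    have h3 : (s ^ s * K ^ s) * (t - 2) ^ N < 2 ^ N * (t - 2) ^ N :=
      Nat.mul_lt_mul_of_pos_right hsN (by positivity)
    have h4 := lt_of_le_of_lt h2 h3
    rw [mul_comm (2 ^ N)] at h4
    exact Nat.lt_of_mul_lt_mul_right h4
  obtain ⟨w, hw, hw2⟩ : ∃ w ∈ Fintype.piFinset O,
      w ∉ (univ : Finset ((Fin s → Fin K) × (Fin s → Fin s))).biUnion fun q => Bd q.1 q.2 := by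
    by_contra hcon
    push Not at hcon
    exact absurd (card_le_card hcon) (not_le.2 hU)
  refine ⟨w, fun e => ?_, fun τ f => ?_⟩
  · have h4 := Fintype.mem_piFinset.1 hw e
    have h5 : w e ∈ ((blk e).erase (x e)).erase (y e) := h4
    rw [mem_erase, mem_erase] at h5
    exact ⟨h5.2.2, h5.2.1, h5.1⟩
  · by_contra hcon
    push Not at hcon
    apply hw2
    rw [mem_biUnion]
    exact ⟨(τ, f), mem_univ _, mem_filter.2 ⟨hw, hcon⟩⟩

end Pool.Agent.N636.FM
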