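import Mathlib
import Pool.Agent.N636.FM.Defs
import Pool.Agent.N636.FM.Stm
import Pool.Agent.N636.FM.P_TAU
import Pool.Agent.N636.FM.P_CV
import Pool.Agent.N636.FM.P_ST
import Pool.Agent.N636.FM.P_LM
import Pool.Agent.N636.FM.P_CL
import Pool.Agent.N636.FM.P_FM
import Pool.Agent.N636.FM.P_FI
import Pool.Agent.N636.FM.P_START
import Pool.Agent.N636.FM.P_DET
import Pool.Agent.N636.FM.P_WST
import Pool.Agent.N636.FM.P_CNT
import Pool.Agent.N636.FM.P_FOR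
import Pool.Agent.N636.FM.P_BASE
import Pool.Agent.N636.FM.P_MODX
import Pool.Agent.N636.FM.P_ARI
import Pool.Agent.N636.FM.P_LOC
import Pool.Agent.N636.FM.P_STAGE
import Pool.Agent.N636.FM.P_ASM

set_option autoImplicit false

namespace Pool.Agent.N636.FM

theorem main : ∃ C D : Set FGraph,
    (∀ G ∈ C, ∀ G' : FGraph, Nonempty (G.2 ≃g G'.2) → G' ∈ C) ∧
    (∀ H ∈ D, ∀ H' : FGraph, Nonempty (H.2 ≃g H'.2) → H' ∈ D) ∧
    (∀ n : ℕ, ∃ G ∈ C, n < G.1) ∧ (∀ n : ℕ, ∃ H ∈ D, n < H.1) ∧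
    (∃ T : Trans, Transduces T C D) ∧ ∀ T : Trans, T.IsFO → ¬ Transduces T C D :=
  have hST := t_st t_cv
  have hLM := t_lm hST
  have hLOC := t_loc t_tau t_start (t_fi (t_fm hLM t_cl))
  t_asm (t_stage hLOC (t_cnt t_det t_wst) t_for t_base t_modx t_ari)

end Pool.Agent.N636.FM
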